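import Pool.Agent.Lib.GT40.Blue

/-! Project gt40: the complex action. -/

open scoped Manifold ContDiff Topology Matrix
open Set Filter Metric Complex Sum

set_option linter.unusedVariables false
set_option linter.unusedSectionVars false

noncomputable section

namespace Pool.Agent.Lib.GT40

namespace ACTB

variable {ι : Type} [Fintype ι] {d : ℕ} {Y : Type} [TopologicalSpace Y] [T2Space Y]
  [ChartedSpace (E d) Y] [IsManifold 𝓘(ℂ, E d) ω Y] {ρ : (ι → ℝ) → Y → Y}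

theorem cx_add (a b : ι → ℝ) : cx (a + b) = cx a + cx b := funext fun i => ofReal_add _ _

theorem cx_zero : cx (0 : ι → ℝ) = 0 := funext fun a => ofReal_zero

theorem slice {M : (ι → ℂ) × Y → Y} {u : (ι → ℂ) → ι → ℂ} {v : (ι → ℂ) → Y} {t : ι → ℂ}
    (h : MDifferentiableAt (𝓘(ℂ, ι → ℂ).prod 𝓘(ℂ, E d)) 𝓘(ℂ, E d) M (u t, v t))
    (hu : DifferentiableAt ℂ u t) (hv : MDifferentiableAt 𝓘(ℂ, ι → ℂ) 𝓘(ℂ, E d) v t) :
    MDifferentiableAt 𝓘(ℂ, ι → ℂ) 𝓘(ℂ, E d) (fun s => M (u s, v s)) t :=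
  h.comp t (f := fun s => (u s, v s)) (hu.mdifferentiableAt.prodMk hv)

/-- One local extension on a uniform ball. -/
theorem unif [CompactSpace Y] (hID : St_ID) (hLOC : St_LOC) (h : RAct d ρ) :
    ∃ ε > 0, ∃ M : (ι → ℂ) × Y → Y,
      (∀ τ ∈ ball (0 : ι → ℂ) ε, ∀ y,
        MDifferentiableAt (𝓘(ℂ, ι → ℂ).prod 𝓘(ℂ, E d)) 𝓘(ℂ, E d) M (τ, y)) ∧
      ∀ θ y, cx θ ∈ ball (0 : ι → ℂ) ε → M (cx θ, y) = ρ θ y := by
  have key : ∃ ε > 0, ∀ y ∈ (univ : Set Y), ∃ U ∈ 𝓝 y, ∃ L : (ι → ℂ) × Y → Y,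
      ∀ τ ∈ ball (0 : ι → ℂ) ε, ∀ z ∈ U,
        MDifferentiableAt (𝓘(ℂ, ι → ℂ).prod 𝓘(ℂ, E d)) 𝓘(ℂ, E d) L (τ, z) ∧
          ∀ θ, τ = cx θ → L (τ, z) = ρ θ z := by
    refine isCompact_univ.induction_on (p := fun s => ∃ ε > 0, ∀ y ∈ s, ∃ U ∈ 𝓝 y,
      ∃ L : (ι → ℂ) × Y → Y, ∀ τ ∈ ball (0 : ι → ℂ) ε, ∀ z ∈ U,
        MDifferentiableAt (𝓘(ℂ, ι → ℂ).prod 𝓘(ℂ, E d)) 𝓘(ℂ, E d) L (τ, z) ∧
          ∀ θ, τ = cx θ → L (τ, z) = ρ θ z) ⟨1, one_pos, fun y hy => hy.elim⟩ ?_ ?_ ?_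
    · rintro s t hst ⟨ε, e0, H⟩
      exact ⟨ε, e0, fun y hy => H y (hst hy)⟩
    · rintro s t ⟨ε, e0, H⟩ ⟨ε', e0', H'⟩
      refine ⟨min ε ε', lt_min e0 e0', ?_⟩
      rintro y (hy | hy)
      · obtain ⟨U, hU, L, hL⟩ := H y hy
        exact ⟨U, hU, L, fun τ hτ => hL τ (ball_subset_ball (min_le_left _ _) hτ)⟩
      · obtain ⟨U, hU, L, hL⟩ := H' y hy
        exact ⟨U, hU, L, fun τ hτ => hL τ (ball_subset_ball (min_le_right _ _) hτ)⟩
    · intro x _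
      obtain ⟨L, hL⟩ := hLOC ι d Y ρ h x
      obtain ⟨S, hS, U, hU, hSU⟩ := mem_nhds_prod_iff.1 hL
      obtain ⟨ε, e0, hb⟩ := Metric.mem_nhds_iff.1 hS
      exact ⟨interior U, mem_nhdsWithin_of_mem_nhds (interior_mem_nhds.2 hU), ε, e0,
        fun y hy => ⟨U, mem_interior_iff_mem_nhds.1 hy, L, fun τ hτ z hz =>
          hSU (mk_mem_prod (hb hτ) hz)⟩⟩
  obtain ⟨ε, e0, H⟩ := key
  choose U hU L hL using fun y => H y (mem_univ y)
  refine ⟨ε, e0, fun p => L p.2 p, fun τ hτ y => ?_, fun θ y hθ =>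
    (hL y _ hθ y (mem_of_mem_nhds (hU y))).2 θ rfl⟩
  refine (hL y τ hτ y (mem_of_mem_nhds (hU y))).1.congr_of_eventuallyEq ?_
  filter_upwards [prod_mem_nhds (isOpen_ball.mem_nhds hτ) (hU y)] with p hp
  have hz := mem_of_mem_nhds (hU p.2)
  exact hID ι d Y (ball 0 ε) (fun t => L p.2 (t, p.2)) (fun t => L y (t, p.2)) isOpen_ball
    (convex_ball _ _) (mem_ball_self e0)
    (fun t ht => slice (hL _ t ht _ hz).1 differentiableAt_id mdifferentiableAt_const)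
    (fun t ht => slice (hL _ t ht _ hp.2).1 differentiableAt_id mdifferentiableAt_const)
    (fun θ hθ => ((hL _ _ hθ _ hz).2 θ rfl).trans ((hL _ _ hθ _ hp.2).2 θ rfl).symm) p.1 hp.1

/-- The local group law. -/
theorem law (hID : St_ID) (h : RAct d ρ) {r : ℝ} (r0 : 0 < r) {M : (ι → ℂ) × Y → Y}
    (hM : ∀ τ ∈ ball (0 : ι → ℂ) (r + r), ∀ y,
      MDifferentiableAt (𝓘(ℂ, ι → ℂ).prod 𝓘(ℂ, E d)) 𝓘(ℂ, E d) M (τ, y))
    (rM : ∀ θ y, cx θ ∈ ball (0 : ι → ℂ) (r + r) → M (cx θ, y) = ρ θ y) {t t' : ι → ℂ}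
    (ht : t ∈ ball 0 r) (ht' : t' ∈ ball 0 r) (y : Y) : M (t + t', y) = M (t, M (t', y)) := by
  have up : ∀ {a : ι → ℂ}, a ∈ ball 0 r → a ∈ ball 0 (r + r) := fun ha =>
    ball_subset_ball (by linarith) ha
  have ad : ∀ {a b : ι → ℂ}, a ∈ ball 0 r → b ∈ ball 0 r → a + b ∈ ball 0 (r + r) := by
    intro a b ha hb
    rw [mem_ball_zero_iff] at ha hb ⊢
    exact (norm_add_le _ _).trans_lt (add_lt_add ha hb)
  refine hID ι d Y (ball 0 r) (fun s => M (t + s, y)) (fun s => M (t, M (s, y))) isOpen_ball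
    (convex_ball _ _) (mem_ball_self r0)
    (fun s hs => slice (hM _ (ad ht hs) y) (by fun_prop) mdifferentiableAt_const)
    (fun s hs => slice (u := fun _ => t) (hM _ (up ht) _) (differentiableAt_const t)
      (slice (hM _ (up hs) y) differentiableAt_id mdifferentiableAt_const))
    (fun θ' h' => ?_) t' ht'
  refine hID ι d Y (ball 0 r) (fun s => M (s + cx θ', y)) (fun s => M (s, M (cx θ', y)))
    isOpen_ball (convex_ball _ _) (mem_ball_self r0)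
    (fun s hs => slice (hM _ (ad hs h') y) (by fun_prop) mdifferentiableAt_const)
    (fun s hs => slice (hM _ (up hs) _) differentiableAt_id mdifferentiableAt_const)
    (fun θ hθ => ?_) t ht
  have := ad hθ h'
  simp only [← cx_add] at this ⊢
  rw [rM _ _ this, rM _ _ (up hθ), rM _ _ (up h'), h.add]

theorem small {r : ℝ} {m : ℕ} {τ : ι → ℂ} (h : ‖τ‖ < m * r) :
    (m : ℂ)⁻¹ • τ ∈ ball (0 : ι → ℂ) r := by
  have m0 : (0 : ℝ) < m := by
    rcases Nat.eq_zero_or_pos m with rfl | hm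
    · simp at h; linarith [norm_nonneg τ]
    · exact_mod_cast hm
  rw [mem_ball_zero_iff, norm_smul, norm_inv, Complex.norm_natCast, inv_mul_lt_iff₀ m0]
  exact h

theorem ne0 {r : ℝ} {m : ℕ} {τ : ι → ℂ} (h : ‖τ‖ < m * r) : m ≠ 0 := by
  rintro rfl
  simp at h
  linarith [norm_nonneg τ]

end ACTB

open ACTB in
theorem st_ACT (hID : St_ID) (hLOC : St_LOC) : St_ACT := by
  intro ι _ d Y _ _ _ _ _ ρ h
  obtain ⟨ε, e0, M, hM, rM⟩ := unif hID hLOC h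
  obtain ⟨r, rfl⟩ : ∃ r, ε = r + r := ⟨ε / 2, by ring⟩
  have r0 : 0 < r := by linarith
  have up : ∀ {a : ι → ℂ}, a ∈ ball 0 r → a ∈ ball 0 (r + r) := fun ha =>
    ball_subset_ball (by linarith) ha
  set l : (ι → ℂ) → Y → Y := fun t y => M (t, y) with hl
  have la : ∀ {t t' : ι → ℂ}, t ∈ ball 0 r → t' ∈ ball 0 r → l (t + t') = l t ∘ l t' :=
    fun ht ht' => funext (law hID h r0 hM rM ht ht')
  have l0 : l 0 = id := funext fun y => by
    have := rM 0 y (by rw [cx_zero]; exact mem_ball_self e0)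
    rwa [cx_zero, h.zero] at this
  have pw : ∀ (s : ι → ℂ) (j : ℕ), j * ‖s‖ < r → l ((j : ℂ) • s) = (l s)^[j] := by
    intro s j
    induction j with
    | zero => intro _; simpa using l0
    | succ j ih =>
      intro hj
      have n0 := norm_nonneg s
      have j0 : (0 : ℝ) ≤ j * ‖s‖ := by positivity
      push_cast at hj
      rw [Nat.cast_succ, add_smul, one_smul, la, ih (by linarith), Function.iterate_succ]
      · rw [mem_ball_zero_iff, norm_smul, Complex.norm_natCast]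
        linarith
      · rw [mem_ball_zero_iff]
        linarith
  have mu : ∀ (τ : ι → ℂ) (m n : ℕ), ‖τ‖ < m * r → n ≠ 0 →
      (l ((m : ℂ)⁻¹ • τ))^[m] = (l (((n * m : ℕ) : ℂ)⁻¹ • τ))^[n * m] := by
    intro τ m n hm hn
    have e : (n : ℂ) • (((n * m : ℕ) : ℂ)⁻¹ • τ) = (m : ℂ)⁻¹ • τ := by
      have : (n : ℂ) ≠ 0 := Nat.cast_ne_zero.2 hn
      rw [smul_smul, Nat.cast_mul, mul_inv, mul_inv_cancel_left₀ this]
    rw [Function.iterate_mul, ← pw _ n, e]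
    have := mem_ball_zero_iff.1 (small hm)
    rwa [← e, norm_smul, Complex.norm_natCast] at this
  have ex : ∀ c : ℝ, ∃ m : ℕ, c < m * r := fun c => by
    obtain ⟨m, hm⟩ := exists_nat_gt (c / r)
    exact ⟨m, (div_lt_iff₀ r0).1 hm⟩
  choose N hN using ex
  set A : (ι → ℂ) → Y → Y := fun τ => (l ((N ‖τ‖ : ℂ)⁻¹ • τ))^[N ‖τ‖] with hA
  have eA : ∀ (τ : ι → ℂ) (m : ℕ), ‖τ‖ < m * r → A τ = (l ((m : ℂ)⁻¹ • τ))^[m] := by
    intro τ m hm
    rw [mu τ m _ hm (ne0 (hN ‖τ‖)), mul_comm]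
    exact mu τ _ m (hN _) (ne0 hm)
  have re : ∀ θ y, A (cx θ) y = ρ θ y := by
    intro θ y
    have hm := hN ‖cx θ‖
    have m0 : (N ‖cx θ‖ : ℝ) ≠ 0 := Nat.cast_ne_zero.2 (ne0 hm)
    have hs := up (small hm)
    rw [eA _ _ hm]
    generalize N ‖cx θ‖ = m at m0 hs
    have e : (m : ℂ)⁻¹ • cx θ = cx ((m : ℝ)⁻¹ • θ) := funext fun a => by simp [cx]
    rw [e] at hs ⊢
    have e1 : l (cx ((m : ℝ)⁻¹ • θ)) = ρ ((m : ℝ)⁻¹ • θ) := funext fun z => rM _ z hs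
    have it : ∀ (s : ι → ℝ) (j : ℕ) (z : Y), (ρ s)^[j] z = ρ ((j : ℝ) • s) z := by
      intro s j
      induction j with
      | zero => intro z; simp [h.zero]
      | succ j ih =>
        intro z
        rw [Function.iterate_succ_apply, ih, Nat.cast_succ, add_smul, one_smul, h.add]
    rw [e1, it, smul_inv_smul₀ m0]
  refine ⟨A, fun y => ?_, fun τ τ' y => ?_, fun p => ?_, re⟩
  · have := re 0 y
    rwa [cx_zero, h.zero] at this
  · have hm := hN (‖τ‖ + ‖τ'‖)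
    have h1 : ‖τ‖ < N (‖τ‖ + ‖τ'‖) * r := by linarith [norm_nonneg τ']
    have h2 : ‖τ'‖ < N (‖τ‖ + ‖τ'‖) * r := by linarith [norm_nonneg τ]
    have c : Function.Commute (l _) (l _) := fun z =>
      congrFun ((la (small h1) (small h2)).symm.trans
        ((congrArg l (add_comm _ _)).trans (la (small h2) (small h1)))) z
    rw [eA _ _ ((norm_add_le _ _).trans_lt hm), eA _ _ h1, eA _ _ h2, smul_add,
      la (small h1) (small h2), c.comp_iterate]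
    rfl
  · have hm := hN ‖p.1‖
    generalize N ‖p.1‖ = m at hm
    have it : ∀ j : ℕ, MDifferentiableAt (𝓘(ℂ, ι → ℂ).prod 𝓘(ℂ, E d)) 𝓘(ℂ, E d)
        (fun z : (ι → ℂ) × Y => (l ((m : ℂ)⁻¹ • z.1))^[j] z.2) p := by
      intro j
      induction j with
      | zero => exact mdifferentiableAt_snd
      | succ j ih =>
        simp only [Function.iterate_succ_apply']
        exact (hM _ (up (small hm)) _).comp p
          (f := fun z : (ι → ℂ) × Y => ((m : ℂ)⁻¹ • z.1, (l ((m : ℂ)⁻¹ • z.1))^[j] z.2))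
          ((mdifferentiableAt_fst.const_smul _).prodMk ih)
    refine (it m).congr_of_eventuallyEq ?_
    have : ∀ᶠ z : (ι → ℂ) × Y in 𝓝 p, ‖z.1‖ < m * r :=
      (continuous_fst.norm.continuousAt).eventually (gt_mem_nhds hm)
    filter_upwards [this] with z hz
    rw [eA _ _ hz]

end Pool.Agent.Lib.GT40
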