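import Pool.Agent.Lib.GT40.B_SG1

/-! Project gt40: the cell at a vertex. -/

open scoped Manifold ContDiff Topology Matrix
open Set Filter Metric Complex Sum

set_option linter.unusedVariables false
set_option linter.unusedSectionVars false

noncomputable section

namespace Pool.Agent.Lib.GT40

namespace CEL61

variable {k q d : ℕ} {Y : Type} [TopologicalSpace Y] [T2Space Y] [ChartedSpace (E d) Y]
  [IsManifold 𝓘(ℂ, E d) ω Y] {s : Fr k q → V k q → Y} {κ : Fr k q → Y → V k q}
  {ρ : (Fin (k + q) → ℝ) → Y → Y} {A : (Fin (k + q) → ℂ) → Y → Y}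

/-- The scaling as a complex linear map. -/
def scC (t : Fin k ⊕ Fin q → ℂ) : V k q →L[ℂ] V k q :=
  LinearMap.toContinuousLinearMap
    { toFun := sc t
      map_add' := fun x y => by
        funext m l
        simp only [sc, Pi.add_apply]
        ring
      map_smul' := fun c x => by
        funext m l
        simp only [sc, Pi.smul_apply, smul_eq_mul, RingHom.id_apply]
        ring }

theorem scC_apply (t : Fin k ⊕ Fin q → ℂ) (x : V k q) : scC t x = sc t x := rfl

theorem fix (hID : St_ID) (h : Dat d s κ ρ) (hA : Act d ρ A) (o : Fr k q) (τ : Fin (k + q) → ℂ) :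
    A τ (s o 0) = s o 0 := by
  refine hID _ d Y univ (fun τ => A τ (s o 0)) (fun _ => s o 0) isOpen_univ convex_univ
    (mem_univ _) (fun t _ => ?_) (fun t _ => mdifferentiableAt_const) (fun θ _ => ?_) τ (mem_univ _)
  · exact MDifferentiableAt.comp (g := fun p : (Fin (k + q) → ℂ) × Y => A p.1 p.2)
      (f := fun t => (t, s o 0)) t (hA.hol _) (mdifferentiableAt_id.prodMk mdifferentiableAt_const)
  · show A (cx θ) (s o 0) = s o 0
    rw [hA.re, h.eqv, ← scC_apply, map_zero]

theorem holG (hA : Act d ρ A) (p : Y) {w : (Fin (k + q) → ℂ) × E d}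
    (hw : w.2 ∈ (chartAt (E d) p).target) :
    MDifferentiableAt 𝓘(ℂ, (Fin (k + q) → ℂ) × E d) 𝓘(ℂ, E d)
      (fun w : (Fin (k + q) → ℂ) × E d => A w.1 ((chartAt (E d) p).symm w.2)) w :=
  MDifferentiableAt.comp (g := fun p : (Fin (k + q) → ℂ) × Y => A p.1 p.2)
    (f := fun w : (Fin (k + q) → ℂ) × E d => (w.1, (chartAt (E d) p).symm w.2)) w (hA.hol _)
    ((mdifferentiableAt_iff_differentiableAt.2 differentiableAt_fst).prodMk
      ((hol_symm hw).comp w (mdifferentiableAt_iff_differentiableAt.2 differentiableAt_snd)))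

theorem evG (hA : Act d ρ A) {p : Y} (hp : ∀ τ, A τ p = p) (τ : Fin (k + q) → ℂ) :
    ∀ᶠ w in 𝓝 (τ, chartAt (E d) p p), DifferentiableAt ℂ (chartAt (E d) p ∘
      fun w : (Fin (k + q) → ℂ) × E d => A w.1 ((chartAt (E d) p).symm w.2)) w := by
  have hs := mem_chart_source (E d) p
  have hz := (chartAt (E d) p).map_source hs
  have h1 : ∀ᶠ w : (Fin (k + q) → ℂ) × E d in 𝓝 (τ, chartAt (E d) p p),
      w.2 ∈ (chartAt (E d) p).target :=
    continuous_snd.continuousAt.preimage_mem_nhds ((chartAt (E d) p).open_target.mem_nhds hz)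
  have h2 : ∀ᶠ w : (Fin (k + q) → ℂ) × E d in 𝓝 (τ, chartAt (E d) p p),
      A w.1 ((chartAt (E d) p).symm w.2) ∈ (chartAt (E d) p).source := by
    refine (holG hA p (w := (τ, chartAt (E d) p p)) hz).continuousAt.preimage_mem_nhds
      ((chartAt (E d) p).open_source.mem_nhds ?_)
    show A τ ((chartAt (E d) p).symm (chartAt (E d) p p)) ∈ _
    rw [(chartAt (E d) p).left_inv hs, hp]
    exact hs
  filter_upwards [h1, h2] with w a b
  exact hol_ch (holG hA p a) b

theorem part (hA : Act d ρ A) {p : Y} (hp : ∀ τ, A τ p = p) (τ : Fin (k + q) → ℂ) :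
    HasFDerivAt (chartAt (E d) p ∘ A τ ∘ (chartAt (E d) p).symm)
      ((fderiv ℂ (chartAt (E d) p ∘
        fun w : (Fin (k + q) → ℂ) × E d => A w.1 ((chartAt (E d) p).symm w.2))
        (τ, chartAt (E d) p p)).comp (ContinuousLinearMap.inr ℂ _ _)) (chartAt (E d) p p) :=
  HasFDerivAt.comp (f := fun z : E d => (τ, z)) _ (evG hA hp τ).self_of_nhds.hasFDerivAt
    (hasFDerivAt_prodMk_right τ _)

theorem holL (hA : Act d ρ A) {p : Y} (hp : ∀ τ, A τ p = p) (w : E d) :
    Differentiable ℂ fun τ : Fin (k + q) → ℂ =>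
      fderiv ℂ (chartAt (E d) p ∘ A τ ∘ (chartAt (E d) p).symm) (chartAt (E d) p p) w := by
  intro τ
  have h1 := ((SV.H85.contDiffAt_nat (evG hA hp τ) 2).fderiv_right (m := 1)
    (by norm_num)).differentiableAt one_ne_zero
  have h2 := DifferentiableAt.comp (f := fun t : Fin (k + q) → ℂ => (t, chartAt (E d) p p)) τ h1
    (by fun_prop)
  have h3 := h2.clm_apply (differentiableAt_const ((0 : Fin (k + q) → ℂ), w))
  refine h3.congr_of_eventuallyEq (Eventually.of_forall fun t => ?_)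
  show fderiv ℂ (chartAt (E d) p ∘ A t ∘ (chartAt (E d) p).symm) (chartAt (E d) p p) w = _
  rw [(part hA hp t).fderiv]
  rfl

theorem realL (h : Dat d s κ ρ) (hA : Act d ρ A) (o : Fr k q) (hp : ∀ τ, A τ (s o 0) = s o 0)
    (θ : Fin (k + q) → ℝ) (v : V k q) :
    fderiv ℂ (chartAt (E d) (s o 0) ∘ A (cx θ) ∘ (chartAt (E d) (s o 0)).symm)
      (chartAt (E d) (s o 0) (s o 0)) (Dv d (s o) 0 v) = Dv d (s o) 0 (sc (ex (cx θ) ∘ o) v) := by
  have hs := mem_chart_source (E d) (s o 0)
  have h3 : HasFDerivAt (chartAt (E d) (s o 0) ∘ s o) (Dv d (s o) 0) 0 :=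
    ((sm_ch (h.sm o 0) hs).differentiableAt (by simp)).hasFDerivAt
  have h2 := (part hA hp (cx θ)).differentiableAt.hasFDerivAt
  have h4 := ((h2.restrictScalars ℝ).comp (0 : V k q) h3).fderiv
  have h3' : HasFDerivAt (chartAt (E d) (s o 0) ∘ s o) (Dv d (s o) 0)
      ((scC (ex (cx θ) ∘ o)).restrictScalars ℝ 0) := by
    rw [map_zero]
    exact h3
  have h5 := (h3'.comp (0 : V k q) ((scC (ex (cx θ) ∘ o)).restrictScalars ℝ).hasFDerivAt).fderiv
  have h6 : ((chartAt (E d) (s o 0) ∘ A (cx θ) ∘ (chartAt (E d) (s o 0)).symm) ∘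
      (chartAt (E d) (s o 0) ∘ s o)) =ᶠ[𝓝 0]
      ((chartAt (E d) (s o 0) ∘ s o) ∘ (scC (ex (cx θ) ∘ o)).restrictScalars ℝ) := by
    filter_upwards [(h.sm o 0).continuousAt.preimage_mem_nhds
      ((chartAt (E d) (s o 0)).open_source.mem_nhds hs)] with y hy
    simp only [Function.comp_apply]
    rw [(chartAt (E d) (s o 0)).left_inv hy, hA.re, h.eqv]
    rfl
  rw [h6.fderiv_eq, h5] at h4
  exact (DFunLike.congr_fun h4 v).symm

theorem sc_quarter (o : Fr k q) (m : Fin k) (l : Fin q) (w : ℂ) :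
    sc (ex (cx (Pi.single (o (inr l)) (Real.pi / 2) : Fin (k + q) → ℝ)) ∘ o) (w • ax m l 1) =
      (I * w) • ax m l 1 := by
  funext m' l'
  by_cases hc : m' = m ∧ l' = l
  · obtain ⟨rfl, rfl⟩ := hc
    have e : o (inl m') ≠ o (inr l') := fun e => by simpa using o.injective e
    have e2 : exp (I * ((Real.pi / 2 : ℝ) : ℂ)) = I := by
      rw [mul_comm]
      push_cast
      exact exp_pi_div_two_mul_I
    simp only [sc, ex, cx, Function.comp_apply, Pi.single_eq_same, Pi.single_eq_of_ne e, e2,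
      Pi.smul_apply, smul_eq_mul]
    simp [mul_assoc]
  · simp [sc, ax, hc]

theorem cline (h : Dat d s κ ρ) (hA : Act d ρ A) (o : Fr k q) (hp : ∀ τ, A τ (s o 0) = s o 0)
    (m : Fin k) (l : Fin q) (hO : Ori d (s o) 0 (ax m l 1) 1) :
    Dv d (s o) 0 (I • ax m l 1) = I • Dv d (s o) 0 (ax m l 1) := by
  obtain ⟨a, b, hb, e⟩ := hO
  rw [one_mul] at hb
  have hb' : (b : ℂ) ≠ 0 := by exact_mod_cast hb.ne'
  have hne : Dv d (s o) 0 (ax m l 1) ≠ 0 := fun h0 => by
    have h1 := (SG1B.bij h o 0).1 (h0.trans (map_zero _).symm)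
    have h2 := congrFun (congrFun h1 m) l
    simp [ax] at h2
  have e1 : Dv d (s o) 0 (I • ax m l 1) = ((I - a) / b) • Dv d (s o) 0 (ax m l 1) := by
    rw [div_eq_inv_mul, mul_smul, sub_smul, e, ← Complex.coe_smul, ← Complex.coe_smul,
      add_sub_cancel_left, smul_smul, inv_mul_cancel₀ hb', one_smul]
  have r1 := realL h hA o hp (Pi.single (o (inr l)) (Real.pi / 2)) ((1 : ℂ) • ax m l 1)
  have r2 := realL h hA o hp (Pi.single (o (inr l)) (Real.pi / 2)) (I • ax m l 1)
  rw [sc_quarter, one_smul, mul_one, e1] at r1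
  rw [sc_quarter, e1, map_smul, r1, I_mul_I, neg_smul, one_smul, map_neg, smul_smul,
    ← neg_one_smul ℂ (Dv d (s o) 0 (ax m l 1))] at r2
  have c2 := smul_left_injective ℂ hne r2
  have c3 : ((I - a) / b - I) * ((I - a) / b + I) = 0 := by
    have : ((I - a) / b - I) * ((I - a) / b + I) = (I - a) / b * ((I - a) / b) - I * I := by ring
    rw [this, I_mul_I, c2]
    ring
  rcases mul_eq_zero.1 c3 with c4 | c4
  · rw [e1, sub_eq_zero.1 c4]
  · exfalso
    have c5 := congrArg Complex.im c4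
    simp only [add_im, div_ofReal_im, sub_im, I_im, ofReal_im, sub_zero, zero_im] at c5
    have : 0 < 1 / b := by positivity
    linarith

theorem expand (D : V k q →L[ℝ] E d) (hD : ∀ m l, D (I • ax m l 1) = I • D (ax m l 1))
    (v : V k q) : D v = ∑ m, ∑ l, v m l • D (ax m l 1) := by
  have e : v = ∑ m, ∑ l, ax m l (v m l) := by
    funext m' l'
    simp only [Finset.sum_apply, ax]
    rw [Finset.sum_eq_single m', Finset.sum_eq_single l']
    · simp
    · intro l _ hl
      simp [hl.symm]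
    · simp
    · intro m _ hm
      simp [hm.symm]
    · simp
  conv_lhs => rw [e]
  simp only [map_sum]
  refine Finset.sum_congr rfl fun m _ => Finset.sum_congr rfl fun l _ => ?_
  rw [SG1B.ax_eq, map_add, map_smul, map_smul, hD, ← Complex.coe_smul, ← Complex.coe_smul,
    smul_smul, ← add_smul, re_add_im]

end CEL61

open CEL61 in
theorem st_CEL61 (hID : St_ID) (hKOE : St_KOE) : St_CEL := by
  intro k q d Y _ _ _ _ s κ ρ A h hA o hO
  have hp := fix hID h hA o
  have hx := expand (Dv d (s o) 0) fun m l => cline h hA o hp m l (hO m l)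
  let DL : V k q →ₗ[ℂ] E d :=
    { toFun := Dv d (s o) 0
      map_add' := map_add _
      map_smul' := fun c v => by
        rw [hx (c • v), hx v]
        simp only [Finset.smul_sum, Pi.smul_apply, smul_eq_mul, RingHom.id_apply, smul_smul] }
  let D : V k q ≃L[ℂ] E d :=
    (LinearEquiv.ofBijective DL (SG1B.bij h o 0)).toContinuousLinearEquiv
  obtain ⟨τ₀, hτ₀⟩ := ex_onto (t := fun a : Fin (k + q) =>
    Sum.elim (fun _ => (1 : ℂ)) (fun _ => 1 / 2) (o.symm a)) fun a => by
      rcases o.symm a with m | l <;> simp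
  refine hKOE _ k q d Y ρ A (s o 0) D (fun τ => scC (ex τ ∘ o)) τ₀ hA hp (fun τ v => ?_) fun v => ?_
  · refine hID _ d (E d) univ (fun τ => fderiv ℂ (chartAt (E d) (s o 0) ∘ A τ ∘
        (chartAt (E d) (s o 0)).symm) (chartAt (E d) (s o 0) (s o 0)) (D v))
      (fun τ => D (sc (ex τ ∘ o) v)) isOpen_univ convex_univ (mem_univ _)
      (fun t _ => mdifferentiableAt_iff_differentiableAt.2 (holL hA hp _ t))
      (fun t _ => mdifferentiableAt_iff_differentiableAt.2 ?_)
      (fun θ _ => realL h hA o hp θ v) τ (mem_univ _)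
    refine D.differentiableAt.comp t ?_
    refine differentiableAt_pi.2 fun m => differentiableAt_pi.2 fun l => ?_
    simp only [sc, ex, Function.comp_apply]
    have a : ∀ c, DifferentiableAt ℂ (fun τ : Fin (k + q) → ℂ => exp (I * τ c)) t := fun c => by
      fun_prop
    simp only [div_eq_mul_inv]
    exact ((a _).fun_mul ((a (o (inl m))).fun_inv (exp_ne_zero _))).mul_const _
  · funext m l
    simp [scC_apply, sc, hτ₀]

end Pool.Agent.Lib.GT40
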