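import Pool.Agent.Lib.GT40.Blue

/-! Project gt40, row DAT: from the hypotheses of the theorem to the data. -/

open scoped Manifold ContDiff Topology Matrix
open Set Filter Metric Complex Sum

set_option linter.unusedVariables false
set_option linter.unusedSectionVars false

noncomputable section

namespace Pool.Agent.Lib.GT40

namespace DATB

theorem det_sm {W : Type} [NormedAddCommGroup W] [NormedSpace ℝ W] {n : Type} [Fintype n]
    [DecidableEq n] (A : W → Matrix n n ℂ) (h : ∀ a b, ContDiff ℝ ∞ fun w => A w a b) :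
    ContDiff ℝ ∞ fun w => (A w).det := by
  simp only [Matrix.det_apply, Units.smul_def, zsmul_eq_mul]
  exact ContDiff.sum fun σ _ => contDiff_const.mul (contDiff_prod fun i _ => h _ _)

theorem inv_sm {W : Type} [NormedAddCommGroup W] [NormedSpace ℝ W] {n : Type} [Fintype n]
    [DecidableEq n] (A : W → Matrix n n ℂ) (h : ∀ a b, ContDiff ℝ ∞ fun w => A w a b) (w : W)
    (hw : (A w).det ≠ 0) (a b : n) : ContDiffAt ℝ ∞ (fun w => (A w)⁻¹ a b) w := by
  simp only [Matrix.inv_def, Ring.inverse_eq_inv', Matrix.smul_apply, smul_eq_mul,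
    Matrix.adjugate_apply]
  refine ((det_sm A h).contDiffAt.inv hw).mul (det_sm _ fun c e => ?_).contDiffAt
  simp only [Matrix.updateRow_apply]
  split_ifs
  · exact contDiff_const
  · exact h _ _

theorem kp_sm {k q : ℕ} (o : Fr k q) (P : Fin (k + q) → Fin (k + q) → ℂ)
    (hP : ((Matrix.of P).submatrix (o ∘ inl) (o ∘ inl)).det ≠ 0) : ContDiffAt ℝ ∞ (kp o) P := by
  have he : ∀ a b, ContDiff ℝ ∞ fun P : Fin (k + q) → Fin (k + q) → ℂ => P a b := fun a b =>
    contDiff_apply_apply ℝ ℂ a b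
  refine contDiffAt_pi.2 fun m => contDiffAt_pi.2 fun l => ?_
  simp only [kp, Matrix.mul_apply]
  refine ContDiffAt.sum fun r _ => (he _ _).contDiffAt.mul ?_
  exact inv_sm (fun P : Fin (k + q) → Fin (k + q) → ℂ =>
    (Matrix.of P).submatrix (o ∘ inl) (o ∘ inl)) (fun a b => he _ _) P hP r m

theorem mt_sm {k q : ℕ} (o : Fr k q) : ContDiff ℝ ∞ (Mt o) := by
  refine contDiff_pi.2 fun a => contDiff_pi.2 fun m => ?_
  simp only [Mt]
  rcases o.symm a with m' | l
  · exact contDiff_const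
  · exact contDiff_apply_apply ℝ ℂ m l

end DATB

open DATB in
theorem st_DAT (hPJ : St_PJ) (hMOD : St_MOD) : St_DAT := by
  intro k q d Y _ _ _ σ Φ hG hD hT
  obtain ⟨-, h2, h3, -, -⟩ := hPJ k q
  obtain ⟨hM, hpm, heq⟩ := hMOD k q σ hG
  obtain ⟨⟨F, hF, hF'⟩, hS⟩ := hD
  choose ρ hρ hρ' using hT
  refine ⟨ρ, fun o => ?_, fun o x => ?_, fun o x => ?_, fun o => ?_, fun y => ?_,
    fun θ o x => hρ' θ _ _ (heq θ o x), hρ, fun o i j x hx => congrArg Φ (hM.tr o i j x hx),
    fun o g h x => congrArg Φ (hpm o g h x), fun o i j h => ?_⟩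
  · have : (fun x => Φ (σ o x)) = F ∘ Mt o :=
      funext fun x => (hF' _ _ (h2 o x).1 (hG.sp o x)).symm
    rw [this]
    exact hF.comp_contMDiff (mt_sm o).contMDiff fun x => (h2 o x).1
  · rw [Φ.symm_apply_apply]
    exact (congrArg (kp o) (hG.val o x)).trans (h2 o x).2
  · refine ContMDiffAt.comp (g := kp o) (f := fun y => (Φ.symm y).1) _ ?_ (hS _)
    rw [Φ.symm_apply_apply]
    exact (kp_sm o _ ((h3 o _).2 ⟨x, hG.sp o x⟩)).contMDiffAt
  · have : range (fun x => Φ (σ o x)) = Φ '' range (σ o) := range_comp Φ (σ o)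
    rw [this]
    exact Φ.isOpenMap _ (hM.emb o).isOpen_range
  · obtain ⟨o, x, hx⟩ := hM.cov (Φ.symm y)
    exact ⟨o, x, by simp only [hx, Φ.apply_symm_apply]⟩
  · exact hM.mem o i j 0 ⟨0, Φ.injective h⟩ rfl

end Pool.Agent.Lib.GT40
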