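import Pool.Agent.Lib.GT40.Blue

/-! Project gt40: the real action and the conjugate data. -/

open scoped Manifold ContDiff Topology Matrix
open Set Filter Metric Complex Sum

set_option linter.unusedVariables false

noncomputable section

namespace Pool.Agent.Lib.GT40

namespace DJB

variable {k q : ℕ}

/-- Conjugation. -/
def cj (k q : ℕ) : V k q →L[ℝ] V k q := (starL' ℝ : V k q ≃L[ℝ] V k q)

theorem cj_ap (x : V k q) : cj k q x = star x := rfl

theorem sm_star : ContMDiff 𝓘(ℝ, V k q) 𝓘(ℝ, V k q) ∞ (star : V k q → V k q) :=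
  (cj k q).contDiff.contMDiff

theorem sc_zero (o : Fr k q) (x : V k q) : sc (ex (cx 0) ∘ o) x = x := by
  funext m l
  simp [sc, ex, cx]

theorem sc_add (o : Fr k q) (θ θ' : Fin (k + q) → ℝ) (x : V k q) :
    sc (ex (cx (θ + θ')) ∘ o) x = sc (ex (cx θ) ∘ o) (sc (ex (cx θ') ∘ o) x) := by
  funext m l
  simp only [sc, ex, cx, Function.comp, Pi.add_apply, ofReal_add, mul_add, exp_add]
  field_simp

theorem sc_star (o : Fr k q) (θ : Fin (k + q) → ℝ) (x : V k q) :
    sc (ex (cx (-θ)) ∘ o) (star x) = star (sc (ex (cx θ) ∘ o) x) := by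
  funext m l
  simp [sc, ex, cx, ← exp_conj]

theorem tr_star (i : Fin k) (j : Fin q) (x : V k q) : star (tr i j x) = tr i j (star x) := by
  funext m l
  simp only [tr, Pi.star_apply]
  split_ifs <;> simp

theorem ax_star (m : Fin k) (l : Fin q) : star (ax m l 1) = ax m l 1 := by
  funext a b
  simp only [ax, Pi.star_apply]
  split_ifs <;> simp

theorem sm_sc (o : Fr k q) :
    ContDiff ℝ ∞ fun p : (Fin (k + q) → ℝ) × V k q => sc (ex (cx p.1) ∘ o) p.2 := by
  refine contDiff_pi.2 fun m => contDiff_pi.2 fun l => ?_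
  have h : ∀ a, ContDiff ℝ ∞ fun p : (Fin (k + q) → ℝ) × V k q => exp (I * (p.1 a : ℂ)) := fun a =>
    (contDiff_const.mul (ofRealCLM.contDiff.comp (by fun_prop))).cexp
  simp only [sc, ex, cx, Function.comp, div_eq_mul_inv]
  exact ((h _).mul ((h _).inv fun _ => exp_ne_zero _)).mul (by fun_prop)

end DJB

open DJB in
theorem st_DJ : St_DJ := by
  intro k q d Y _ _ _ s κ ρ h
  refine ⟨⟨fun y => ?_, fun θ θ' y => ?_, h.hol, fun p => ?_⟩, ⟨fun o => (h.sm o).comp sm_star,
    fun o x => by rw [h.inv, star_star], fun o x => (sm_star _).comp _ (h.smi o _), fun o => ?_,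
    fun y => ?_, fun θ o x => by rw [h.eqv, sc_star], fun θ => h.hol _, fun o i j x hx => ?_,
    fun o g g' x => h.pm o g g' (star x), fun o i j => by simpa only [star_zero] using h.ne o i j⟩,
    fun o m l ⟨a, b, hb, e⟩ => ⟨a, -b, by linarith, ?_⟩⟩
  · obtain ⟨o, x, rfl⟩ := h.cov y
    rw [h.eqv, sc_zero]
  · obtain ⟨o, x, rfl⟩ := h.cov y
    rw [h.eqv, h.eqv, h.eqv, sc_add]
  · obtain ⟨θ, y⟩ := p
    obtain ⟨o, x, rfl⟩ := h.cov y
    have a1 : ContMDiffAt (𝓘(ℝ, Fin (k + q) → ℝ).prod 𝓘(ℝ, E d)) 𝓘(ℝ, V k q) ∞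
        (κ o ∘ Prod.snd) (θ, s o x) := ContMDiffAt.comp (θ, s o x) (h.smi o x) contMDiffAt_snd
    have a2 := (contMDiffAt_fst (I := 𝓘(ℝ, Fin (k + q) → ℝ)) (J := 𝓘(ℝ, E d)) (n := ∞)
      (p := (θ, s o x))).prodMk_space a1
    have a3 := ContMDiffAt.comp (θ, s o x) ((sm_sc o).contMDiff _) a2
    have a := ContMDiffAt.comp (θ, s o x) (h.sm o _) a3
    refine a.congr_of_eventuallyEq ?_
    filter_upwards [continuous_snd.continuousAt.eventually
      ((h.op o).mem_nhds (mem_range_self (f := s o) x))] with p ⟨z, hz⟩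
    simp only [Function.comp, ← hz, h.eqv, h.inv]
  · exact (star_involutive.surjective.range_comp (s o)).symm ▸ h.op o
  · obtain ⟨o, x, rfl⟩ := h.cov y
    exact ⟨o, star x, by simp only [star_star]⟩
  · rw [tr_star]
    exact h.tr o i j _ (by simpa using hx)
  · have e0 : s o (star 0) = s o 0 := by rw [star_zero]
    have dd : DifferentiableAt ℝ (chartAt (E d) (s o 0) ∘ s o) (cj k q 0) := by
      rw [map_zero]
      exact (sm_ch (h.sm o 0) (mem_chart_source _ _)).differentiableAt (by simp)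
    have e1 : Dv d (fun x => s o (star x)) 0 = (Dv d (s o) 0).comp (cj k q) := by
      have := (dd.hasFDerivAt.comp 0 (cj k q).hasFDerivAt).fderiv
      rw [map_zero] at this
      unfold Dv
      beta_reduce
      rw [e0]
      exact this
    rw [e1, ContinuousLinearMap.comp_apply, ContinuousLinearMap.comp_apply, cj_ap, cj_ap, star_smul,
      ax_star, e, star_def, conj_I, neg_smul, neg_smul, map_neg, smul_neg, neg_neg]

end Pool.Agent.Lib.GT40
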