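import Pool.Agent.Lib.GT40.Blue

/-! Project gt40, row EDG: the axis of a cell meets the neighbouring cell. -/

open scoped Manifold ContDiff Topology Matrix
open Set Filter Metric Complex Sum

set_option linter.unusedVariables false
set_option linter.unusedSectionVars false

noncomputable section

namespace Pool.Agent.Lib.GT40

namespace EDGB

theorem core {F : Type} [NormedAddCommGroup F] [NormedSpace ℂ F] [NormedSpace ℝ F]
    [IsScalarTower ℝ ℂ F] (γ : ℂ → F) (u : ℂ → ℂ) (H : ℂ → F) (L : F → ℂ) (u0 : ℂ)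
    (hγ : DifferentiableAt ℂ γ 0) (hH : DifferentiableAt ℝ H u0) (hL : DifferentiableAt ℝ L (γ 0))
    (h1 : u =ᶠ[𝓝 0] L ∘ γ) (h2 : γ =ᶠ[𝓝 0] H ∘ u) (h3 : ∀ t : ℝ, u t = exp (I * t) * u0)
    (h4 : ∀ t, normSq u0 ≤ normSq (u t)) : u0 = 0 := by
  by_contra hne
  have hu0 : u 0 = u0 := by simpa using h3 0
  have hγ' : HasFDerivAt γ ((fderiv ℂ γ 0).restrictScalars ℝ) 0 :=
    hγ.hasFDerivAt.restrictScalars ℝ
  set G := (fderiv ℂ γ 0).restrictScalars ℝ with hG
  have hu : HasFDerivAt u ((fderiv ℝ L (γ 0)).comp G) 0 :=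
    (hL.hasFDerivAt.comp 0 hγ').congr_of_eventuallyEq h1
  set U := (fderiv ℝ L (γ 0)).comp G with hU
  have hGU : G = (fderiv ℝ H u0).comp U := by
    refine hγ'.unique (HasFDerivAt.congr_of_eventuallyEq ?_ h2)
    exact HasFDerivAt.comp 0 (by rw [hu0]; exact hH.hasFDerivAt) hu
  have hU1 : U 1 = I * u0 := by
    have a1 : HasDerivAt (fun t : ℝ => u t) (U 1) 0 := by
      have := HasFDerivAt.comp_hasDerivAt (l := u) (f := fun t : ℝ => (t : ℂ)) (0 : ℝ)
        (by simpa using hu) (Complex.ofRealCLM.hasDerivAt (x := 0))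
      exact this
    have a2 : HasDerivAt (fun t : ℝ => exp (I * t) * u0) (I * u0) 0 := by
      have : HasDerivAt (fun t : ℂ => exp (I * t) * u0) (I * u0) ((0 : ℝ) : ℂ) := by
        simpa using (((hasDerivAt_id ((0 : ℝ) : ℂ)).const_mul I).cexp).mul_const u0
      exact this.comp_ofReal
    exact a1.unique (by simpa only [h3] using a2)
  have hre : u0.re * (U I).re + u0.im * (U I).im = 0 := by
    have b1 : HasFDerivAt (fun t => (u t).re) (reCLM.comp U) 0 := reCLM.hasFDerivAt.comp 0 hu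
    have b2 : HasFDerivAt (fun t => (u t).im) (imCLM.comp U) 0 := imCLM.hasFDerivAt.comp 0 hu
    have b3 := (b1.mul b1).add (b2.mul b2)
    have hmin : IsLocalMin (fun t => (u t).re * (u t).re + (u t).im * (u t).im) 0 :=
      Eventually.of_forall fun t => by
        have := h4 t
        simpa only [normSq_apply, hu0] using this
    have := congrArg (fun T : ℂ →L[ℝ] ℝ => T I) (hmin.hasFDerivAt_eq_zero b3)
    simp [hu0] at this
    linarith
  obtain ⟨r, hr⟩ : ∃ r : ℝ, U I = r • U 1 := by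
    have hn : u0.re * u0.re + u0.im * u0.im ≠ 0 := by
      have := normSq_eq_zero.not.2 hne
      rwa [normSq_apply] at this
    refine ⟨(u0.re * (U I).im - u0.im * (U I).re) / (u0.re * u0.re + u0.im * u0.im), ?_⟩
    rw [hU1]
    apply Complex.ext <;> simp only [smul_re, smul_im, smul_eq_mul, mul_re, mul_im, I_re, I_im] <;>
      rw [div_mul_eq_mul_div, eq_div_iff hn]
    · linear_combination u0.re * hre
    · linear_combination u0.im * hre
  have hG1 : G 1 = 0 := by
    have c1 : G I = r • G 1 := by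
      rw [hGU]
      simp only [ContinuousLinearMap.comp_apply, hr, map_smul]
    have c2 : G I = I • G 1 := by
      simp only [hG, ContinuousLinearMap.coe_restrictScalars']
      rw [← map_smul, smul_eq_mul, mul_one]
    have c3 : (I - (r : ℂ)) • G 1 = 0 := by
      rw [sub_smul, ← c2, c1, ← Complex.coe_algebraMap, algebraMap_smul, sub_self]
    refine (smul_eq_zero.1 c3).resolve_left fun h => ?_
    simpa using congrArg Complex.im h
  rw [hU, ContinuousLinearMap.comp_apply, hG1, map_zero] at hU1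
  exact hne ((mul_eq_zero.1 hU1.symm).resolve_left I_ne_zero)

variable {k q : ℕ}

theorem ax_zero (i : Fin k) (j : Fin q) : ax i j 0 = 0 := by
  funext m l
  simp [ax]

theorem ax_self (i : Fin k) (j : Fin q) (w : ℂ) : ax i j w i j = w := by simp [ax]

theorem sc_ax (t : Fin k ⊕ Fin q → ℂ) (i : Fin k) (j : Fin q) (w : ℂ) :
    sc t (ax i j w) = ax i j (t (inr j) / t (inl i) * w) := by
  funext m l
  simp only [sc, ax]
  split_ifs with h
  · rw [h.1, h.2]
  · exact mul_zero _

theorem tr_ax (i : Fin k) (j : Fin q) (w : ℂ) : tr i j (ax i j w) = ax i j w⁻¹ := by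
  funext m l
  by_cases hm : m = i <;> by_cases hl : l = j <;> simp [tr, ax, hm, hl]

theorem ax_sm (i : Fin k) (j : Fin q) : ContDiff ℝ ∞ (ax i j) := by
  refine contDiff_pi.2 fun m => contDiff_pi.2 fun l => ?_
  simp only [ax]
  split_ifs
  · exact contDiff_id
  · exact contDiff_const

theorem ex_pi {ι : Type} [DecidableEq ι] (c a : ι) :
    ex (cx (Pi.single c Real.pi)) a = if a = c then -1 else 1 := by
  by_cases h : a = c
  · simp [ex, cx, h, mul_comm I, exp_pi_mul_I]
  · simp [ex, cx, h]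

theorem fix_iff {Y : Type} (ρ : (Fin (k + q) → ℝ) → Y → Y) (o : Fr k q) (i : Fin k) (j : Fin q)
    (f : V k q → Y) (hf : Function.Injective f)
    (he : ∀ θ x, ρ θ (f x) = f (sc (ex (cx θ) ∘ o) x)) (x : V k q) :
    (∀ θ, θ (o (inl i)) = θ (o (inr j)) → ρ θ (f x) = f x) ↔ ∃ w, x = ax i j w := by
  constructor
  · intro h
    refine ⟨x i j, funext fun m => funext fun l => ?_⟩
    simp only [ax]
    split_ifs with hc
    · rw [hc.1, hc.2]
    · rcases not_and_or.1 hc with hm | hl
      · have := congrFun (congrFun (hf ((he _ x).symm.trans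
          (h (Pi.single (o (inl m)) Real.pi) (by simp [Ne.symm hm])))) m) l
        simp [sc, ex_pi] at this
        linear_combination (-1 / 2) * this
      · have := congrFun (congrFun (hf ((he _ x).symm.trans
          (h (Pi.single (o (inr l)) Real.pi) (by simp [Ne.symm hl])))) m) l
        simp [sc, ex_pi] at this
        linear_combination (-1 / 2) * this
  · rintro ⟨w, rfl⟩ θ hθ
    rw [he, sc_ax]
    simp only [Function.comp, ex, cx, hθ]
    rw [div_self (exp_ne_zero _), one_mul]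

theorem sw_l (o : Fr k q) (i : Fin k) (j : Fin q) : sw o i j (inl i) = o (inr j) := by simp [sw]

theorem sw_r (o : Fr k q) (i : Fin k) (j : Fin q) : sw o i j (inr j) = o (inl i) := by simp [sw]

end EDGB

open EDGB in
theorem st_EDG : St_EDG := by
  intro k q d Y _ _ _ _ s κ ρ A o i j ψ ψ' η η' hD hA hψ hψ'
  set o' := sw o i j with ho'
  set Fix : Set Y := {y | ∀ θ, θ (o (inl i)) = θ (o (inr j)) → ρ θ y = y} with hFix
  have hsw : ∀ y, (∀ θ, θ (o' (inl i)) = θ (o' (inr j)) → ρ θ y = y) ↔ y ∈ Fix := fun y => by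
    rw [ho', sw_l, sw_r]
    exact ⟨fun h θ hθ => h θ hθ.symm, fun h θ hθ => h θ hθ.symm⟩
  have f1 : ∀ x, s o x ∈ Fix ↔ ∃ w, x = ax i j w :=
    fix_iff ρ o i j (s o) (Function.LeftInverse.injective (hD.inv o)) fun θ x => hD.eqv θ o x
  have f2 : ∀ x, s o' x ∈ Fix ↔ ∃ w, x = ax i j w := fun x => (hsw _).symm.trans
    (fix_iff ρ o' i j (s o') (Function.LeftInverse.injective (hD.inv o'))
      (fun θ x => hD.eqv θ o' x) x)
  have f3 : ∀ x, ψ x ∈ Fix ↔ ∃ w, x = ax i j w :=
    fix_iff ρ o i j ψ (Function.LeftInverse.injective hψ.inv) fun θ x => by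
      rw [← hA.re, hψ.eqv]
  have f4 : ∀ x, ψ' x ∈ Fix ↔ ∃ w, x = ax i j w := fun x => (hsw _).symm.trans
    (fix_iff ρ o' i j ψ' (Function.LeftInverse.injective hψ'.inv)
      (fun θ x => by rw [← hA.re, hψ'.eqv]) x)
  have htr : ∀ w, w ≠ 0 → s o' (ax i j w⁻¹) = s o (ax i j w) := fun w hw => by
    rw [← tr_ax]
    exact hD.tr o i j _ (by rwa [ax_self])
  have hc : ∀ o, Continuous fun w => s o (ax i j w) := fun o =>
    (hD.sm o).continuous.comp (ax_sm i j).continuous
  set K : Set Y := (fun w => s o (ax i j w)) '' closedBall 0 1 ∪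
    (fun w => s o' (ax i j w)) '' closedBall 0 1 with hK
  have hKc : IsCompact K :=
    ((isCompact_closedBall 0 1).image (hc o)).union ((isCompact_closedBall 0 1).image (hc o'))
  have hKp : IsPreconnected K := by
    refine IsPreconnected.union (s o (ax i j 1)) ⟨1, by simp, rfl⟩ ⟨1, by simp, ?_⟩
      ((convex_closedBall 0 1).isPreconnected.image _ (hc o).continuousOn)
      ((convex_closedBall 0 1).isPreconnected.image _ (hc o').continuousOn)
    simpa using htr 1 one_ne_zero
  have hKe : ∀ y, y ∈ K ↔ y ∈ Fix ∧ y ∈ range (s o) ∪ range (s o') := fun y => by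
    constructor
    · rintro (⟨w, -, rfl⟩ | ⟨w, -, rfl⟩)
      · exact ⟨(f1 _).2 ⟨w, rfl⟩, Or.inl ⟨_, rfl⟩⟩
      · exact ⟨(f2 _).2 ⟨w, rfl⟩, Or.inr ⟨_, rfl⟩⟩
    · have hi : ∀ w : ℂ, ¬‖w‖ ≤ 1 → w ≠ 0 ∧ w⁻¹ ∈ closedBall (0 : ℂ) 1 := fun w hw => by
        refine ⟨fun h => hw (by simp [h]), ?_⟩
        rw [mem_closedBall_zero_iff, norm_inv]
        exact inv_le_one_of_one_le₀ (not_le.1 hw).le
      rintro ⟨hy, ⟨x, rfl⟩ | ⟨x, rfl⟩⟩
      · obtain ⟨w, rfl⟩ := (f1 x).1 hy
        by_cases hw : ‖w‖ ≤ 1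
        · exact Or.inl ⟨w, mem_closedBall_zero_iff.2 hw, rfl⟩
        · exact Or.inr ⟨w⁻¹, (hi w hw).2, htr w (hi w hw).1⟩
      · obtain ⟨w, rfl⟩ := (f2 x).1 hy
        by_cases hw : ‖w‖ ≤ 1
        · exact Or.inr ⟨w, mem_closedBall_zero_iff.2 hw, rfl⟩
        · refine Or.inl ⟨w⁻¹, (hi w hw).2, ?_⟩
          have := htr w⁻¹ (inv_ne_zero (hi w hw).1)
          rw [inv_inv] at this
          exact this.symm
  have hAc : ∀ y, Continuous fun τ => A τ y := fun y =>
    hA.hol.continuous.comp (continuous_id.prodMk continuous_const)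
  have hAK : ∀ y ∈ K, ∀ τ, A τ y ∈ K := fun y hy => by
    have hF : ∀ τ, A τ y ∈ Fix := fun τ θ hθ => by
      rw [← hA.re, ← hA.add, add_comm, hA.add, hA.re, ((hKe y).1 hy).1 θ hθ]
    have hcl : IsClopen ((fun τ => A τ y) ⁻¹' K) := by
      refine ⟨hKc.isClosed.preimage (hAc y), ?_⟩
      have : (fun τ => A τ y) ⁻¹' K = (fun τ => A τ y) ⁻¹' (range (s o) ∪ range (s o')) :=
        Set.ext fun τ => (hKe _).trans (and_iff_right (hF τ))
      rw [this]
      exact ((hD.op o).union (hD.op o')).preimage (hAc y)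
    intro τ
    have := hcl.eq_univ ⟨0, by simpa only [mem_preimage, hA.zero] using hy⟩
    exact (this ▸ mem_univ τ : τ ∈ (fun τ => A τ y) ⁻¹' K)
  have hback : ∀ τ y, A (-τ) (A τ y) = y := fun τ y => by rw [← hA.add, neg_add_cancel, hA.zero]
  by_cases hcov : K ⊆ range ψ ∪ range ψ'
  · obtain ⟨y, hy, ⟨x, hx⟩, x', hx'⟩ := hKp _ _ hψ.op hψ'.op hcov
      ⟨s o 0, Or.inl ⟨0, by simp, by simp only [ax_zero]⟩, 0, hψ.zero⟩
      ⟨s o' 0, Or.inr ⟨0, by simp, by simp only [ax_zero]⟩, 0, hψ'.zero⟩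
    have hyF := ((hKe y).1 hy).1
    obtain ⟨w, rfl⟩ := (f3 x).1 (hx ▸ hyF)
    obtain ⟨w', rfl⟩ := (f4 x').1 (hx' ▸ hyF)
    have hw : w ≠ 0 := by
      rintro rfl
      have e1 := hψ.eqv (cx (Pi.single (o' (inl i)) Real.pi)) (ax i j 0)
      have e2 := hψ'.eqv (cx (Pi.single (o' (inl i)) Real.pi)) (ax i j w')
      simp only [sc_ax, mul_zero] at e1 e2
      rw [hx] at e1
      rw [hx', e1, ← hx'] at e2
      have e3 := congrFun (congrFun (Function.LeftInverse.injective hψ'.inv e2) i) j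
      simp [ax_self, ex_pi] at e3
      have e4 : w' = 0 := by linear_combination (1 / 2) * e3
      rw [e4, ax_zero, hψ'.zero] at hx'
      rw [ax_zero, hψ.zero] at hx
      exact hD.ne o i j (hx'.trans hx.symm)
    obtain ⟨τ, hτ⟩ := ex_onto (t := Function.update 1 (o (inr j)) w⁻¹) fun a => by
      by_cases h : a = o (inr j) <;> simp [h, hw]
    have e1 := hψ.eqv τ (ax i j w)
    rw [sc_ax, hτ] at e1
    simp [hw] at e1
    rw [← e1, hx, ← hx', hψ'.eqv]
    exact ⟨_, rfl⟩
  · exfalso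
    set B := K \ (range ψ ∪ range ψ') with hB
    have hBc : IsCompact B := hKc.diff (hψ.op.union hψ'.op)
    have hBn : B.Nonempty := by
      obtain ⟨y, hy, hy'⟩ := not_subset.1 hcov
      exact ⟨y, hy, hy'⟩
    have hBA : ∀ y ∈ B, ∀ τ, A τ y ∈ B := fun y hy τ => by
      refine ⟨hAK y hy.1 τ, fun h => hy.2 ?_⟩
      rw [← hback τ y]
      rcases h with ⟨x, hx⟩ | ⟨x, hx⟩
      · exact Or.inl ⟨_, by rw [← hx, hψ.eqv]⟩
      · exact Or.inr ⟨_, by rw [← hx, hψ'.eqv]⟩
    have hBs : ∀ y ∈ B, y = s o (ax i j (κ o y i j)) := by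
      rintro y ⟨⟨w, -, rfl⟩ | ⟨w, -, rfl⟩, hy⟩
      · simp only [hD.inv, ax_self]
      · have hw : w ≠ 0 := by
          rintro rfl
          exact hy (Or.inr ⟨0, by simp only [hψ'.zero, ax_zero]⟩)
        have := htr w⁻¹ (inv_ne_zero hw)
        rw [inv_inv] at this
        simp only [this, hD.inv, ax_self]
    obtain ⟨y0, hy0, hmin⟩ := hBc.exists_isMinOn hBn (f := fun y => normSq (κ o y i j))
      fun y hy => by
        have h1 : ContinuousAt (κ o) y := by
          rw [hBs y hy]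
          exact (hD.smi o _).continuousAt
        exact (continuous_normSq.continuousAt.comp ((continuous_apply_apply i j).continuousAt.comp
          h1)).continuousWithinAt
    set u0 := κ o y0 i j with hu0
    have hy0s : y0 = s o (ax i j u0) := hBs y0 hy0
    set e := chartAt (E d) y0 with he
    set ξ : ℂ → Fin (k + q) → ℂ := fun t => Pi.single (o (inr j)) t with hξ
    have hξ0 : ξ 0 = 0 := Pi.single_zero _
    have hξd : Differentiable ℂ ξ := differentiable_pi.2 fun a => by
      by_cases h : a = o (inr j)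
      · simp [hξ, h]
      · simp [hξ, h]
    have hm : MDifferentiable 𝓘(ℂ, ℂ) 𝓘(ℂ, E d) fun t => A (ξ t) y0 :=
      hA.hol.comp (hξd.mdifferentiable.prodMk mdifferentiable_const)
    have h00 : A (ξ 0) y0 = y0 := by rw [hξ0, hA.zero]
    have hsrc : ∀ᶠ t in 𝓝 (0 : ℂ), A (ξ t) y0 ∈ e.source :=
      hm.continuous.continuousAt.preimage_mem_nhds (by
        rw [h00]
        exact e.open_source.mem_nhds (mem_chart_source _ _))
    have hz : u0 = 0 := by
      refine core (e ∘ fun t => A (ξ t) y0) (fun t => κ o (A (ξ t) y0) i j)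
        (e ∘ fun w => s o (ax i j w)) (fun z => κ o (e.symm z) i j) u0
        (hol_ch (hm 0) (by rw [h00]; exact mem_chart_source _ _)) ?_ ?_ ?_ ?_ (fun t => ?_)
        fun t => hmin (hBA y0 hy0 _)
      · refine (sm_ch ((hD.sm o).comp (ax_sm i j).contMDiff u0) ?_).differentiableAt (by simp)
        show s o (ax i j u0) ∈ _
        rw [← hy0s]
        exact mem_chart_source _ _
      · simp only [Function.comp, h00]
        have h1 : ContMDiffAt 𝓘(ℝ, E d) 𝓘(ℝ, V k q) ∞ (κ o ∘ e.symm) (e y0) := by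
          refine ContMDiffAt.comp _ ?_ (sm_symm (mem_chart_target _ _))
          rw [e.left_inv (mem_chart_source _ _), hy0s]
          exact hD.smi o _
        exact (((contDiff_apply_apply ℝ ℂ i j).contDiffAt.comp _
          (contMDiffAt_iff_contDiffAt.1 h1))).differentiableAt (by simp)
      · filter_upwards [hsrc] with t ht
        simp only [Function.comp, e.left_inv ht]
      · refine Eventually.of_forall fun t => ?_
        simp only [Function.comp]
        rw [← hBs _ (hBA y0 hy0 _)]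
      · have h1 : ξ t = cx (Pi.single (o (inr j)) t) := funext fun a => by
          by_cases h : a = o (inr j) <;> simp [hξ, cx, h]
        rw [h1, hA.re, hy0s, hD.eqv, hD.inv, sc_ax, ax_self]
        simp [ex, cx]
    rw [hz, ax_zero, ← hψ.zero] at hy0s
    exact hy0.2 (Or.inl ⟨0, hy0s.symm⟩)

end Pool.Agent.Lib.GT40
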