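import Pool.Agent.Lib.GT40.Blue

/-! Project gt40: from the glued map to the conclusion. -/

open scoped Manifold ContDiff Topology Matrix
open Set Filter Metric Complex Sum

set_option linter.unusedVariables false

noncomputable section

namespace Pool.Agent.Lib.GT40

namespace FINB

variable {k q : ℕ}

theorem diff_det {W : Type} [NormedAddCommGroup W] [NormedSpace ℂ W] {f : W → Matrix (Fin k) (Fin k) ℂ}
    {w : W} (h : ∀ a b, DifferentiableAt ℂ (fun z => f z a b) w) :
    DifferentiableAt ℂ (fun z => (f z).det) w := by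
  simp only [Matrix.det_apply']
  refine DifferentiableAt.fun_sum fun s _ => DifferentiableAt.const_mul ?_ _
  exact (HasFDerivAt.finsetProd (g := fun a z => f z (s a) a)
    fun a _ => (h (s a) a).hasFDerivAt).differentiableAt

theorem diff_inv {W : Type} [NormedAddCommGroup W] [NormedSpace ℂ W] {f : W → Matrix (Fin k) (Fin k) ℂ}
    {w : W} (h : ∀ a b, DifferentiableAt ℂ (fun z => f z a b) w) (h0 : (f w).det ≠ 0) (a b : Fin k) :
    DifferentiableAt ℂ (fun z => (f z)⁻¹ a b) w := by
  simp only [Matrix.inv_def, Ring.inverse_eq_inv', Matrix.smul_apply, smul_eq_mul,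
    Matrix.adjugate_apply]
  refine ((diff_det h).inv h0).mul (diff_det fun a' b' => ?_)
  simp only [Matrix.updateRow_apply]
  split_ifs
  · exact differentiableAt_const _
  · exact h _ _

/-- The rows of the frame. -/
def rK (o : Fr k q) (A : Fin (k + q) → Fin k → ℂ) : Matrix (Fin k) (Fin k) ℂ :=
  (Matrix.of A).submatrix (o ∘ inl) id

/-- The coordinates of a basis. -/
def co (o : Fr k q) (A : Fin (k + q) → Fin k → ℂ) : V k q := fun m l =>
  ((Matrix.of A).submatrix (o ∘ inr) id * (rK o A)⁻¹) l m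

theorem rK_mul (o : Fr k q) (x : V k q) (g : Matrix (Fin k) (Fin k) ℂ) :
    (Matrix.of (Mt o x) * g).submatrix (o ∘ inl) id = g := by
  ext a b
  simp [Matrix.mul_apply, Mt]

theorem mt_co (o : Fr k q) {A : Fin (k + q) → Fin k → ℂ} (h : (rK o A).det ≠ 0) :
    Matrix.of (Mt o (co o A)) * rK o A = Matrix.of A := by
  have hu : IsUnit (rK o A).det := h.isUnit
  ext a b
  obtain ⟨c, rfl⟩ := o.surjective a
  rcases c with m | l
  · simp [Matrix.mul_apply, Mt, rK]
  · have e := congrFun (congrFun (Matrix.nonsing_inv_mul_cancel_right (rK o A)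
      ((Matrix.of A).submatrix (o ∘ inr) id) hu) l) b
    rw [Matrix.mul_apply] at e
    simpa [Matrix.mul_apply, Mt, co] using e

theorem full_of (o : Fr k q) {A : Fin (k + q) → Fin k → ℂ} (h : (rK o A).det ≠ 0) : Full A := by
  intro v v' e
  have hu : IsUnit (rK o A) := (Matrix.isUnit_iff_isUnit_det _).2 h.isUnit
  refine Matrix.mulVec_injective_iff_isUnit.2 hu ?_
  funext m
  exact congrFun e (o (inl m))

theorem det_ne (o : Fr k q) {A : Fin (k + q) → Fin k → ℂ} (hA : Full A) {x : V k q}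
    (h : pj (Mt o x) * Matrix.of A = Matrix.of A) : (rK o A).det ≠ 0 := by
  obtain ⟨g, hg⟩ : ∃ g : Matrix (Fin k) (Fin k) ℂ, Matrix.of (Mt o x) * g = Matrix.of A := by
    rw [pj, Matrix.mul_assoc, Matrix.mul_assoc] at h
    exact ⟨_, h⟩
  have e : rK o A = g := by rw [rK, ← hg, rK_mul]
  rw [e]
  refine ((Matrix.isUnit_iff_isUnit_det _).1 (Matrix.mulVec_injective_iff_isUnit.1 ?_)).ne_zero
  intro v v' hv
  refine hA ?_
  rw [← hg, ← Matrix.mulVec_mulVec, ← Matrix.mulVec_mulVec, hv]

theorem diff_ent (A : Fin (k + q) → Fin k → ℂ) (a : Fin (k + q)) (b : Fin k) :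
    DifferentiableAt ℂ (fun B : Fin (k + q) → Fin k → ℂ => B a b) A := by
  fun_prop

theorem diff_co (o : Fr k q) (u : V k q) {A : Fin (k + q) → Fin k → ℂ} (h : (rK o A).det ≠ 0) :
    DifferentiableAt ℂ (fun B => u * co o B) A := by
  refine differentiableAt_pi.2 fun m => differentiableAt_pi.2 fun l => ?_
  simp only [Pi.mul_apply, co, Matrix.mul_apply]
  refine DifferentiableAt.const_mul (DifferentiableAt.fun_sum fun j _ => ?_) _
  exact (diff_ent A _ _).mul (diff_inv (f := rK o) (fun a b => diff_ent A _ _) h _ _)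

theorem diff_mt (o : Fr k q) (u x : V k q) : DifferentiableAt ℂ (fun z => Mt o (u * z)) x := by
  refine differentiableAt_pi.2 fun a => differentiableAt_pi.2 fun m => ?_
  simp only [Mt]
  rcases o.symm a with m' | l
  · exact differentiableAt_const _
  · simp only [Sum.elim_inr, Pi.mul_apply]
    fun_prop

end FINB

open FINB in
theorem st_FIN (hPJ : St_PJ) (hMOD : St_MOD) : St_FIN := by
  classical
  intro k q d Y _ _ _ σ ψ η φ u hG hc hu hφ
  obtain ⟨p1, p2, -, -, -⟩ := hPJ k q
  obtain ⟨hM, -, -⟩ := hMOD k q σ hG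
  refine ⟨?_, fun y => ?_⟩
  · let F : (Fin (k + q) → Fin k → ℂ) → Y := fun A =>
      if h : Full A then φ (p1 A h).2.1.choose else φ (σ finSumFinEquiv 0)
    have hF : ∀ A P, Full A → Spans P A → F A = φ P := by
      intro A P hA hP
      have e : (p1 A hA).2.1.choose = P := Subtype.ext (Matrix.of.injective
        ((p1 A hA).2.1.choose_spec.trans (((p1 A hA).2.2 P).1 hP).symm))
      simp only [F, dif_pos hA, e]
    refine ⟨F, fun A hA => MDifferentiableAt.mdifferentiableWithinAt ?_, hF⟩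
    obtain ⟨P, hP⟩ := (p1 A hA).2.1
    obtain ⟨o, x, rfl⟩ := hM.cov P
    have hs : Spans (σ o x) A := ((p1 A hA).2.2 _).2 hP
    have h0 : (rK o A).det ≠ 0 := det_ne o hA (x := x) (by rw [← hG.val]; exact hs)
    have hn : ∀ᶠ B in 𝓝 A, (rK o B).det ≠ 0 :=
      (diff_det (f := rK o) fun a b => diff_ent A _ _).continuousAt.eventually_ne h0
    have he : F =ᶠ[𝓝 A] ψ o ∘ fun B => u o * co o B := by
      filter_upwards [hn] with B hB
      rw [hF B (σ o (co o B)) (full_of o hB), hφ]
      · rfl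
      · have := hG.sp o (co o B)
        unfold Spans at this ⊢
        rw [← mt_co o hB, ← Matrix.mul_assoc, this]
    exact ((hc.hol o _).comp A (diff_co o (u o) h0).mdifferentiableAt).congr_of_eventuallyEq he
  · obtain ⟨o, x, hx⟩ := hM.cov (φ.symm y)
    have hy : y ∈ range (ψ o) := ⟨u o * x, by rw [← hφ, hx, φ.apply_symm_apply]⟩
    refine ⟨fun z => Mt o ((u o)⁻¹ * η o z), ?_⟩
    filter_upwards [(hc.op o).mem_nhds hy] with z hz
    obtain ⟨w, rfl⟩ := hz
    refine ⟨(diff_mt o (u o)⁻¹ _).mdifferentiableAt.comp _ (hc.hi o w), (p2 o _).1, ?_⟩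
    have e : u o * ((u o)⁻¹ * w) = w := by
      funext m l
      simp only [Pi.mul_apply, Pi.inv_apply]
      rw [mul_inv_cancel_left₀ (hu o m l)]
    have e' : φ.symm (ψ o w) = σ o ((u o)⁻¹ * w) := by
      rw [φ.symm_apply_eq, hφ, e]
    rw [e', hc.inv]
    exact hG.sp o _

end Pool.Agent.Lib.GT40
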