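import Pool.Agent.Lib.GT40.Blue

/-! Project gt40: frames are connected by moves. -/

open scoped Manifold ContDiff Topology Matrix
open Set Filter Metric Complex Sum

set_option linter.unusedVariables false

noncomputable section

namespace Pool.Agent.Lib.GT40

theorem st_GEN : St_GEN := by
  intro k q p hk hq hs o o' h
  have c : ∀ (π : Equiv.Perm (Fin k ⊕ Fin q)) i j, p (π.trans o) →
      p (Equiv.trans (π * Equiv.swap (inl i) (inr j)) o) := fun π i j a => hs _ i j a
  have key : ∀ π : Equiv.Perm (Fin k ⊕ Fin q), p (π.trans o) := by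
    intro π
    induction π using Equiv.Perm.swap_induction_on' with
    | one => exact h
    | mul_swap f x y hxy ih =>
      rcases x with x | x <;> rcases y with y | y
      · have e := Equiv.swap_mul_swap_mul_swap (x := (inl x : Fin k ⊕ Fin q))
          (y := inr ⟨0, hq⟩) (z := inl y) inl_ne_inr hxy
        rw [Equiv.swap_comm (inl x), ← e, Equiv.swap_comm (inr _), ← mul_assoc, ← mul_assoc]
        exact c _ _ _ (c _ _ _ (c _ _ _ ih))
      · exact c _ _ _ ih
      · rw [Equiv.swap_comm]
        exact c _ _ _ ih
      · have e := Equiv.swap_mul_swap_mul_swap (x := (inr x : Fin k ⊕ Fin q))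
          (y := inl ⟨0, hk⟩) (z := inr y) inr_ne_inl hxy
        rw [Equiv.swap_comm (inr x), ← e, Equiv.swap_comm (inr x), ← mul_assoc, ← mul_assoc]
        exact c _ _ _ (c _ _ _ (c _ _ _ ih))
  have := key (o'.trans o.symm)
  rwa [Equiv.trans_assoc, Equiv.symm_trans_self, Equiv.trans_refl] at this

end Pool.Agent.Lib.GT40
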