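import Pool.Agent.Lib.GT40.Blue

/-! Project gt40: the identity theorem from the real points. -/

open scoped Manifold ContDiff Topology Matrix
open Set Filter Metric Complex Sum

set_option linter.unusedVariables false

noncomputable section

namespace Pool.Agent.Lib.GT40

open Pool.Agent.Lib.SV.H85

namespace IDB

variable {ι : Type} [Fintype ι] {d : ℕ}

theorem slice {h : (ι → ℂ) → E d} {r : ℝ} (hd : DifferentiableOn ℂ h (ball 0 r))
    (h0 : ∀ θ, cx θ ∈ ball (0 : ι → ℂ) r → h (cx θ) = 0) {z : ι → ℂ} (hz : z ∈ ball 0 (r / 4)) :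
    h z = 0 := by
  rw [mem_ball_zero_iff] at hz
  set x : ι → ℂ := cx fun a => (z a).re with hx
  set y : ι → ℂ := cx fun a => (z a).im with hy
  have nx : ‖x‖ ≤ ‖z‖ := (pi_norm_le_iff_of_nonneg (norm_nonneg _)).2 fun a => by
    simpa [hx, cx] using (abs_re_le_norm _).trans (norm_le_pi_norm z a)
  have ny : ‖y‖ ≤ ‖z‖ := (pi_norm_le_iff_of_nonneg (norm_nonneg _)).2 fun a => by
    simpa [hy, cx] using (abs_im_le_norm _).trans (norm_le_pi_norm z a)
  have hin : ∀ s ∈ ball (0 : ℂ) 2, x + s • y ∈ ball (0 : ι → ℂ) r := fun s hs => by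
    rw [mem_ball_zero_iff] at hs ⊢
    refine (norm_add_le _ _).trans_lt ?_
    rw [norm_smul]
    nlinarith [norm_nonneg z, norm_nonneg s, norm_nonneg y]
  have ha : AnalyticOnNhd ℂ (fun s : ℂ => h (x + s • y)) (ball 0 2) :=
    (hd.comp (by fun_prop) hin).analyticOnNhd isOpen_ball
  have ht : Tendsto (fun t : ℝ => (t : ℂ)) (𝓝[≠] 0) (𝓝[≠] 0) :=
    tendsto_nhdsWithin_iff.2 ⟨(continuous_ofReal.tendsto' 0 0 rfl).mono_left nhdsWithin_le_nhds,
      eventually_nhdsWithin_of_forall fun t ht => by simpa using ht⟩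
  have hf : ∃ᶠ s in 𝓝[≠] (0 : ℂ), h (x + s • y) = 0 := by
    refine ht.frequently (Eventually.frequently ?_)
    filter_upwards [ht.eventually (mem_nhdsWithin_of_mem_nhds (ball_mem_nhds (0 : ℂ) two_pos))]
      with t h1
    have e : x + (t : ℂ) • y = cx fun a => (z a).re + t * (z a).im := by
      funext a
      simp [hx, hy, cx]
    exact e ▸ h0 _ (e ▸ hin _ h1)
  have := ha.eqOn_zero_of_preconnected_of_frequently_eq_zero (convex_ball _ _).isPreconnected
    (mem_ball_self two_pos) hf (x := I) (by simp)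
  have e : x + I • y = z := by
    funext a
    simp only [hx, hy, cx, Pi.add_apply, Pi.smul_apply, smul_eq_mul]
    rw [mul_comm, re_add_im]
  simpa only [e, Pi.zero_apply] using this

end IDB

theorem st_ID : St_ID := by
  intro ι _ d Y _ _ _ _ O f g hO hc h0 hf hg hr
  have loc : ∀ τ ∈ O, f τ = g τ → ∀ᶠ w in 𝓝 τ, (w ∈ O ∧ DifferentiableAt ℂ
      (chartAt (E d) (f τ) ∘ f - chartAt (E d) (f τ) ∘ g) w) ∧
      ((chartAt (E d) (f τ) ∘ f - chartAt (E d) (f τ) ∘ g) w = 0 → f w = g w) := by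
    intro τ hτ e
    have s := (chartAt (E d) (f τ)).open_source.mem_nhds (mem_chart_source (E d) (f τ))
    have s' : (chartAt (E d) (f τ)).source ∈ 𝓝 (g τ) := by rwa [← e]
    filter_upwards [hO.mem_nhds hτ, (hf τ hτ).continuousAt.eventually s,
      (hg τ hτ).continuousAt.eventually s'] with w a b c
    exact ⟨⟨a, (hol_ch (hf w a) b).sub (hol_ch (hg w a) c)⟩,
      fun z => (chartAt (E d) (f τ)).injOn b c (sub_eq_zero.1 z)⟩
  have c0 : cx (0 : ι → ℝ) = 0 := funext fun a => ofReal_zero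
  have e0 : f 0 = g 0 := by simpa only [c0] using hr 0 (c0 ▸ h0)
  have z0 : f =ᶠ[𝓝 0] g := by
    obtain ⟨r, r0, hb⟩ := Metric.mem_nhds_iff.1 (loc 0 h0 e0)
    filter_upwards [ball_mem_nhds (0 : ι → ℂ) (by positivity : 0 < r / 4)] with w hw
    refine (hb (ball_subset_ball (by linarith) hw)).2 (IDB.slice
      (fun z hz => (hb hz).1.2.differentiableWithinAt) (fun θ hθ => ?_) hw)
    simp only [Pi.sub_apply, Function.comp, hr θ (hb hθ).1.1, sub_self]
  have hU : O ⊆ {τ | f =ᶠ[𝓝 τ] g} := by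
    refine hc.isPreconnected.subset_of_closure_inter_subset isOpen_setOf_eventually_nhds
      ⟨0, h0, z0⟩ fun τ ⟨h1, h2⟩ => ?_
    have fr : ∃ᶠ w in 𝓝 τ, f =ᶠ[𝓝 w] g := mem_closure_iff_frequently.1 h1
    have e : f τ = g τ := tendsto_nhds_unique_of_frequently_eq (hf τ h2).continuousAt
      (hg τ h2).continuousAt (fr.mono fun w hw => hw.self_of_nhds)
    have a := loc τ h2 e
    have b := eventually_zero_of_frequently (a.mono fun w hw => hw.1.2) (fr.mono fun w hw =>
      hw.mono fun v hv => by simp only [Pi.sub_apply, Function.comp, hv, sub_self, Pi.zero_apply])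
    filter_upwards [a, b] with w p1 p2 using p1.2 p2
  exact fun τ hτ => (hU hτ).self_of_nhds

end Pool.Agent.Lib.GT40
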