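import Pool.Agent.Lib.GT40.Blue

/-! Project gt40, block KOE: linearisation at an attracting fixed point. -/

open scoped Manifold ContDiff Topology
open Set Filter Metric

set_option linter.unusedVariables false
set_option linter.unusedSectionVars false

noncomputable section

namespace Pool.Agent.Lib.GT40

namespace KOEB

open Pool.Agent.Lib.SV.H85

section flat

variable {W : Type} [NormedAddCommGroup W] [NormedSpace ℂ W]

theorem to_pt {w : ℕ → W} {a x : W}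
    (h : Tendsto (fun m : ℕ => (2 : ℂ) ^ m • (w m - a)) atTop (𝓝 x)) : Tendsto w atTop (𝓝 a) := by
  have h1 : Tendsto (fun m : ℕ => (2⁻¹ : ℂ) ^ m) atTop (𝓝 0) :=
    tendsto_pow_atTop_nhds_zero_of_norm_lt_one (by norm_num)
  have h2 := (h1.smul h).add_const a
  rw [zero_smul, zero_add] at h2
  refine h2.congr fun m => ?_
  rw [smul_smul, ← mul_pow, inv_mul_cancel₀ two_ne_zero, one_pow, one_smul, sub_add_cancel]

theorem push {w : ℕ → W} {a x : W} {G : W → W} {L : W →L[ℂ] W} (hG : HasFDerivAt G L a)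
    (ha : G a = a) (h : Tendsto (fun m : ℕ => (2 : ℂ) ^ m • (w m - a)) atTop (𝓝 x)) :
    Tendsto (fun m : ℕ => (2 : ℂ) ^ m • (G (w m) - a)) atTop (𝓝 (L x)) := by
  have h1 := hG.isLittleO.comp_tendsto (to_pt h)
  have h2 := (Asymptotics.isBigO_refl (fun m : ℕ => (2 : ℂ) ^ m) atTop).smul_isLittleO h1
  have h3 := (Asymptotics.isLittleO_one_iff ℝ).1 (h2.trans_isBigO (h.isBigO_one ℝ))
  have h4 := h3.add ((L.continuous.tendsto x).comp h)
  rw [zero_add] at h4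
  refine h4.congr fun m => ?_
  simp only [Function.comp, ha, map_smul, ← smul_add, sub_add_cancel]

variable [FiniteDimensional ℂ W]

theorem flat {f : W → W} {a : W} {U : Set W} (hU : U ∈ 𝓝 a)
    (hf : ∀ᶠ z in 𝓝 a, DifferentiableAt ℂ f z) (ha : f a = a)
    (hd : ∀ v, fderiv ℂ f a v = (1 / 2 : ℂ) • v) :
    ∃ (r : ℝ) (h k : W → W), 0 < r ∧ ball a r ⊆ U ∧ MapsTo f (ball a r) (ball a r) ∧
      DifferentiableOn ℂ h (ball a r) ∧ InjOn h (ball a r) ∧
      (∀ z ∈ ball a r, Tendsto (fun m : ℕ => (2 : ℂ) ^ m • (f^[m] z - a)) atTop (𝓝 (h z))) ∧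
      ∀ᶠ u in 𝓝 (0 : W), DifferentiableAt ℂ k u ∧ k u ∈ ball a r ∧ h (k u) = u := by
  have : CompleteSpace W := FiniteDimensional.complete ℂ W
  have h1 : ∀ᶠ z in 𝓝 a, dist (f z) (f a) < 1 :=
    Metric.tendsto_nhds.1 hf.self_of_nhds.continuousAt 1 one_pos
  obtain ⟨R, hR, hRV⟩ := Metric.mem_nhds_iff.1 (inter_mem h1 (inter_mem hf hU))
  have hdR : DifferentiableOn ℂ f (ball a R) := fun z hz => (hRV hz).2.1.differentiableWithinAt
  have hM : ∀ z ∈ ball a R, ‖f z‖ ≤ ‖a‖ + 1 := fun z hz => by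
    have h2 : dist (f z) (f a) < 1 := (hRV hz).1
    rw [ha, dist_eq_norm] at h2
    have h3 := norm_sub_norm_le (f z) a
    linarith
  obtain ⟨C, hC⟩ : ∃ C : ℝ, C = 4 * (‖a‖ + 1) / R ^ 2 := ⟨_, rfl⟩
  have hC0 : 0 < C := by rw [hC]; positivity
  have hrem : ∀ z ∈ ball a R, ‖f z - a - (1 / 2 : ℂ) • (z - a)‖ ≤ C * ‖z - a‖ ^ 2 := fun z hz => by
    have h2 := norm_rem_le hdR hM hz
    rw [ha, hd] at h2
    refine h2.trans_eq ?_
    rw [hC, div_pow]
    ring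
  obtain ⟨r, hr⟩ : ∃ r : ℝ, r = min R (1 / (10 * C)) := ⟨_, rfl⟩
  have hr0 : 0 < r := by rw [hr]; positivity
  have hrR : ball a r ⊆ ball a R := ball_subset_ball (hr ▸ min_le_left _ _)
  have hcon : ∀ z ∈ ball a r, ‖f z - a‖ ≤ 3 / 5 * ‖z - a‖ := fun z hz => by
    have h2 := hrem z (hrR hz)
    have h3 : ‖z - a‖ ≤ 1 / (10 * C) := by
      rw [mem_ball, dist_eq_norm] at hz
      exact hz.le.trans (hr ▸ min_le_right _ _)
    have h4 : C * ‖z - a‖ ≤ 1 / 10 := by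
      rw [le_div_iff₀ (by positivity)] at h3
      linarith
    have h5 := norm_sub_norm_le (f z - a) ((1 / 2 : ℂ) • (z - a))
    have h6 : ‖(1 / 2 : ℂ) • (z - a)‖ = 1 / 2 * ‖z - a‖ := by
      rw [norm_smul]
      norm_num
    have h7 := mul_le_mul_of_nonneg_right h4 (norm_nonneg (z - a))
    nlinarith
  have hmap : ∀ s, s ≤ r → MapsTo f (ball a s) (ball a s) := fun s hs z hz => by
    have h2 := hcon z (ball_subset_ball hs hz)
    rw [mem_ball, dist_eq_norm] at hz ⊢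
    have h3 := norm_nonneg (z - a)
    linarith
  have hit : ∀ z ∈ ball a r, ∀ m : ℕ, ‖f^[m] z - a‖ ≤ (3 / 5) ^ m * ‖z - a‖ := fun z hz m => by
    induction m with
    | zero => simp
    | succ m ih =>
      rw [Function.iterate_succ_apply', pow_succ]
      have h2 := hcon _ ((hmap r le_rfl).iterate m hz)
      linarith
  have hinc : ∀ z ∈ ball a r, ∀ m : ℕ, dist ((2 : ℂ) ^ m • (f^[m] z - a))
      ((2 : ℂ) ^ (m + 1) • (f^[m + 1] z - a)) ≤ 2 * C * ‖z - a‖ ^ 2 * (18 / 25) ^ m := by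
    intro z hz m
    have h2 := hrem _ (hrR ((hmap r le_rfl).iterate m hz))
    have h3 : (2 : ℂ) ^ (m + 1) • (f^[m + 1] z - a) - (2 : ℂ) ^ m • (f^[m] z - a) =
        (2 : ℂ) ^ (m + 1) • (f (f^[m] z) - a - (1 / 2 : ℂ) • (f^[m] z - a)) := by
      rw [Function.iterate_succ_apply', smul_sub ((2 : ℂ) ^ (m + 1)) (_ - a), smul_smul]
      congr 2
      rw [pow_succ]
      ring
    rw [dist_comm, dist_eq_norm, h3, norm_smul, norm_pow, Complex.norm_ofNat]
    have h4 : ‖f^[m] z - a‖ ^ 2 ≤ ((3 / 5) ^ m * ‖z - a‖) ^ 2 :=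
      pow_le_pow_left₀ (norm_nonneg _) (hit z hz m) 2
    have h5 : (18 / 25 : ℝ) ^ m = 2 ^ m * ((3 / 5) ^ m) ^ 2 := by
      rw [← pow_mul, mul_comm m 2, pow_mul, ← mul_pow]
      norm_num
    calc (2 : ℝ) ^ (m + 1) * ‖f (f^[m] z) - a - (1 / 2 : ℂ) • (f^[m] z - a)‖
        ≤ 2 ^ (m + 1) * (C * ((3 / 5) ^ m * ‖z - a‖) ^ 2) :=
          mul_le_mul_of_nonneg_left (h2.trans (mul_le_mul_of_nonneg_left h4 hC0.le))
            (by positivity)
      _ = 2 * C * ‖z - a‖ ^ 2 * (18 / 25) ^ m := by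
          rw [h5, pow_succ]
          ring
  obtain ⟨h, hh⟩ : ∃ h : W → W, ∀ z ∈ ball a r,
      Tendsto (fun m : ℕ => (2 : ℂ) ^ m • (f^[m] z - a)) atTop (𝓝 (h z)) :=
    ⟨fun z => limUnder atTop fun m : ℕ => (2 : ℂ) ^ m • (f^[m] z - a), fun z hz =>
      (cauchySeq_of_le_geometric (18 / 25) _ (by norm_num) (hinc z hz)).tendsto_limUnder⟩
  have hclose : ∀ z ∈ ball a r, ∀ m : ℕ,
      dist ((2 : ℂ) ^ m • (f^[m] z - a)) (h z) ≤ 8 * C * ‖z - a‖ ^ 2 := by
    intro z hz m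
    refine (dist_le_of_le_geometric_of_tendsto (18 / 25) _ (by norm_num) (hinc z hz) (hh z hz)
      m).trans ?_
    have h2 : (18 / 25 : ℝ) ^ m ≤ 1 := pow_le_one₀ (by norm_num) (by norm_num)
    have h3 : 0 ≤ C * ‖z - a‖ ^ 2 := by positivity
    have h4 := mul_le_mul_of_nonneg_left h2 h3
    rw [div_le_iff₀ (by norm_num)]
    nlinarith
  have hh0 : ∀ z ∈ ball a r, ‖h z - (z - a)‖ ≤ 8 * C * ‖z - a‖ ^ 2 := fun z hz => by
    have h2 := hclose z hz 0
    rwa [pow_zero, one_smul, Function.iterate_zero_apply, dist_comm, dist_eq_norm] at h2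
  have hha : h a = 0 := by
    have h2 := hh0 a (mem_ball_self hr0)
    simpa using h2
  have hdi : ∀ m : ℕ, DifferentiableOn ℂ f^[m] (ball a r) := fun m => by
    induction m with
    | zero => exact differentiableOn_id
    | succ m ih =>
      rw [Function.iterate_succ']
      exact (hdR.mono hrR).comp ih ((hmap r le_rfl).iterate m)
  have hdh : DifferentiableOn ℂ h (ball a r) := by
    refine (differentiableOn_of_tendsto (l := atTop)
      (f := fun (m : ℕ) z => (2 : ℂ) ^ m • (f^[m] z - a)) isOpen_ball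
      (Eventually.of_forall fun m => ((hdi m).sub_const a).const_smul _) (fun x hx => ?_) hh).1
    refine ⟨r + 16 * C * r ^ 2, ball a r, isOpen_ball.mem_nhds hx,
      Eventually.of_forall fun m z hz => ?_⟩
    have h2 := hclose z hz m
    have h3 := hh0 z hz
    rw [dist_eq_norm] at h2
    have h4 := norm_sub_norm_le ((2 : ℂ) ^ m • (f^[m] z - a)) (h z)
    have h5 := norm_sub_norm_le (h z) (z - a)
    have h6 : ‖z - a‖ ≤ r := by
      rw [mem_ball, dist_eq_norm] at hz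
      exact hz.le
    have h7 : C * ‖z - a‖ ^ 2 ≤ C * r ^ 2 :=
      mul_le_mul_of_nonneg_left (pow_le_pow_left₀ (norm_nonneg _) h6 2) hC0.le
    linarith
  have hfa : HasFDerivAt h (ContinuousLinearMap.id ℂ W) a := by
    refine hasFDerivAt_of_rem (C := 8 * C * r ^ 2) hr0 fun z hz => ?_
    rw [hha, sub_zero, ContinuousLinearMap.id_apply]
    refine (hh0 z hz).trans_eq ?_
    field_simp
  obtain ⟨φ, hφ, haφ, hφs, -, hφd, -⟩ := Pool.Agent.HS85.loc_inv (f := h) (a := a)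
    (by filter_upwards [ball_mem_nhds a hr0] with z hz
        exact hdh.differentiableAt (isOpen_ball.mem_nhds hz))
    (by rw [hfa.fderiv]; exact isUnit_one) (ball_mem_nhds a hr0)
  obtain ⟨s, hs0, hs⟩ := Metric.mem_nhds_iff.1 (φ.open_source.mem_nhds haφ)
  have hsr : ball a (min s r) ⊆ ball a r := ball_subset_ball (min_le_right _ _)
  have hss : ball a (min s r) ⊆ φ.source := (ball_subset_ball (min_le_left _ _)).trans hs
  have hφa : φ a = 0 := by rw [hφ, hha]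
  have h0t : (0 : W) ∈ φ.target := hφa ▸ φ.map_source haφ
  have hk0 : φ.symm 0 = a := by rw [← hφa, φ.left_inv haφ]
  refine ⟨min s r, h, φ.symm, lt_min hs0 hr0, fun z hz => (hRV (hrR (hsr hz))).2.2,
    hmap _ (min_le_right _ _), hdh.mono hsr, hφ ▸ φ.injOn.mono hss, fun z hz => hh z (hsr hz), ?_⟩
  have h2 : ∀ᶠ u in 𝓝 (0 : W), φ.symm u ∈ ball a (min s r) :=
    (φ.continuousAt_symm h0t).eventually (by
      rw [hk0]
      exact ball_mem_nhds a (lt_min hs0 hr0))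
  filter_upwards [h2, φ.open_target.mem_nhds h0t] with u hu hut
  exact ⟨hφd.differentiableAt (φ.open_target.mem_nhds hut), hu, by
    rw [← hφ]
    exact φ.right_inv hut⟩

end flat

theorem act_hol {ι : Type} [Fintype ι] {d : ℕ} {Y : Type} [TopologicalSpace Y]
    [ChartedSpace (E d) Y] [IsManifold 𝓘(ℂ, E d) ω Y] {ρ : (ι → ℝ) → Y → Y}
    {A : (ι → ℂ) → Y → Y} (hA : Act d ρ A) (τ : ι → ℂ) :
    MDifferentiable 𝓘(ℂ, E d) 𝓘(ℂ, E d) (A τ) := fun y =>
  (hA.hol (τ, y)).comp y (mdifferentiableAt_const.prodMk mdifferentiableAt_id)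

theorem core {ι : Type} [Fintype ι] {d : ℕ} {Y : Type} [TopologicalSpace Y]
    [ChartedSpace (E d) Y] [IsManifold 𝓘(ℂ, E d) ω Y] {ρ : (ι → ℝ) → Y → Y}
    {A : (ι → ℂ) → Y → Y} {p : Y} {τ₀ : ι → ℂ} (hA : Act d ρ A) (hp : ∀ τ, A τ p = p)
    (h0 : ∀ v, fderiv ℂ (chartAt (E d) p ∘ A τ₀ ∘ (chartAt (E d) p).symm) (chartAt (E d) p p) v =
      (1 / 2 : ℂ) • v) :
    ∃ (ψ : E d → Y) (η : Y → E d), MDifferentiable 𝓘(ℂ, E d) 𝓘(ℂ, E d) ψ ∧ ψ 0 = p ∧
      (∀ x, η (ψ x) = x) ∧ IsOpen (range ψ) ∧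
      (∀ x, MDifferentiableAt 𝓘(ℂ, E d) 𝓘(ℂ, E d) η (ψ x)) ∧ ∀ τ x, A τ (ψ x) =
        ψ (fderiv ℂ (chartAt (E d) p ∘ A τ ∘ (chartAt (E d) p).symm) (chartAt (E d) p p) x) := by
  set e := chartAt (E d) p with he
  have hps : p ∈ e.source := mem_chart_source (E d) p
  have hat : e p ∈ e.target := e.map_source hps
  have hea : e.symm (e p) = p := e.left_inv hps
  have hcont : ∀ τ, Continuous (A τ) := fun τ => (act_hol hA τ).continuous
  have hnear : ∀ τ, ∀ᶠ z in 𝓝 (e p), z ∈ e.target ∧ A τ (e.symm z) ∈ e.source := fun τ => by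
    have h1 : ContinuousAt (A τ ∘ e.symm) (e p) :=
      (hcont τ).continuousAt.comp (e.continuousAt_symm hat)
    refine (e.open_target.eventually_mem hat).and (h1.eventually ?_)
    rw [Function.comp_apply, hea, hp]
    exact e.open_source.eventually_mem hps
  have hdiff : ∀ τ, ∀ᶠ z in 𝓝 (e p), DifferentiableAt ℂ (e ∘ A τ ∘ e.symm) z := fun τ => by
    filter_upwards [hnear τ] with z hz
    exact hol_ch ((act_hol hA τ _).comp z (hol_symm hz.1)) hz.2
  have hfix : ∀ τ, (e ∘ A τ ∘ e.symm) (e p) = e p := fun τ => by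
    simp only [Function.comp_apply, hea, hp]
  obtain ⟨r, h, k, hr, hU, hmap, hdh, hinj, hlim, hk⟩ := flat (hnear τ₀) (hdiff τ₀) (hfix τ₀) h0
  obtain ⟨T, hT⟩ : ∃ T : ℕ → Y → Y, T = fun m : ℕ => A ((m : ℂ) • τ₀) := ⟨_, rfl⟩
  have hTs : ∀ m y, T (m + 1) y = A τ₀ (T m y) := fun m y => by
    simp only [hT]
    rw [← hA.add, Nat.cast_succ, add_smul, one_smul, add_comm]
  have hTc : ∀ τ m y, T m (A τ y) = A τ (T m y) := fun τ m y => by
    simp only [hT]
    rw [← hA.add, ← hA.add, add_comm]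
  have hTl : ∀ (m : ℕ) y, A (-((m : ℂ) • τ₀)) (T m y) = y := fun m y => by
    simp only [hT]
    rw [← hA.add, neg_add_cancel, hA.zero]
  have hTr : ∀ (m : ℕ) y, T m (A (-((m : ℂ) • τ₀)) y) = y := fun m y => by
    simp only [hT]
    rw [← hA.add, add_neg_cancel, hA.zero]
  have hTd : ∀ m, MDifferentiable 𝓘(ℂ, E d) 𝓘(ℂ, E d) (T m) := fun m => by
    simp only [hT]
    exact act_hol hA _
  obtain ⟨S, hS⟩ : ∃ S : Set Y, S = e.source ∩ e ⁻¹' ball (e p) r := ⟨_, rfl⟩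
  have hSo : IsOpen S := hS ▸ e.isOpen_inter_preimage isOpen_ball
  have hSm : ∀ y, y ∈ S ↔ y ∈ e.source ∧ e y ∈ ball (e p) r := fun y => by
    rw [hS]
    rfl
  have hstay : ∀ y m, T m y ∈ S → ∀ j, T (j + m) y ∈ S ∧
      e (T (j + m) y) = (e ∘ A τ₀ ∘ e.symm)^[j] (e (T m y)) := by
    intro y m hm j
    induction j with
    | zero =>
      rw [zero_add]
      exact ⟨hm, rfl⟩
    | succ j ih =>
      obtain ⟨h1, h2⟩ := (hSm _).1 ih.1
      have h3 := (hU h2).2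
      have h4 := hmap h2
      rw [Function.comp_apply, Function.comp_apply, e.left_inv h1] at h4
      rw [e.left_inv h1] at h3
      rw [add_right_comm, hTs, Function.iterate_succ_apply', ← ih.2]
      refine ⟨(hSm _).2 ⟨h3, h4⟩, ?_⟩
      rw [Function.comp_apply, Function.comp_apply, e.left_inv h1]
  have hten : ∀ y m, T m y ∈ S → Tendsto (fun n : ℕ => (2 : ℂ) ^ n • (e (T n y) - e p)) atTop
      (𝓝 ((2 : ℂ) ^ m • h (e (T m y)))) := by
    intro y m hm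
    rw [← tendsto_add_atTop_iff_nat m]
    refine ((hlim _ ((hSm _).1 hm).2).const_smul ((2 : ℂ) ^ m)).congr fun j => ?_
    rw [(hstay y m hm j).2, smul_smul, ← pow_add, add_comm]
  obtain ⟨η, hη⟩ : ∃ η : Y → E d, ∀ y m, T m y ∈ S → η y = (2 : ℂ) ^ m • h (e (T m y)) :=
    ⟨fun y => limUnder atTop fun n : ℕ => (2 : ℂ) ^ n • (e (T n y) - e p), fun y m hm =>
      (hten y m hm).limUnder_eq⟩
  have hηi : ∀ y y' m m', T m y ∈ S → T m' y' ∈ S → η y = η y' → y = y' := by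
    intro y y' m m' hm hm' hy
    have h1 := (hstay y m hm m').1
    have h2 := (hstay y' m' hm' m).1
    rw [add_comm] at h2
    rw [hη y _ h1, hη y' _ h2] at hy
    have h3 := hinj ((hSm _).1 h1).2 ((hSm _).1 h2).2
      (smul_right_injective _ (pow_ne_zero _ two_ne_zero) hy)
    have h4 := e.injOn ((hSm _).1 h1).1 ((hSm _).1 h2).1 h3
    rw [← hTl (m' + m) y, h4, hTl]
  have hηe : ∀ τ y m, T m y ∈ S → (∃ n, T n (A τ y) ∈ S) ∧
      η (A τ y) = fderiv ℂ (e ∘ A τ ∘ e.symm) (e p) (η y) := by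
    intro τ y m hm
    have h1 := hten y m hm
    have h2 := push (hdiff τ).self_of_nhds.hasFDerivAt (hfix τ) h1
    have h3 : ∀ᶠ n in atTop, T n y ∈ e.source := by
      filter_upwards [eventually_ge_atTop m] with n hn
      obtain ⟨j, rfl⟩ := Nat.exists_eq_add_of_le' hn
      exact ((hSm _).1 (hstay y m hm j).1).1
    have h4 : Tendsto (fun n : ℕ => (2 : ℂ) ^ n • (e (T n (A τ y)) - e p)) atTop
        (𝓝 (fderiv ℂ (e ∘ A τ ∘ e.symm) (e p) ((2 : ℂ) ^ m • h (e (T m y))))) := by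
      refine h2.congr' ?_
      filter_upwards [h3] with n hn
      rw [Function.comp_apply, Function.comp_apply, e.left_inv hn, hTc]
    have h5 : ∃ n, T n (A τ y) ∈ S := by
      obtain ⟨n, h6, h7, h8⟩ := (h3.and (((to_pt h1).eventually (hnear τ)).and
        ((to_pt h4).eventually (ball_mem_nhds _ hr)))).exists
      refine ⟨n, (hSm _).2 ⟨?_, h8⟩⟩
      rw [e.left_inv h6] at h7
      rw [hTc]
      exact h7.2
    refine ⟨h5, ?_⟩
    obtain ⟨n, hn⟩ := h5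
    rw [hη _ n hn, hη y m hm]
    exact tendsto_nhds_unique (hten _ n hn) h4
  have hsur : ∀ (x : E d) (m : ℕ), (k ((2⁻¹ : ℂ) ^ m • x) ∈ ball (e p) r ∧
      h (k ((2⁻¹ : ℂ) ^ m • x)) = (2⁻¹ : ℂ) ^ m • x) →
      T m (A (-((m : ℂ) • τ₀)) (e.symm (k ((2⁻¹ : ℂ) ^ m • x)))) ∈ S ∧
        η (A (-((m : ℂ) • τ₀)) (e.symm (k ((2⁻¹ : ℂ) ^ m • x)))) = x := by
    intro x m hx
    have h1 := (hU hx.1).1
    have h2 : T m (A (-((m : ℂ) • τ₀)) (e.symm (k ((2⁻¹ : ℂ) ^ m • x)))) ∈ S := by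
      rw [hTr, hSm, e.right_inv h1]
      exact ⟨e.map_target h1, hx.1⟩
    refine ⟨h2, ?_⟩
    rw [hη _ m h2, hTr, e.right_inv h1, hx.2, smul_smul, ← mul_pow, mul_inv_cancel₀ two_ne_zero,
      one_pow, one_smul]
  have hsm : ∀ x : E d, ∃ m : ℕ, ∀ᶠ x' in 𝓝 x, DifferentiableAt ℂ k ((2⁻¹ : ℂ) ^ m • x') ∧
      k ((2⁻¹ : ℂ) ^ m • x') ∈ ball (e p) r ∧
      h (k ((2⁻¹ : ℂ) ^ m • x')) = (2⁻¹ : ℂ) ^ m • x' := by
    intro x
    have h1 : Tendsto (fun m : ℕ => (2⁻¹ : ℂ) ^ m) atTop (𝓝 0) :=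
      tendsto_pow_atTop_nhds_zero_of_norm_lt_one (by norm_num)
    have h2 := h1.smul_const x
    rw [zero_smul] at h2
    obtain ⟨m, hm⟩ := (h2.eventually hk.eventually_nhds).exists
    exact ⟨m, (continuous_const_smul ((2⁻¹ : ℂ) ^ m)).continuousAt.eventually hm⟩
  have hex : ∀ x : E d, ∃ y, (∃ m, T m y ∈ S) ∧ η y = x := fun x => by
    obtain ⟨m, hm⟩ := hsm x
    exact ⟨_, ⟨m, (hsur x m hm.self_of_nhds.2).1⟩, (hsur x m hm.self_of_nhds.2).2⟩
  choose ψ hψ hψη using hex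
  have huniq : ∀ y m, T m y ∈ S → ψ (η y) = y := fun y m hm => by
    obtain ⟨n, hn⟩ := hψ (η y)
    exact hηi _ _ n m hn hm (hψη _)
  have hTp : ∀ m, T m p = p := fun m => by simp only [hT, hp]
  have hpS : T 0 p ∈ S := by
    rw [hTp, hSm]
    exact ⟨hps, mem_ball_self hr⟩
  refine ⟨ψ, η, fun x => ?_, ?_, hψη, ?_, fun x => ?_, fun τ x => ?_⟩
  · obtain ⟨m, hm⟩ := hsm x
    have h1 : ψ =ᶠ[𝓝 x] A (-((m : ℂ) • τ₀)) ∘ e.symm ∘ fun x' => k ((2⁻¹ : ℂ) ^ m • x') := by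
      filter_upwards [hm] with x' hx'
      obtain ⟨h2, h3⟩ := hsur x' m hx'.2
      have h4 := huniq _ m h2
      rwa [h3] at h4
    refine MDifferentiableAt.congr_of_eventuallyEq ?_ h1
    have h5 : DifferentiableAt ℂ (fun x' : E d => k ((2⁻¹ : ℂ) ^ m • x')) x :=
      hm.self_of_nhds.1.comp x (differentiableAt_fun_id.fun_const_smul _)
    exact (act_hol hA _ _).comp x ((hol_symm (hU hm.self_of_nhds.2.1).1).comp x
      (mdifferentiableAt_iff_differentiableAt.2 h5))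
  · have h1 := hten p 0 hpS
    simp only [hTp, sub_self, smul_zero] at h1
    have h2 := tendsto_nhds_unique h1 tendsto_const_nhds
    have h3 := hη p 0 hpS
    rw [hTp, h2] at h3
    rw [← h3]
    exact huniq p 0 hpS
  · have h1 : range ψ = ⋃ m, T m ⁻¹' S := by
      ext y
      rw [mem_iUnion]
      exact ⟨fun ⟨x, hx⟩ => hx ▸ hψ x, fun ⟨m, hm⟩ => ⟨η y, huniq y m hm⟩⟩
    rw [h1]
    exact isOpen_iUnion fun m => hSo.preimage (hTd m).continuous
  · obtain ⟨m, hm⟩ := hψ x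
    have h1 : η =ᶠ[𝓝 (ψ x)] (fun z => (2 : ℂ) ^ m • h z) ∘ e ∘ T m := by
      filter_upwards [(hSo.preimage (hTd m).continuous).mem_nhds hm] with y hy
      exact hη y m hy
    refine MDifferentiableAt.congr_of_eventuallyEq ?_ h1
    have h2 : DifferentiableAt ℂ (fun z => (2 : ℂ) ^ m • h z) (e (T m (ψ x))) :=
      (hdh.differentiableAt (isOpen_ball.mem_nhds ((hSm _).1 hm).2)).fun_const_smul _
    exact (mdifferentiableAt_iff_differentiableAt.2 h2).comp (ψ x)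
      ((mdifferentiableAt_atlas (chart_mem_atlas (E d) p) ((hSm _).1 hm).1).comp (ψ x) (hTd m _))
  · obtain ⟨m, hm⟩ := hψ x
    obtain ⟨⟨n, hn⟩, h1⟩ := hηe τ _ m hm
    rw [hψη] at h1
    rw [← h1, huniq _ n hn]

end KOEB

theorem st_KOE : St_KOE := by
  intro ι _ k q d Y _ _ _ ρ A p D g τ₀ hA hp hD h0
  obtain ⟨ψ, η, h1, h2, h3, h4, h5, h6⟩ := KOEB.core (τ₀ := τ₀) hA hp fun v => by
    rw [← D.apply_symm_apply v, hD, h0, map_smul]
  refine ⟨ψ ∘ D, D.symm ∘ η, fun x => ?_, ?_, fun x => ?_, ?_, fun x => ?_, fun τ x => ?_⟩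
  · exact (h1 _).comp x (mdifferentiableAt_iff_differentiableAt.2 D.differentiableAt)
  · rw [Function.comp_apply, map_zero, h2]
  · simp only [Function.comp_apply, h3, D.symm_apply_apply]
  · rwa [D.surjective.range_comp]
  · exact (mdifferentiableAt_iff_differentiableAt.2 D.symm.differentiableAt).comp _ (h5 _)
  · simp only [Function.comp_apply, h6, hD]

end Pool.Agent.Lib.GT40
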