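import Pool.Agent.Lib.GT40.Blue

/-! Project gt40, block LOC: local extension of the action to complex time. -/

open scoped Manifold ContDiff Topology Matrix
open Set Filter Metric Complex Sum

set_option linter.unusedVariables false
set_option linter.unusedSectionVars false

noncomputable section

namespace Pool.Agent.Lib.GT40

namespace LOCB

variable {ι : Type} [Fintype ι] {d : ℕ}

/-- A real derivative that commutes with `I` is a complex derivative. -/
theorem hol_of {f : E d → E d} {T : E d →L[ℝ] E d} {z : E d} (h : HasFDerivAt f T z)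
    (hT : ∀ w, T (I • w) = I • T w) : DifferentiableAt ℂ f z := by
  have h1 : ∀ (c : ℂ) (w : E d), c • w = c.re • w + c.im • (I • w) := fun c w => by
    conv_lhs => rw [← re_add_im c]
    rw [add_smul, mul_smul, coe_smul, coe_smul]
  let S : E d →L[ℂ] E d :=
    { toFun := T
      map_add' := T.map_add
      map_smul' := fun c w => by
        rw [h1 c w, map_add, map_smul, map_smul, hT, RingHom.id_apply, h1 c (T w)]
      cont := T.cont }
  exact (hasFDerivAt_of_restrictScalars ℝ (f' := S) h (by ext w; rfl)).differentiableAt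

/-- The generators of the action are holomorphic. -/
theorem gen_hol {F : (ι → ℝ) × E d → E d} {z : E d} (hs : ContDiffAt ℝ 2 F (0, z))
    (hh : ∀ᶠ p in 𝓝 ((0 : ι → ℝ), z), DifferentiableAt ℂ (fun w => F (p.1, w)) p.2) (ξ : ι → ℝ) :
    DifferentiableAt ℂ (fun w => fderiv ℝ F (0, w) (ξ, 0)) z := by
  have h1 : HasFDerivAt (fderiv ℝ F) (fderiv ℝ (fderiv ℝ F) (0, z)) (0, z) :=
    ((hs.fderiv_right (m := 1) (by norm_num)).differentiableAt one_ne_zero).hasFDerivAt
  have h2 := (hs.isSymmSndFDerivAt (by simp)).eq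
  have h3 : ∀ᶠ p in 𝓝 ((0 : ι → ℝ), z), ∀ w,
      fderiv ℝ F p (0, I • w) = I • fderiv ℝ F p (0, w) := by
    filter_upwards [hh, hs.eventually (by simp)] with p a1 a2 w
    have a3 := HasFDerivAt.comp (f := fun w : E d => (p.1, w)) p.2
      (a2.differentiableAt (by simp)).hasFDerivAt (hasFDerivAt_prodMk_right p.1 p.2)
    have a4 := DFunLike.congr_fun (a3.unique (a1.hasFDerivAt.restrictScalars ℝ))
    have a5 := a4 w
    have a6 := a4 (I • w)
    simp only [ContinuousLinearMap.comp_apply, ContinuousLinearMap.inr_apply,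
      ContinuousLinearMap.coe_restrictScalars', map_smul] at a5 a6
    rw [a5, a6]
  have h4 := (HasFDerivAt.comp (f := fun w : E d => ((0 : ι → ℝ), w)) z h1
    (hasFDerivAt_prodMk_right 0 z)).clm_apply (hasFDerivAt_const ((ξ, 0) : (ι → ℝ) × E d) z)
  refine hol_of h4 fun w => ?_
  have h5 := h1.clm_apply (hasFDerivAt_const ((0, I • w) : (ι → ℝ) × E d) _)
  have h6 := (h1.clm_apply (hasFDerivAt_const ((0, w) : (ι → ℝ) × E d) _)).const_smul I
  have h7 := DFunLike.congr_fun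
    ((h6.congr_of_eventuallyEq (h3.mono fun p hp => hp w)).unique h5) (ξ, 0)
  simpa [h2 (ξ, 0)] using h7.symm

/-- The linear combinations of the fields. -/
def cmb (Ξ : ι → E d → E d) (z : E d) : (ι → ℂ) →L[ℂ] E d :=
  ∑ i, (ContinuousLinearMap.proj i : (ι → ℂ) →L[ℂ] ℂ).smulRight (Ξ i z)

theorem cmb_hol {Ξ : ι → E d → E d} {z : E d} (h : ∀ i, DifferentiableAt ℂ (Ξ i) z) :
    DifferentiableAt ℂ (cmb Ξ) z :=
  (HasFDerivAt.fun_sum fun i _ => (ContinuousLinearMap.smulRightL ℂ (ι → ℂ) (E d)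
    (ContinuousLinearMap.proj i)).hasFDerivAt.comp z (h i).hasFDerivAt).differentiableAt

theorem cmb_cx [DecidableEq ι] (T : (ι → ℝ) × E d →L[ℝ] E d) (θ : ι → ℝ) :
    ∑ i, cx θ i • T (Pi.single i 1, 0) = T (θ, 0) := by
  have h : ((θ, 0) : (ι → ℝ) × E d) = ∑ i, θ i • ((Pi.single i 1, 0) : (ι → ℝ) × E d) := by
    ext j
    · simp [Prod.fst_sum, Pi.single_apply]
    · simp [Prod.snd_sum]
  rw [h, map_sum]
  simp only [map_smul, cx, coe_smul]

theorem tendsto_re {Z : Type} [TopologicalSpace Z] (a : Z) :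
    Tendsto (fun p : (ι → ℂ) × Z => ((fun i => (p.1 i).re : ι → ℝ), p.2)) (𝓝 (0, a))
      (𝓝 (0, a)) :=
  Continuous.tendsto' (by fun_prop) _ _ (by ext <;> simp)

/-- The statement in a chart. -/
theorem core {F : (ι → ℝ) × E d → E d} {a : E d}
    (h : ∀ᶠ p in 𝓝 ((0 : ι → ℝ), a), ContDiffAt ℝ 2 F p ∧
      DifferentiableAt ℂ (fun w => F (p.1, w)) p.2 ∧ F (0, p.2) = p.2 ∧
      ∀ θ, F (θ + p.1, p.2) = F (θ, F p)) :
    ∃ Φ : (ι → ℂ) × E d → E d, ∀ᶠ p in 𝓝 ((0 : ι → ℂ), a), DifferentiableAt ℂ Φ p ∧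
      ∀ θ, p.1 = cx θ → Φ p = F (θ, p.2) := by
  classical
  set Ξ : ι → E d → E d := fun i w => fderiv ℝ F (0, w) (Pi.single i 1, 0) with hΞ
  have t0 : Tendsto (fun w : E d => ((0 : ι → ℝ), w)) (𝓝 a) (𝓝 (0, a)) :=
    Continuous.tendsto (by fun_prop) a
  have h1 : ∀ᶠ z in 𝓝 a, DifferentiableAt ℝ F (0, z) ∧ DifferentiableAt ℂ (cmb Ξ) z := by
    filter_upwards [t0.eventually h.eventually_nhds] with z hz
    exact ⟨hz.self_of_nhds.1.differentiableAt (by simp), cmb_hol fun i =>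
      gen_hol hz.self_of_nhds.1 (hz.mono fun _ h => h.2.1) _⟩
  obtain ⟨K, t, ht, hK⟩ :=
    (SV.H85.contDiffAt_nat (h1.mono fun _ h => h.2) 1).exists_lipschitzOnWith
  have hF : Tendsto F (𝓝 (0, a)) (𝓝 a) := by
    have := h.self_of_nhds
    simpa only [ContinuousAt, this.2.2.1] using this.1.continuousAt
  obtain ⟨δ, hδ, hb⟩ := Metric.mem_nhds_iff.1 (h.and (hF.eventually (h1.and ht)))
  have t1 : Tendsto (Prod.snd : (ι → ℂ) × E d → E d) (𝓝 (0, a)) (𝓝 a) := continuous_snd.tendsto _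
  obtain ⟨r, hr, v, hv, hf⟩ := Pool.Agent.HS85.exists_ray (fun q : (ι → ℂ) × E d => cmb Ξ q.2) a
    (t1.eventually (h1.and ht))
    fun q hq => (hq.1.2.comp q differentiableAt_snd).differentiableWithinAt
  refine ⟨v, ?_⟩
  filter_upwards [ball_mem_nhds _ hr, (tendsto_re a).eventually (ball_mem_nhds _ hδ)]
    with p hp hq
  refine ⟨hv.differentiableAt (isOpen_ball.mem_nhds hp), fun θ hθ => ?_⟩
  have e1 : (fun i => (p.1 i).re) = θ := by rw [hθ]; rfl
  rw [e1] at hq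
  have m1 : ∀ s ∈ Icc (0 : ℝ) 1, (s • θ, p.2) ∈ ball ((0 : ι → ℝ), a) δ := fun s hs => by
    rw [mem_ball]
    rw [Prod.dist_eq, max_lt_iff, dist_zero_right] at hq ⊢
    refine ⟨lt_of_le_of_lt ?_ hq.1, hq.2⟩
    rw [norm_smul, Real.norm_of_nonneg hs.1]
    exact mul_le_of_le_one_left (norm_nonneg _) hs.2
  have d1 : ∀ s ∈ Icc (0 : ℝ) 1, HasDerivAt (fun u : ℝ => v (Pool.Agent.HS85.sc u p))
      (cmb Ξ (v (Pool.Agent.HS85.sc s p)) p.1) s := fun s hs => by
    have a1 := (hv.differentiableAt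
      (isOpen_ball.mem_nhds (Pool.Agent.HS85.sc_mem hs hp))).hasFDerivAt.restrictScalars ℝ
    exact (a1.comp_hasDerivAt s (Pool.Agent.HS85.hasDerivAt_sc p s)).congr_deriv
      ((hf p hp).2.2 s hs)
  have d2 : ∀ s ∈ Icc (0 : ℝ) 1, HasDerivAt (fun u : ℝ => F (u • θ, p.2))
      (cmb Ξ (F (s • θ, p.2)) p.1) s := fun s hs => by
    obtain ⟨a1, a2, -⟩ := hb (m1 s hs)
    have a3 : HasDerivAt (fun u : ℝ => (((u - s) • θ, F (s • θ, p.2)) : (ι → ℝ) × E d))
        (θ, 0) s := by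
      refine HasDerivAt.prodMk ?_ (hasDerivAt_const _ _)
      simpa using ((hasDerivAt_id s).sub_const s).smul_const θ
    have a4 := a2.1.hasFDerivAt.comp_hasDerivAt_of_eq s a3 (by simp)
    refine (a4.congr_of_eventuallyEq (Eventually.of_forall fun u => ?_)).congr_deriv ?_
    · have a5 := a1.2.2.2 ((u - s) • θ)
      simpa only [sub_smul, sub_add_cancel, Function.comp] using a5
    · rw [← cmb_cx, hθ]
      simp [cmb, hΞ]
  have key := ODE_solution_unique_of_mem_Icc_right (v := fun _ x => cmb Ξ x p.1) (s := fun _ => t)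
    (K := ‖p.1‖₊ * K) (a := 0) (b := 1) (fun _ _ => ?_)
    (fun s hs => (d1 s hs).continuousAt.continuousWithinAt)
    (fun s hs => (d1 s (Ico_subset_Icc_self hs)).hasDerivWithinAt)
    (fun s hs => (interior_subset
      (hf _ (Pool.Agent.HS85.sc_mem (Ico_subset_Icc_self hs) hp)).1).2)
    (fun s hs => (d2 s hs).continuousAt.continuousWithinAt)
    (fun s hs => (d2 s (Ico_subset_Icc_self hs)).hasDerivWithinAt)
    (fun s hs => (hb (m1 s (Ico_subset_Icc_self hs))).2.2) ?_ (right_mem_Icc.2 zero_le_one)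
  · simpa using key
  · refine LipschitzOnWith.of_dist_le_mul fun x hx y hy => ?_
    rw [dist_eq_norm, ← sub_apply, NNReal.coe_mul, coe_nnnorm, mul_assoc, mul_comm]
    refine (ContinuousLinearMap.le_opNorm _ _).trans ?_
    rw [← dist_eq_norm]
    exact mul_le_mul_of_nonneg_right (hK.dist_le_mul x hx y hy) (norm_nonneg _)
  · simpa [(hf p hp).2.1] using (hb hq).1.2.2.1.symm

end LOCB

theorem st_LOC : St_LOC := by
  intro ι _ d Y _ _ _ ρ hρ y₀
  set e := chartAt (E d) y₀ with he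
  have m0 : y₀ ∈ e.source := mem_chart_source _ _
  have s1 : ∀ p : (ι → ℝ) × E d, p.2 ∈ e.target →
      ContMDiffAt 𝓘(ℝ, (ι → ℝ) × E d) 𝓘(ℝ, E d) ∞ (fun p => ρ p.1 (e.symm p.2)) p := fun p hp =>
    hρ.sm.contMDiffAt.comp p (contDiff_fst.contMDiff.contMDiffAt.prodMk
      ((sm_symm hp).comp p contDiff_snd.contMDiff.contMDiffAt))
  have s2 : ∀ᶠ p in 𝓝 ((0 : ι → ℝ), e y₀), ρ p.1 (e.symm p.2) ∈ e.source :=
    (s1 (0, e y₀) (e.map_source m0)).continuousAt.eventually_mem (by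
      simpa only [hρ.zero, e.left_inv m0] using e.open_source.mem_nhds m0)
  have s3 : ∀ᶠ p in 𝓝 ((0 : ι → ℝ), e y₀), p.2 ∈ e.target :=
    continuous_snd.continuousAt.eventually_mem (e.open_target.mem_nhds (e.map_source m0))
  obtain ⟨Φ, hΦ⟩ := LOCB.core (F := fun p : (ι → ℝ) × E d => e (ρ p.1 (e.symm p.2))) (a := e y₀) (by
    filter_upwards [s2, s3] with p h2 h3
    refine ⟨(sm_ch (s1 p h3) h2).of_le (WithTop.coe_le_coe.2 (le_top (a := (2 : ℕ∞)))),
      hol_ch ((hρ.hol p.1 _).comp p.2 (hol_symm h3)) h2, ?_, fun θ => ?_⟩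
    · simp only [hρ.zero, e.right_inv h3]
    · simp only [hρ.add, e.left_inv h2])
  have t1 : Tendsto (fun p : (ι → ℂ) × Y => (p.1, e p.2)) (𝓝 (0, y₀)) (𝓝 (0, e y₀)) :=
    continuousAt_fst.prodMk ((e.continuousAt m0).comp continuousAt_snd)
  have t2 : Φ (0, e y₀) = e y₀ := by
    simpa only [hρ.zero, e.left_inv m0] using hΦ.self_of_nhds.2 0 (by ext; simp [cx])
  have t3 : ∀ᶠ q in 𝓝 ((0 : ι → ℂ), e y₀), Φ q ∈ e.target :=
    hΦ.self_of_nhds.1.continuousAt.eventually_mem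
      (t2.symm ▸ e.open_target.mem_nhds (e.map_source m0))
  refine ⟨fun p => e.symm (Φ (p.1, e p.2)), ?_⟩
  filter_upwards [t1.eventually (hΦ.and (t3.and ((LOCB.tendsto_re (e y₀)).eventually s2))),
    continuous_snd.continuousAt.eventually_mem (e.open_source.mem_nhds m0)] with p h1 h2
  refine ⟨(hol_symm h1.2.1).comp p (h1.1.1.mdifferentiableAt.comp p (mdifferentiableAt_fst.prodMk_space
    ((mdifferentiableAt_atlas (chart_mem_atlas (E d) y₀) h2).comp p mdifferentiableAt_snd))),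
    fun θ hθ => ?_⟩
  have e1 : (fun i => (p.1 i).re) = θ := by rw [hθ]; rfl
  have h3 := h1.2.2
  simp only [e1, e.left_inv h2] at h3
  simp only [h1.1.2 θ hθ, e.left_inv h2, e.left_inv h3]

end Pool.Agent.Lib.GT40
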