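import Pool.Agent.Lib.GT40.Blue

/-! Project gt40: the cells of the Grassmannian. -/

open scoped Manifold ContDiff Topology Matrix
open Set Filter Metric Complex Sum

set_option linter.unusedVariables false
set_option linter.unusedSectionVars false

noncomputable section

namespace Pool.Agent.Lib.GT40

namespace MODB

variable {k q : ℕ}

theorem mt_inl (o : Fr k q) (x : V k q) (n m : Fin k) :
    Mt o x (o (inl n)) m = if n = m then 1 else 0 := by
  simp [Mt]

theorem mt_inr (o : Fr k q) (x : V k q) (l : Fin q) (m : Fin k) :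
    Mt o x (o (inr l)) m = x m l := by
  simp [Mt]

theorem sp_sum {P : Gr k q} {A B : Fin (k + q) → Fin k → ℂ} (h : Spans P A)
    (g : Fin k → Fin k → ℂ) (hB : ∀ a m, B a m = ∑ n, A a n * g n m) : Spans P B := by
  have e : Matrix.of B = Matrix.of A * Matrix.of g := by
    ext a m
    simp [Matrix.mul_apply, hB]
  unfold Spans at h ⊢
  rw [e, ← Matrix.mul_assoc, h]

theorem fac {P : Gr k q} {o : Fr k q} {y : V k q} {A : Fin (k + q) → Fin k → ℂ}
    (hv : Matrix.of P.1 = pj (Mt o y)) (h : Spans P A) (a : Fin (k + q)) (m : Fin k) :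
    A a m = ∑ n, Mt o y a n * A (o (inl n)) m := by
  unfold Spans at h
  rw [hv, pj, Matrix.mul_assoc, Matrix.mul_assoc] at h
  set g := ((Matrix.of (Mt o y))ᴴ * Matrix.of (Mt o y))⁻¹ * ((Matrix.of (Mt o y))ᴴ * Matrix.of A)
  have h1 : ∀ b, A b m = ∑ n, Mt o y b n * g n m := fun b => by
    have := congrFun (congrFun h b) m
    simpa [Matrix.mul_apply] using this.symm
  have h2 : ∀ n, A (o (inl n)) m = g n m := fun n => by
    rw [h1]
    simp [mt_inl]
  rw [h1]
  simp only [h2]

theorem mt_tr (o : Fr k q) (i : Fin k) (j : Fin q) (x : V k q) (hx : x i j ≠ 0)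
    (a : Fin (k + q)) (m : Fin k) :
    Mt (sw o i j) (tr i j x) a m = ∑ n, Mt o x a n *
      ((if n = m ∧ m ≠ i then 1 else 0) + if n = i then tr i j x m j else 0) := by
  obtain ⟨b, rfl⟩ := o.surjective a
  have e : Mt (sw o i j) (tr i j x) (o b) m =
      Sum.elim (fun m' => if m' = m then 1 else 0) (fun l => tr i j x m l)
        (Equiv.swap (inl i) (inr j) b) := by
    simp [Mt, sw]
  rw [e]
  simp only [mul_add, Finset.sum_add_distrib, mul_ite, mul_one, mul_zero, Finset.sum_ite_eq',
    Finset.mem_univ, if_true]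
  by_cases hm : m = i
  · subst hm
    simp only [ne_eq, not_true_eq_false, and_false, if_false, Finset.sum_const_zero, zero_add]
    rcases b with n | l
    · by_cases hn : n = m
      · subst hn
        simp [mt_inl]
      · rw [Equiv.swap_apply_of_ne_of_ne (by simpa using hn) (by simp)]
        simp [mt_inl, hn]
    · by_cases hl : l = j
      · subst hl
        simp [mt_inr, tr, hx]
      · rw [Equiv.swap_apply_of_ne_of_ne (by simp) (by simpa using hl)]
        simp [mt_inr, tr, hl, div_eq_mul_inv]
  · simp only [ne_eq, hm, not_false_eq_true, and_true, Finset.sum_ite_eq', Finset.mem_univ,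
      if_true]
    rcases b with n | l
    · by_cases hn : n = i
      · subst hn
        simp [mt_inl, Ne.symm hm]
      · rw [Equiv.swap_apply_of_ne_of_ne (by simpa using hn) (by simp)]
        simp [mt_inl, hn]
    · by_cases hl : l = j
      · subst hl
        simp only [Equiv.swap_apply_right, Sum.elim_inl, Ne.symm hm, if_false, mt_inr, tr, hm,
          if_true]
        field_simp
        ring
      · rw [Equiv.swap_apply_of_ne_of_ne (by simp) (by simpa using hl)]
        simp only [Sum.elim_inr, mt_inr, tr, hm, hl, if_false, if_true]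
        ring

theorem mt_pm (o : Fr k q) (g : Equiv.Perm (Fin k)) (h : Equiv.Perm (Fin q)) (x : V k q)
    (a : Fin (k + q)) (m : Fin k) :
    Mt (pm o g h) (fun m l => x (g m) (h l)) a m = Mt o x a (g m) := by
  obtain ⟨b, rfl⟩ := o.surjective a
  rcases b with n | l
  · simp [Mt, pm, Equiv.symm_apply_eq]
  · simp [Mt, pm]

theorem mt_sc (o : Fr k q) (t : Fin (k + q) → ℂ) (ht : ∀ a, t a ≠ 0) (x : V k q)
    (a : Fin (k + q)) (m : Fin k) :
    Mt o (sc (t ∘ o) x) a m = t a * Mt o x a m / t (o (inl m)) := by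
  obtain ⟨b, rfl⟩ := o.surjective a
  rcases b with n | l
  · rw [mt_inl, mt_inl]
    by_cases h : n = m
    · subst h
      simp [ht]
    · simp [h]
  · rw [mt_inr, mt_inr]
    simp only [sc, Function.comp]
    ring

theorem cont_mt (o : Fr k q) : Continuous fun x : V k q => Matrix.of (Mt o x) := by
  refine continuous_matrix fun a m => ?_
  obtain ⟨b, rfl⟩ := o.surjective a
  rcases b with n | l
  · simp only [Matrix.of_apply, mt_inl]
    exact continuous_const
  · simp only [Matrix.of_apply, mt_inr]
    fun_prop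

theorem cont_inv {X : Type} [TopologicalSpace X] {f : X → Matrix (Fin k) (Fin k) ℂ} {x : X}
    (hf : ContinuousAt f x) (hx : (f x).det ≠ 0) : ContinuousAt (fun z => (f z)⁻¹) x := by
  refine ContinuousAt.comp (f := f) (g := Inv.inv) (continuousAt_matrix_inv _ ?_) hf
  rw [Ring.inverse_eq_inv']
  exact continuousAt_inv₀ hx

theorem cont_mul {X : Type} [TopologicalSpace X] {α β γ : Type} [Fintype β]
    {f : X → Matrix α β ℂ} {g : X → Matrix β γ ℂ} {x : X}
    (hf : ContinuousAt f x) (hg : ContinuousAt g x) : ContinuousAt (fun z => f z * g z) x := by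
  have h : Continuous fun p : Matrix α β ℂ × Matrix β γ ℂ => p.1 * p.2 :=
    continuous_fst.matrix_mul continuous_snd
  exact ContinuousAt.comp (f := fun z => (f z, g z)) h.continuousAt (hf.prodMk hg)

theorem cont_val : Continuous fun P : Gr k q => Matrix.of P.1 :=
  continuous_subtype_val

/-- Conjugation by a diagonal unitary matrix. -/
theorem conj_ex (θ : Fin (k + q) → ℝ) (P : Gr k q) : ∃ P' : Gr k q,
    ∀ a b, P'.1 a b = exp (I * θ a) * P.1 a b * exp (-(I * θ b)) := by
  set D : Matrix (Fin (k + q)) (Fin (k + q)) ℂ := Matrix.diagonal fun a => exp (I * θ a) with hD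
  set D' : Matrix (Fin (k + q)) (Fin (k + q)) ℂ := Matrix.diagonal fun a => exp (-(I * θ a))
    with hD'
  have h1 : D' * D = 1 := by
    rw [hD, hD', Matrix.diagonal_mul_diagonal]
    simp [← Complex.exp_add]
  have h2 : Dᴴ = D' := by
    rw [hD, hD', Matrix.diagonal_conjTranspose]
    congr 1
    funext a
    simp [← Complex.exp_conj]
  have h3 : D'ᴴ = D := by rw [← h2, Matrix.conjTranspose_conjTranspose]
  have e : Matrix.of (fun a b => exp (I * θ a) * P.1 a b * exp (-(I * θ b))) =
      D * Matrix.of P.1 * D' := by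
    ext a b
    simp [hD, hD']
  obtain ⟨p1, p2, p3⟩ := P.2
  refine ⟨⟨fun a b => exp (I * θ a) * P.1 a b * exp (-(I * θ b)), ?_, ?_, ?_⟩, fun a b => rfl⟩
  · rw [e, Matrix.conjTranspose_mul, Matrix.conjTranspose_mul, h2, h3, p1, Matrix.mul_assoc]
  · rw [e]
    calc D * Matrix.of P.1 * D' * (D * Matrix.of P.1 * D')
        = D * (Matrix.of P.1 * (D' * D) * Matrix.of P.1) * D' := by
          simp only [Matrix.mul_assoc]
      _ = _ := by rw [h1, Matrix.mul_one, p2]
  · rw [e, Matrix.trace_mul_comm, ← Matrix.mul_assoc, h1, Matrix.one_mul, p3]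

end MODB

open MODB in
theorem st_MOD (hPJ : St_PJ) : St_MOD := by
  intro k q σ hσ
  obtain ⟨h1, h2, h3, h4, -⟩ := hPJ k q
  have U : ∀ (o : Fr k q) x (P : Gr k q), Spans P (Mt o x) → σ o x = P := fun o x P hP => by
    have := ((h1 _ (h2 o x).1).2.2 P).1 hP
    rw [← hσ.val] at this
    exact Subtype.ext (Matrix.of.injective this.symm)
  have hk : ∀ (o : Fr k q) x, kp o (σ o x).1 = x := fun o x => by
    have e : (σ o x).1 = pj (Mt o x) := hσ.val o x
    rw [e]
    exact (h2 o x).2
  refine ⟨⟨fun o => ?_, fun P => ?_, fun o i j x hx => ?_, fun o i j x hx h0 => ?_,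
    fun t o o' x x' ht h => ?_⟩, fun o g h x => ?_, fun θ o x a b => ?_⟩
  · refine Topology.IsOpenEmbedding.of_continuous_injective_isOpenMap ?_ ?_ fun W hW => ?_
    · refine continuous_induced_rng.2 ?_
      have e : (Subtype.val ∘ σ o) = fun x => (pj (Mt o x) : Fin (k + q) → Fin (k + q) → ℂ) :=
        funext fun x => hσ.val o x
      rw [e]
      refine continuous_iff_continuousAt.2 fun x => ?_
      have c1 := (cont_mt o).continuousAt (x := x)
      have c2 := (cont_mt o).matrix_conjTranspose.continuousAt (x := x)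
      exact cont_mul (cont_mul c1 (cont_inv (cont_mul c2 c1)
        ((Matrix.isUnit_iff_isUnit_det _).1 (h1 _ (h2 o x).1).1).ne_zero)) c2
    · exact fun x y h => by rw [← hk o x, h, hk]
    · have e : σ o '' W = {P : Gr k q |
          ((Matrix.of P.1).submatrix (o ∘ inl) (o ∘ inl)).det ≠ 0} ∩ (fun P => kp o P.1) ⁻¹' W := by
        ext P
        constructor
        · rintro ⟨x, hx, rfl⟩
          exact ⟨(h3 o _).2 ⟨x, hσ.sp o x⟩, by simpa [hk] using hx⟩
        · rintro ⟨hP, hw⟩
          obtain ⟨x, hx⟩ := (h3 o P).1 hP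
          obtain rfl := U o x P hx
          exact ⟨x, by simpa [hk] using hw, rfl⟩
      rw [e]
      have c1 : Continuous fun P : Gr k q => (Matrix.of P.1).submatrix (o ∘ inl) (o ∘ inl) :=
        cont_val.matrix_submatrix _ _
      have c2 : Continuous fun P : Gr k q => (Matrix.of P.1).submatrix (o ∘ inr) (o ∘ inl) :=
        cont_val.matrix_submatrix _ _
      refine ContinuousOn.isOpen_inter_preimage (fun P hP => ?_)
        (isOpen_ne_fun c1.matrix_det continuous_const) hW
      refine ContinuousAt.continuousWithinAt ?_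
      have c3 := cont_mul c2.continuousAt (cont_inv c1.continuousAt hP)
      refine continuousAt_pi.2 fun m => continuousAt_pi.2 fun l => ?_
      exact continuousAt_pi.1 (continuousAt_pi.1 c3 l) m
  · obtain ⟨o, ho⟩ := h4 P
    obtain ⟨x, hx⟩ := (h3 o P).1 ho
    exact ⟨o, x, U o x P hx⟩
  · exact U _ _ _ (sp_sum (hσ.sp o x) _ (mt_tr o i j x hx))
  · obtain ⟨y, hy⟩ := hx
    have hs := hσ.sp o x
    rw [← hy] at hs
    have := fac (hσ.val _ y) hs (o (inl i)) i
    rw [mt_inl, if_pos rfl, Finset.sum_eq_zero] at this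
    · exact one_ne_zero this
    · intro n _
      by_cases hn : n = i
      · subst hn
        have e : sw o n j (inl n) = o (inr j) := by simp [sw]
        rw [e, mt_inr, h0, mul_zero]
      · have e : sw o i j (inl n) = o (inl n) := by
          simp only [sw, Equiv.trans_apply]
          rw [Equiv.swap_apply_of_ne_of_ne (by simpa using hn) (by simp)]
        rw [e, mt_inl, if_neg hn, mul_zero]
  · have hs := hσ.sp o x
    rw [h] at hs
    refine U _ _ _ (sp_sum (hσ.sp o' _)
      (fun n m => t (o' (inl n)) * Mt o x (o' (inl n)) m / t (o (inl m))) fun a m => ?_)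
    rw [mt_sc o t ht, fac (hσ.val o' x') hs a m, Finset.mul_sum, Finset.sum_div]
    refine Finset.sum_congr rfl fun n _ => ?_
    rw [mt_sc o' t ht]
    have := ht (o' (inl n))
    field_simp
  · refine U _ _ _ (sp_sum (hσ.sp o x) (fun n m => if n = g m then 1 else 0) fun a m => ?_)
    rw [mt_pm]
    simp
  · obtain ⟨P', hP'⟩ := conj_ex θ (σ o x)
    rw [U o _ P' ?_, hP']
    have hs := hσ.sp o x
    unfold Spans at hs ⊢
    ext c m
    have := congrFun (congrFun hs c) m
    simp only [Matrix.mul_apply, Matrix.of_apply] at this ⊢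
    simp only [mt_sc o _ (ex_ne _), hP']
    rw [← this, Finset.mul_sum, Finset.sum_div]
    refine Finset.sum_congr rfl fun n _ => ?_
    simp only [ex, cx, Complex.exp_neg]
    have := Complex.exp_ne_zero (I * θ n)
    field_simp

end Pool.Agent.Lib.GT40
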