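import Pool.Agent.Lib.GT40.Blue

/-! Project gt40: projections and bases. -/

open scoped Matrix ComplexOrder
open Set Sum

noncomputable section

namespace Pool.Agent.Lib.GT40

namespace PJ

section gen

variable {n κ : Type} [Fintype n] [Fintype κ] [DecidableEq κ]

theorem gram_unit {A : Matrix n κ ℂ} (h : Function.Injective A.mulVec) : IsUnit (Aᴴ * A) := by
  refine Matrix.mulVec_injective_iff_isUnit.1 fun v w hvw => h ?_
  have h1 : (Aᴴ * A) *ᵥ (v - w) = 0 := by rw [Matrix.mulVec_sub, hvw, sub_self]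
  rw [Matrix.conjTranspose_mul_self_mulVec_eq_zero, Matrix.mulVec_sub] at h1
  exact sub_eq_zero.1 h1

theorem pr_herm (A : Matrix n κ ℂ) : (A * (Aᴴ * A)⁻¹ * Aᴴ)ᴴ = A * (Aᴴ * A)⁻¹ * Aᴴ := by
  simp only [Matrix.conjTranspose_mul, Matrix.conjTranspose_conjTranspose,
    Matrix.conjTranspose_nonsing_inv, Matrix.mul_assoc]

theorem pr_mul {A : Matrix n κ ℂ} (h : IsUnit (Aᴴ * A)) : A * (Aᴴ * A)⁻¹ * Aᴴ * A = A := by
  rw [Matrix.mul_assoc, Matrix.mul_assoc,
    Matrix.nonsing_inv_mul _ ((Matrix.isUnit_iff_isUnit_det _).1 h), Matrix.mul_one]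

theorem pr_idem {A : Matrix n κ ℂ} (h : IsUnit (Aᴴ * A)) :
    A * (Aᴴ * A)⁻¹ * Aᴴ * (A * (Aᴴ * A)⁻¹ * Aᴴ) = A * (Aᴴ * A)⁻¹ * Aᴴ := by
  rw [← Matrix.mul_assoc, ← Matrix.mul_assoc, pr_mul h]

theorem pr_trace {A : Matrix n κ ℂ} (h : IsUnit (Aᴴ * A)) :
    (A * (Aᴴ * A)⁻¹ * Aᴴ).trace = Fintype.card κ := by
  rw [Matrix.trace_mul_comm, ← Matrix.mul_assoc,
    Matrix.mul_nonsing_inv _ ((Matrix.isUnit_iff_isUnit_det _).1 h), Matrix.trace_one]

theorem uniq {P R : Matrix n n ℂ} (hP : Pᴴ = P) (hP2 : P * P = P) (hR : Rᴴ = R) (hR2 : R * R = R)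
    (ht : P.trace = R.trace) (h : P * R = R) : P = R := by
  have h' : R * P = R := by
    have := congrArg Matrix.conjTranspose h
    rwa [Matrix.conjTranspose_mul, hP, hR] at this
  have h0 : ((P - R)ᴴ * (P - R)).trace = 0 := by
    rw [Matrix.conjTranspose_sub, hP, hR, Matrix.sub_mul, Matrix.mul_sub, Matrix.mul_sub, hP2, hR2,
      h, h', sub_self, sub_zero, Matrix.trace_sub, ht, sub_self]
  exact sub_eq_zero.1 (Matrix.trace_conjTranspose_mul_self_eq_zero_iff.1 h0)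

omit [Fintype n] [DecidableEq κ] in
theorem sub3 {α β : Type} (A : Matrix n κ ℂ) (G : Matrix κ κ ℂ) (f : α → n) (g : β → n) :
    (A * G * Aᴴ).submatrix f g = A.submatrix f id * G * (A.submatrix g id)ᴴ := rfl

omit [DecidableEq κ] [Fintype κ] in
theorem gram_col {P : Matrix n n ℂ} (hP : Pᴴ = P) (hP2 : P * P = P) (f : κ → n) :
    (P.submatrix id f)ᴴ * P.submatrix id f = P.submatrix f f := by
  rw [Matrix.conjTranspose_submatrix, hP]
  conv_rhs => rw [← hP2]
  rfl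

omit [DecidableEq κ] [Fintype κ] in
theorem entry_le {P : Matrix n n ℂ} (hP : Pᴴ = P) (hP2 : P * P = P) (a b : n) : ‖P a b‖ ≤ 1 := by
  have h1 : P a a = ((∑ c, ‖P a c‖ ^ 2 : ℝ) : ℂ) := by
    conv_lhs => rw [← hP2, Matrix.mul_apply]
    push_cast
    refine Finset.sum_congr rfl fun c _ => ?_
    have : P c a = star (P a c) := by
      conv_lhs => rw [← hP]
      rfl
    rw [this, Complex.star_def, Complex.mul_conj, Complex.normSq_eq_norm_sq]
    push_cast
    rfl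
  have h0 : 0 ≤ ∑ c, ‖P a c‖ ^ 2 := Finset.sum_nonneg fun c _ => by positivity
  have h2 : ‖P a a‖ = ∑ c, ‖P a c‖ ^ 2 := by
    conv_lhs => rw [h1]
    rw [Complex.norm_real, Real.norm_of_nonneg h0]
  have h3 : ∀ c, ‖P a c‖ ^ 2 ≤ ‖P a a‖ := fun c => by
    rw [h2]
    exact Finset.single_le_sum (f := fun c => ‖P a c‖ ^ 2) (fun c _ => by positivity)
      (Finset.mem_univ c)
  have h4 : ‖P a a‖ ≤ 1 := by
    have := h3 a
    nlinarith [norm_nonneg (P a a)]
  have := h3 b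
  nlinarith [norm_nonneg (P a b)]

omit [DecidableEq κ] [Fintype κ] in
theorem cols [DecidableEq n] {P : Matrix n n ℂ} (hP2 : P * P = P) {k : ℕ} (ht : P.trace = k) :
    ∃ f : Fin k → n, Function.Injective f ∧ Function.Injective (P.submatrix id f).mulVec := by
  obtain ⟨ι, a, ha, hs, hl⟩ := exists_linearIndependent' ℂ P.col
  have : Finite ι := Finite.of_injective a ha
  have := Fintype.ofFinite ι
  have hi : IsIdempotentElem (Matrix.toLin' P) := by
    change Matrix.toLin' P ∘ₗ Matrix.toLin' P = _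
    rw [← Matrix.toLin'_mul, hP2]
  have h1 := (LinearMap.IsIdempotentElem.isProj_range _ hi).trace
  rw [Matrix.trace_toLin'_eq, ht, Matrix.range_toLin', ← hs, finrank_span_eq_card hl] at h1
  have h2 : Fintype.card ι = k := by exact_mod_cast h1.symm
  let e := (Fintype.equivFinOfCardEq h2).symm
  refine ⟨a ∘ e, ha.comp e.injective, Matrix.mulVec_injective_iff.2 ?_⟩
  exact hl.comp e e.injective

end gen

variable {k q : ℕ}

theorem Mt_inl (o : Fr k q) (x : V k q) : (Matrix.of (Mt o x)).submatrix (o ∘ inl) id = 1 := by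
  ext m m'
  simp [Mt, Matrix.one_apply]

theorem Mt_inr (o : Fr k q) (x : V k q) :
    (Matrix.of (Mt o x)).submatrix (o ∘ inr) id = (Matrix.of x)ᵀ := by
  ext m m'
  simp [Mt]

theorem full_Mt (o : Fr k q) (x : V k q) : Full (Mt o x) := by
  intro v w h
  have h1 : ∀ u, ((Matrix.of (Mt o x)) *ᵥ u) ∘ (o ∘ inl) = u := fun u => by
    change (Matrix.of (Mt o x)).submatrix (o ∘ inl) id *ᵥ u = u
    rw [Mt_inl, Matrix.one_mulVec]
  rw [← h1 v, ← h1 w, h]

theorem part1 (A : Fin (k + q) → Fin k → ℂ) (h : Full A) :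
    IsUnit ((Matrix.of A)ᴴ * Matrix.of A) ∧ (∃ P : Gr k q, Matrix.of P.1 = pj A) ∧
      ∀ P : Gr k q, Spans P A ↔ Matrix.of P.1 = pj A := by
  have hu := gram_unit h
  have ht : (pj A).trace = k := (pr_trace hu).trans (by simp)
  refine ⟨hu, ⟨⟨pj A, pr_herm (Matrix.of A), pr_idem hu, ht⟩, rfl⟩, fun P => ⟨fun hs => ?_, fun hs => ?_⟩⟩
  · refine uniq P.2.1 P.2.2.1 (pr_herm _) (pr_idem hu) (P.2.2.2.trans ht.symm) ?_
    unfold Spans at hs
    rw [pj, ← Matrix.mul_assoc, ← Matrix.mul_assoc, hs]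
  · unfold Spans
    rw [hs]
    exact pr_mul hu

theorem pj_KK (o : Fr k q) (x : V k q) : (pj (Mt o x)).submatrix (o ∘ inl) (o ∘ inl) =
    ((Matrix.of (Mt o x))ᴴ * Matrix.of (Mt o x))⁻¹ := by
  rw [pj, sub3, Mt_inl, Matrix.one_mul, Matrix.conjTranspose_one, Matrix.mul_one]

theorem kp_pj (o : Fr k q) (x : V k q) : kp o (pj (Mt o x)) = x := by
  have hu := (Matrix.isUnit_iff_isUnit_det _).1 (gram_unit (full_Mt o x))
  funext m l
  change ((pj (Mt o x)).submatrix (o ∘ inr) (o ∘ inl) *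
    ((pj (Mt o x)).submatrix (o ∘ inl) (o ∘ inl))⁻¹) l m = _
  rw [pj_KK, Matrix.nonsing_inv_nonsing_inv _ hu, pj, sub3, Mt_inl, Mt_inr,
    Matrix.conjTranspose_one, Matrix.mul_one, Matrix.mul_assoc, Matrix.nonsing_inv_mul _ hu,
    Matrix.mul_one]
  rfl

theorem part3 (o : Fr k q) (P : Gr k q) :
    ((Matrix.of P.1).submatrix (o ∘ inl) (o ∘ inl)).det ≠ 0 ↔ ∃ x, Spans P (Mt o x) := by
  constructor
  · intro h
    refine ⟨kp o P.1, ?_⟩
    have hM : Matrix.of (Mt o (kp o P.1)) = (Matrix.of P.1).submatrix id (o ∘ inl) *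
        ((Matrix.of P.1).submatrix (o ∘ inl) (o ∘ inl))⁻¹ := by
      ext a m
      obtain ⟨a, rfl⟩ := o.surjective a
      rcases a with a | a
      · have h1 := congrFun (congrFun (Matrix.mul_nonsing_inv _ (isUnit_iff_ne_zero.2 h)) a) m
        have h2 := congrFun (congrFun (Mt_inl o (kp o P.1)) a) m
        exact h2.trans h1.symm
      · exact congrFun (congrFun (Mt_inr o (kp o P.1)) a) m
    unfold Spans
    rw [hM, ← Matrix.mul_assoc]
    congr 1
    conv_rhs => rw [← P.2.2.1]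
    rfl
  · rintro ⟨x, hx⟩
    have hu := (Matrix.isUnit_iff_isUnit_det _).1 (gram_unit (full_Mt o x))
    rw [((part1 _ (full_Mt o x)).2.2 P).1 hx, pj_KK]
    exact (Matrix.isUnit_nonsing_inv_det _ hu).ne_zero

theorem part4 (P : Gr k q) :
    ∃ o : Fr k q, ((Matrix.of P.1).submatrix (o ∘ inl) (o ∘ inl)).det ≠ 0 := by
  obtain ⟨f, hf, hi⟩ := cols P.2.2.1 P.2.2.2
  obtain ⟨σ, hσ⟩ := Equiv.Perm.exists_extending_pair
    (fun m : Fin k => finSumFinEquiv (inl m : Fin k ⊕ Fin q)) f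
    (finSumFinEquiv.injective.comp inl_injective) hf
  refine ⟨finSumFinEquiv.trans σ, ?_⟩
  have h1 : (finSumFinEquiv.trans σ : Fr k q) ∘ inl = f := funext fun m => hσ m
  rw [h1, ← gram_col P.2.1 P.2.2.1]
  exact ((Matrix.isUnit_iff_isUnit_det _).1 (gram_unit hi)).ne_zero

theorem part5 : CompactSpace (Gr k q) := by
  refine isCompact_iff_compactSpace.1 ?_
  have hc : IsCompact (Set.pi univ fun _ : Fin (k + q) => Set.pi univ fun _ : Fin (k + q) =>
      Metric.closedBall (0 : ℂ) 1) :=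
    isCompact_univ_pi fun _ => isCompact_univ_pi fun _ => isCompact_closedBall _ _
  have c0 : Continuous fun P : Fin (k + q) → Fin (k + q) → ℂ => Matrix.of P := continuous_id
  refine hc.of_isClosed_subset ?_ fun P hP a _ b _ => ?_
  · exact (isClosed_eq c0.matrix_conjTranspose c0).inter ((isClosed_eq (c0.matrix_mul c0) c0).inter
      (isClosed_eq c0.matrix_trace continuous_const))
  · rw [mem_closedBall_zero_iff]
    exact entry_le hP.1 hP.2.1 a b

end PJ

theorem st_PJ : St_PJ := fun _ _ =>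
  ⟨PJ.part1, fun o x => ⟨PJ.full_Mt o x, PJ.kp_pj o x⟩, PJ.part3, PJ.part4, PJ.part5⟩

end Pool.Agent.Lib.GT40
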