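import Pool.Agent.Lib.GT40.Blue

/-! Project gt40, block SG1: the orientation is constant along an axis. -/

open scoped Manifold ContDiff Topology Matrix
open Set Filter Metric Complex Sum

set_option linter.unusedVariables false
set_option linter.unusedSectionVars false

noncomputable section

namespace Pool.Agent.Lib.GT40

namespace SG1B

variable {k q d : ℕ} {Y : Type} [TopologicalSpace Y] [ChartedSpace (E d) Y]
  [IsManifold 𝓘(ℂ, E d) ω Y]

/-- A holomorphic map acts on real differentials by a complex linear map. -/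
theorem chg {s : V k q → Y} {f : Y → Y} {x : V k q} {p p' : Y}
    (hs : ContMDiffAt 𝓘(ℝ, V k q) 𝓘(ℝ, E d) ∞ s x)
    (hf : MDifferentiableAt 𝓘(ℂ, E d) 𝓘(ℂ, E d) f (s x))
    (hp : s x ∈ (chartAt (E d) p).source) (hp' : f (s x) ∈ (chartAt (E d) p').source) :
    ∃ L : E d →L[ℂ] E d, ∀ v, fderiv ℝ (chartAt (E d) p' ∘ f ∘ s) x v =
      L (fderiv ℝ (chartAt (E d) p ∘ s) x v) := by
  have hz := (chartAt (E d) p).map_source hp
  have hl := (chartAt (E d) p).left_inv hp
  have h1 : MDifferentiableAt 𝓘(ℂ, E d) 𝓘(ℂ, E d) (f ∘ (chartAt (E d) p).symm)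
      (chartAt (E d) p (s x)) := MDifferentiableAt.comp _ (by rw [hl]; exact hf) (hol_symm hz)
  have h2 : DifferentiableAt ℂ (chartAt (E d) p' ∘ (f ∘ (chartAt (E d) p).symm))
      (chartAt (E d) p (s x)) := hol_ch h1 (by rw [Function.comp_apply, hl]; exact hp')
  have h3 : DifferentiableAt ℝ (chartAt (E d) p ∘ s) x :=
    (sm_ch hs hp).differentiableAt (by simp)
  have h4 := (h2.hasFDerivAt.restrictScalars ℝ).comp x h3.hasFDerivAt
  have h5 : (chartAt (E d) p' ∘ f ∘ s) =ᶠ[𝓝 x]
      (chartAt (E d) p' ∘ (f ∘ (chartAt (E d) p).symm)) ∘ (chartAt (E d) p ∘ s) := by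
    filter_upwards [hs.continuousAt.preimage_mem_nhds
      ((chartAt (E d) p).open_source.mem_nhds hp)] with y hy
    simp only [Function.comp_apply]
    rw [(chartAt (E d) p).left_inv hy]
  refine ⟨fderiv ℂ (chartAt (E d) p' ∘ (f ∘ (chartAt (E d) p).symm)) (chartAt (E d) p (s x)),
    fun v => ?_⟩
  rw [h5.fderiv_eq, h4.fderiv]
  rfl

variable {s : Fr k q → V k q → Y} {κ : Fr k q → Y → V k q} {ρ : (Fin (k + q) → ℝ) → Y → Y}

/-- The real differential of a cell is bijective. -/
theorem bij (h : Dat d s κ ρ) (o : Fr k q) (x : V k q) : Function.Bijective (Dv d (s o) x) := by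
  have hp := mem_chart_source (E d) (s o x)
  set e := chartAt (E d) (s o x) with he
  have hz := e.map_source hp
  have hl := e.left_inv hp
  have h1 : DifferentiableAt ℝ (e ∘ s o) x := (sm_ch (h.sm o x) hp).differentiableAt (by simp)
  have h2 : ContMDiffAt 𝓘(ℝ, E d) 𝓘(ℝ, V k q) ∞ (κ o ∘ e.symm) (e (s o x)) :=
    ContMDiffAt.comp _ (by rw [hl]; exact h.smi o x) (sm_symm hz)
  have h3 : DifferentiableAt ℝ (κ o ∘ e.symm) (e (s o x)) :=
    (contMDiffAt_iff_contDiffAt.1 h2).differentiableAt (by simp)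
  have hx : (κ o ∘ e.symm) (e (s o x)) = x := by rw [Function.comp_apply, hl, h.inv]
  have h4 : ((κ o ∘ e.symm) ∘ (e ∘ s o)) =ᶠ[𝓝 x] id := by
    filter_upwards [(h.sm o x).continuousAt.preimage_mem_nhds (e.open_source.mem_nhds hp)]
      with y hy
    simp only [Function.comp_apply, id]
    rw [e.left_inv hy, h.inv]
  have h5 : ((e ∘ s o) ∘ (κ o ∘ e.symm)) =ᶠ[𝓝 (e (s o x))] id := by
    have hc : ContinuousAt e.symm (e (s o x)) := e.continuousAt_symm hz
    have hr : range (s o) ∈ 𝓝 (e.symm (e (s o x))) := by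
      rw [hl]
      exact (h.op o).mem_nhds ⟨x, rfl⟩
    filter_upwards [hc.preimage_mem_nhds hr, e.open_target.mem_nhds hz] with z hz1 hz2
    obtain ⟨y, hy⟩ := hz1
    simp only [Function.comp_apply, id]
    rw [← hy, h.inv, hy, e.right_inv hz2]
  have h6 := h3.hasFDerivAt.comp x h1.hasFDerivAt
  have h1' : HasFDerivAt (e ∘ s o) (fderiv ℝ (e ∘ s o) x) ((κ o ∘ e.symm) (e (s o x))) := by
    rw [hx]
    exact h1.hasFDerivAt
  have h7 := h1'.comp _ h3.hasFDerivAt
  have h8 := h6.fderiv
  have h9 := h7.fderiv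
  rw [h4.fderiv_eq, fderiv_id] at h8
  rw [h5.fderiv_eq, fderiv_id] at h9
  constructor
  · refine Function.LeftInverse.injective (g := fderiv ℝ (κ o ∘ e.symm) (e (s o x))) fun v => ?_
    exact (DFunLike.congr_fun h8 v).symm
  · refine Function.RightInverse.surjective (g := fderiv ℝ (κ o ∘ e.symm) (e (s o x))) fun v => ?_
    exact (DFunLike.congr_fun h9 v).symm

/-- The sign attached to an index. -/
def sg (a b : Fin k ⊕ Fin q) : ℝ := if b = a then -1 else 1

theorem ex_pi (o : Fr k q) (a b : Fin k ⊕ Fin q) :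
    (ex (cx (Pi.single (o a) Real.pi : Fin (k + q) → ℝ)) ∘ o) b = (sg a b : ℂ) := by
  simp only [Function.comp_apply, ex, cx, sg]
  by_cases hb : b = a
  · subst hb
    rw [Pi.single_eq_same, if_pos rfl, mul_comm, exp_pi_mul_I]
    simp
  · rw [Pi.single_eq_of_ne (fun e => hb (o.injective e)), if_neg hb]
    simp

/-- The sign change of the coordinates, as a real linear map. -/
def scL (a : Fin k ⊕ Fin q) : V k q →L[ℝ] V k q :=
  ContinuousLinearMap.pi fun m => ContinuousLinearMap.pi fun l =>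
    (sg a (inr l) / sg a (inl m)) • ((ContinuousLinearMap.proj l).comp
      (ContinuousLinearMap.proj (R := ℝ) (φ := fun _ : Fin k => Fin q → ℂ) m))

theorem scL_apply (a : Fin k ⊕ Fin q) (v : V k q) (m : Fin k) (l : Fin q) :
    scL a v m l = ((sg a (inr l) / sg a (inl m) : ℝ) : ℂ) * v m l := by
  simp [scL]

theorem sc_eq (o : Fr k q) (a : Fin k ⊕ Fin q) (v : V k q) :
    sc (ex (cx (Pi.single (o a) Real.pi : Fin (k + q) → ℝ)) ∘ o) v = scL a v := by
  funext m l
  rw [scL_apply, sc, ex_pi, ex_pi]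
  push_cast
  rfl

theorem scL_ax (a : Fin k ⊕ Fin q) (m : Fin k) (l : Fin q) (w : ℂ) :
    scL a (ax m l w) = (sg a (inr l) / sg a (inl m)) • ax m l w := by
  funext m' l'
  rw [scL_apply, Pi.smul_apply, Pi.smul_apply, real_smul]
  by_cases hc : m' = m ∧ l' = l
  · rw [hc.1, hc.2]
  · simp [ax, hc]

/-- The sign changes that fix a point of an axis act complex linearly. -/
theorem equi (h : Dat d s κ ρ) (o : Fr k q) {i : Fin k} {j : Fin q} (w : ℂ) {a : Fin k ⊕ Fin q}
    (h1 : inl i ≠ a) (h2 : inr j ≠ a) : ∃ L : E d →L[ℂ] E d, ∀ v,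
      Dv d (s o) (ax i j w) (scL a v) = L (Dv d (s o) (ax i j w) v) := by
  have hx : scL a (ax i j w) = ax i j w := by
    rw [scL_ax]
    simp [sg, h1, h2]
  set x := ax i j w with hxd
  set θ : Fin (k + q) → ℝ := Pi.single (o a) Real.pi with hθ
  have he : ρ θ ∘ s o = s o ∘ scL a := by
    funext y
    simp only [Function.comp_apply]
    rw [h.eqv, hθ, sc_eq]
  have hp := mem_chart_source (E d) (s o x)
  have hf : ρ θ (s o x) = s o x := by
    have := congrFun he x
    simpa only [Function.comp_apply, hx] using this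
  obtain ⟨L, hL⟩ := chg (p := s o x) (p' := s o x) (h.sm o x) (h.hol θ (s o x)) hp
    (by rw [hf]; exact hp)
  refine ⟨L, fun v => ?_⟩
  have h3 : HasFDerivAt (chartAt (E d) (s o x) ∘ s o) (Dv d (s o) x) (scL a x) := by
    rw [hx]
    exact ((sm_ch (h.sm o x) hp).differentiableAt (by simp)).hasFDerivAt
  have h4 := (h3.comp x (scL a).hasFDerivAt).fderiv
  have h5 := hL v
  rw [he, ← Function.comp_assoc, h4] at h5
  exact h5

theorem ax_eq (m : Fin k) (l : Fin q) (z : ℂ) :
    ax m l z = z.re • ax m l 1 + z.im • (I • ax m l 1) := by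
  funext m' l'
  simp only [ax, Pi.add_apply, Pi.smul_apply, real_smul, smul_eq_mul]
  by_cases hc : m' = m ∧ l' = l
  · simp only [if_pos hc, mul_one, re_add_im]
  · simp only [if_neg hc, mul_zero, add_zero]

/-- The image of a coordinate line is a complex line. -/
theorem exi (h : Dat d s κ ρ) (o : Fr k q) (i : Fin k) (j : Fin q) (w : ℂ) (m : Fin k)
    (l : Fin q) : ∃ a b : ℝ, b ≠ 0 ∧ I • Dv d (s o) (ax i j w) (ax m l 1) =
      a • Dv d (s o) (ax i j w) (ax m l 1) + b • Dv d (s o) (ax i j w) (I • ax m l 1) := by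
  obtain ⟨hi, hs⟩ := bij h o (ax i j w)
  obtain ⟨u, hu⟩ := hs (I • Dv d (s o) (ax i j w) (ax m l 1))
  have key : ∀ a : Fin k ⊕ Fin q, inl i ≠ a → inr j ≠ a → ∀ m' l',
      sg a (inr l') / sg a (inl m') ≠ sg a (inr l) / sg a (inl m) → u m' l' = 0 := by
    intro a h1 h2 m' l' hne
    obtain ⟨L, hL⟩ := equi h o w h1 h2
    have e1 : scL a u = (sg a (inr l) / sg a (inl m)) • u := by
      apply hi
      rw [hL, hu, map_smul, ← hL, scL_ax, map_smul, map_smul, hu, smul_comm]
    have e2 := congrFun (congrFun e1 m') l'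
    rw [scL_apply, Pi.smul_apply, Pi.smul_apply, real_smul] at e2
    by_contra h0
    exact hne (ofReal_injective (mul_right_cancel₀ h0 e2))
  have hu' : u = ax m l (u m l) := by
    funext m' l'
    by_cases hm : m' = m
    · by_cases hl : l' = l
      · simp [ax, hm, hl]
      · rw [ax, if_neg (fun c => hl c.2)]
        by_cases hj : l' = j
        · refine key (inr l) (by simp) (by simpa [← hj] using hl) m' l' ?_
          simp only [sg, inr.injEq, hl, if_false, if_true, reduceCtorEq]
          norm_num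
        · refine key (inr l') (by simp) (by simpa using fun c => hj c.symm) m' l' ?_
          have hl' : ¬l = l' := fun c => hl c.symm
          simp only [sg, inr.injEq, hl', if_false, if_true, reduceCtorEq]
          norm_num
    · rw [ax, if_neg (fun c => hm c.1)]
      by_cases hj : m' = i
      · refine key (inl m) (by simpa [← hj] using hm) (by simp) m' l' ?_
        simp only [sg, inl.injEq, hm, if_false, if_true, reduceCtorEq]
        norm_num
      · refine key (inl m') (by simpa using fun c => hj c.symm) (by simp) m' l' ?_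
        have hm' : ¬m = m' := fun c => hm c.symm
        simp only [sg, inl.injEq, hm', if_false, if_true, reduceCtorEq]
        norm_num
  have e3 : I • Dv d (s o) (ax i j w) (ax m l 1) =
      (u m l).re • Dv d (s o) (ax i j w) (ax m l 1) +
        (u m l).im • Dv d (s o) (ax i j w) (I • ax m l 1) := by
    have e0 := congrArg (Dv d (s o) (ax i j w)) (hu'.trans (ax_eq m l (u m l)))
    rw [map_add, map_smul, map_smul, hu] at e0
    exact e0
  refine ⟨(u m l).re, (u m l).im, fun h0 => ?_, e3⟩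
  rw [h0, zero_smul, add_zero, ← Complex.coe_smul, ← sub_eq_zero, ← sub_smul] at e3
  rcases smul_eq_zero.1 e3 with c | c
  · have := congrArg im c
    simp at this
  · have c' : ax m l (1 : ℂ) = 0 := hi (by rw [c, map_zero])
    have := congrFun (congrFun c' m) l
    simp [ax] at this

theorem excl (h : Dat d s κ ρ) (o : Fr k q) (x : V k q) (m : Fin k) (l : Fin q) :
    ¬(Ori d (s o) x (ax m l 1) 1 ∧ Ori d (s o) x (ax m l 1) (-1)) := by
  rintro ⟨⟨a, b, hb, e⟩, ⟨a', b', hb', e'⟩⟩
  rw [e, ← map_smul, ← map_smul, ← map_smul, ← map_smul, ← map_add, ← map_add] at e'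
  have c := congrArg im (congrFun (congrFun ((bij h o x).1 e') m) l)
  simp [ax] at c
  linarith

theorem cont_ax (i : Fin k) (j : Fin q) : Continuous (ax i j : ℂ → V k q) := by
  refine continuous_pi fun m => continuous_pi fun l => ?_
  by_cases hc : m = i ∧ l = j
  · simp only [ax, if_pos hc]
    exact continuous_id
  · simp only [ax, if_neg hc]
    exact continuous_const

theorem sq_eq {P R : ℂ} {a b : ℝ} (e : I * P = a * P + b * R) :
    b * (R.im * P.re - R.re * P.im) = P.re ^ 2 + P.im ^ 2 := by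
  have h1 := congrArg re e
  have h2 := congrArg im e
  simp at h1 h2
  linear_combination P.im * h1 - P.re * h2

theorem opn (h : Dat d s κ ρ) (o : Fr k q) (i : Fin k) (j : Fin q) (m : Fin k) (l : Fin q)
    (ε : ℝ) : IsOpen {w : ℂ | Ori d (s o) (ax i j w) (ax m l 1) ε} := by
  refine isOpen_iff_mem_nhds.2 fun w₀ hw => ?_
  obtain ⟨a₀, b₀, hb₀, e₀⟩ := hw
  have hp := mem_chart_source (E d) (s o (ax i j w₀))
  set e := chartAt (E d) (s o (ax i j w₀)) with he
  have hne : Dv d (s o) (ax i j w₀) (ax m l 1) ≠ 0 := fun c => by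
    have c' : ax m l (1 : ℂ) = 0 := (bij h o _).1 (by rw [c, map_zero])
    have := congrFun (congrFun c' m) l
    simp [ax] at this
  obtain ⟨c, hc⟩ := Function.ne_iff.1 hne
  have h1 : ContinuousAt (fun w => fderiv ℝ (e ∘ s o) (ax i j w)) w₀ :=
    ContinuousAt.comp (f := ax i j) ((sm_ch (h.sm o _) hp).continuousAt_fderiv (by simp))
      (cont_ax i j).continuousAt
  have h2 : ∀ v, ContinuousAt (fun w => fderiv ℝ (e ∘ s o) (ax i j w) v c) w₀ := fun v =>
    (continuous_apply c).continuousAt.comp (h1.clm_apply continuousAt_const)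
  set P : ℂ → ℂ := fun w => fderiv ℝ (e ∘ s o) (ax i j w) (ax m l 1) c with hP
  set R : ℂ → ℂ := fun w => fderiv ℝ (e ∘ s o) (ax i j w) (I • ax m l 1) c with hR
  have cP : ContinuousAt P w₀ := h2 _
  have cR : ContinuousAt R w₀ := h2 _
  have cg : ContinuousAt (fun w => ε * ((R w).im * (P w).re - (R w).re * (P w).im)) w₀ :=
    continuousAt_const.mul
      (((continuous_im.continuousAt.comp cR).mul (continuous_re.continuousAt.comp cP)).sub
        ((continuous_re.continuousAt.comp cR).mul (continuous_im.continuousAt.comp cP)))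
  have g0 : 0 < ε * ((R w₀).im * (P w₀).re - (R w₀).re * (P w₀).im) := by
    have e1 : I * P w₀ = a₀ * P w₀ + b₀ * R w₀ := congrFun e₀ c
    have e2 := sq_eq e1
    have e3 : 0 < (P w₀).re ^ 2 + (P w₀).im ^ 2 := by
      have := normSq_pos.2 (show P w₀ ≠ 0 from hc)
      rw [normSq_apply] at this
      nlinarith
    have hb : b₀ ≠ 0 := fun c => by simp [c] at hb₀
    have e4 : 0 < b₀ ^ 2 * (ε * ((R w₀).im * (P w₀).re - (R w₀).re * (P w₀).im)) := by
      have := mul_pos hb₀ e3
      rw [← e2] at this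
      nlinarith
    exact (mul_pos_iff_of_pos_left (by positivity)).1 e4
  have hsrc : ∀ᶠ w in 𝓝 w₀, s o (ax i j w) ∈ e.source :=
    ((h.sm o).continuous.comp (cont_ax i j)).continuousAt.preimage_mem_nhds
      (e.open_source.mem_nhds hp)
  filter_upwards [cg.eventually (lt_mem_nhds g0), hsrc] with w hw1 hw2
  obtain ⟨a, b, hb, e1⟩ := exi h o i j w m l
  refine ⟨a, b, ?_, e1⟩
  obtain ⟨L, hL⟩ := chg (f := id) (p := s o (ax i j w)) (p' := s o (ax i j w₀)) (h.sm o _)
    mdifferentiableAt_id (mem_chart_source (E d) _) hw2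
  have e2 := congrArg L e1
  rw [map_smul, map_add, L.map_smul_of_tower, L.map_smul_of_tower] at e2
  have e3 : I * P w = a * P w + b * R w := by
    have := congrFun e2 c
    simp only [Dv, ← hL] at this
    exact this
  have e4 := sq_eq e3
  have hε : ε ≠ 0 := fun c => by simp [c] at hb₀
  have e5 : 0 ≤ (ε * b) * (ε * ((R w).im * (P w).re - (R w).re * (P w).im)) := by
    have : (ε * b) * (ε * ((R w).im * (P w).re - (R w).re * (P w).im)) =
        ε ^ 2 * ((P w).re ^ 2 + (P w).im ^ 2) := by rw [← e4]; ring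
    rw [this]
    positivity
  exact lt_of_le_of_ne (nonneg_of_mul_nonneg_left e5 hw1) (mul_ne_zero hε hb).symm

end SG1B

open SG1B in
theorem st_SG1 : St_SG1 := by
  intro k q d Y _ _ _ s κ ρ h o i j m l
  refine ⟨?_, fun w => excl h o _ m l⟩
  have hu : (univ : Set ℂ) ⊆ {w : ℂ | Ori d (s o) (ax i j w) (ax m l 1) 1} ∪
      {w : ℂ | Ori d (s o) (ax i j w) (ax m l 1) (-1)} := fun w _ => by
    obtain ⟨a, b, hb, e⟩ := exi h o i j w m l
    rcases lt_or_gt_of_ne hb with c | c
    · exact Or.inr ⟨a, b, by linarith, e⟩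
    · exact Or.inl ⟨a, b, by linarith, e⟩
  rcases isPreconnected_univ.subset_or_subset (opn h o i j m l 1) (opn h o i j m l (-1))
    (disjoint_left.2 fun w h1 h2 => excl h o _ m l ⟨h1, h2⟩) hu with c | c
  · exact Or.inl fun w => c (mem_univ w)
  · exact Or.inr fun w => c (mem_univ w)

end Pool.Agent.Lib.GT40
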