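import Pool.Agent.Lib.GT40.Blue

/-! Project gt40, block SG2: all orientations agree. -/

open scoped Manifold ContDiff Topology Matrix
open Set Filter Metric Complex Sum

set_option linter.unusedVariables false
set_option linter.unusedSectionVars false

noncomputable section

namespace Pool.Agent.Lib.GT40

namespace SG2B

variable {k q d : ℕ} {Y : Type} [TopologicalSpace Y] [ChartedSpace (E d) Y]
  [IsManifold 𝓘(ℂ, E d) ω Y]

theorem ori_neg {s : V k q → Y} {x v : V k q} {ε : ℝ} (h : Ori d s x v ε) : Ori d s x (-v) ε := by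
  obtain ⟨a, b, h1, h2⟩ := h
  refine ⟨a, b, h1, ?_⟩
  rw [smul_neg, map_neg, map_neg, smul_neg, smul_neg, smul_neg, h2, neg_add]

theorem dv_comp {s s' : V k q → Y} {T : V k q → V k q} {L : V k q →L[ℂ] V k q} {x : V k q}
    (hT : HasFDerivAt T L x) (he : s =ᶠ[𝓝 x] s' ∘ T)
    (hs : ContMDiffAt 𝓘(ℝ, V k q) 𝓘(ℝ, E d) ∞ s' (T x)) (v : V k q) :
    Dv d s x v = Dv d s' (T x) (L v) := by
  have e0 : s x = s' (T x) := he.eq_of_nhds
  have h1 : DifferentiableAt ℝ (chartAt (E d) (s' (T x)) ∘ s') (T x) :=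
    (sm_ch hs (mem_chart_source _ _)).differentiableAt (by simp)
  have h2 := h1.hasFDerivAt.comp x (hT.restrictScalars ℝ)
  have h3 : chartAt (E d) (s' (T x)) ∘ s =ᶠ[𝓝 x] (chartAt (E d) (s' (T x)) ∘ s') ∘ T :=
    he.fun_comp _
  rw [Dv, Dv, e0, h3.fderiv_eq, h2.fderiv]
  rfl

theorem ori_comp {s s' : V k q → Y} {T : V k q → V k q} {L : V k q →L[ℂ] V k q} {x : V k q}
    (hT : HasFDerivAt T L x) (he : s =ᶠ[𝓝 x] s' ∘ T)
    (hs : ContMDiffAt 𝓘(ℝ, V k q) 𝓘(ℝ, E d) ∞ s' (T x)) (v : V k q) (ε : ℝ) :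
    Ori d s x v ε ↔ Ori d s' (T x) (L v) ε := by
  simp only [Ori, dv_comp hT he hs, map_smul]

/-- A coordinate. -/
def co (m : Fin k) (l : Fin q) : V k q →L[ℂ] ℂ :=
  (ContinuousLinearMap.proj l).comp
    (ContinuousLinearMap.proj (R := ℂ) (φ := fun _ : Fin k => Fin q → ℂ) m)

theorem co_apply (m : Fin k) (l : Fin q) (v : V k q) : co m l v = v m l := rfl

/-- The change of sign of one column. -/
def fl (k : ℕ) (j : Fin q) : V k q →L[ℂ] V k q :=
  ContinuousLinearMap.pi fun m => ContinuousLinearMap.pi fun l =>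
    (if l = j then (-1 : ℂ) else 1) • co m l

theorem fl_apply (j : Fin q) (v : V k q) (m : Fin k) (l : Fin q) :
    fl k j v m l = (if l = j then (-1 : ℂ) else 1) * v m l := rfl

theorem tr_ax (i : Fin k) (j : Fin q) : tr i j (ax i j 1) = ax i j 1 := by
  funext m l
  by_cases h1 : m = i <;> by_cases h2 : l = j <;> simp [tr, ax, h1, h2]

theorem tr_der (i : Fin k) (j : Fin q) : HasFDerivAt (tr i j) (fl k j) (ax i j 1) := by
  have hc : ∀ m l, HasFDerivAt (fun y : V k q => y m l) (co m l) (ax i j 1) :=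
    fun m l => (co m l).hasFDerivAt
  have h1 : ax i j (1 : ℂ) i j = 1 := by simp [ax]
  have hi : HasFDerivAt (fun y : V k q => (y i j)⁻¹) (-co i j) (ax i j 1) := by
    have h := (hasDerivAt_inv (x := ax i j (1 : ℂ) i j) (by rw [h1]; exact one_ne_zero)).comp_hasFDerivAt
      (ax i j 1) (hc i j)
    refine h.congr_fderiv ?_
    ext v
    simp [h1]
  refine hasFDerivAt_pi'' fun m => hasFDerivAt_pi'' fun l => ?_
  by_cases a1 : m = i <;> by_cases a2 : l = j
  · refine (hi.congr_fderiv ?_).congr_of_eventuallyEq (Eventually.of_forall fun y => ?_)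
    · ext v
      simp [fl_apply, co_apply, a1, a2]
    · simp [tr, a1, a2]
  · refine (((hc i l).mul hi).congr_fderiv ?_).congr_of_eventuallyEq
      (Eventually.of_forall fun y => ?_)
    · ext v
      simp [fl_apply, co_apply, a1, a2, ax]
    · simp [tr, a1, a2, div_eq_mul_inv]
  · refine (((hc m j).mul hi).neg.congr_fderiv ?_).congr_of_eventuallyEq
      (Eventually.of_forall fun y => ?_)
    · ext v
      simp [fl_apply, co_apply, a1, a2, ax]
    · simp [tr, a1, a2, div_eq_mul_inv]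
  · refine (((hc m l).sub (((hc m j).mul (hc i l)).mul hi)).congr_fderiv ?_).congr_of_eventuallyEq
      (Eventually.of_forall fun y => ?_)
    · ext v
      simp [fl_apply, co_apply, a1, a2, ax]
    · simp [tr, a1, a2, div_eq_mul_inv]

theorem fl_ax (j : Fin q) (m : Fin k) (l : Fin q) :
    fl k j (ax m l 1) = ax m l 1 ∨ -fl k j (ax m l 1) = ax m l 1 := by
  by_cases h : l = j
  · right
    funext m' l'
    by_cases a1 : m' = m <;> by_cases a2 : l' = j <;> simp [fl_apply, ax, h, a1, a2]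
  · left
    funext m' l'
    by_cases a1 : m' = m <;> by_cases a2 : l' = l <;> simp [fl_apply, ax, h, a1, a2]

/-- The permutation of the coordinates. -/
def pe (g : Equiv.Perm (Fin k)) (h : Equiv.Perm (Fin q)) : V k q →L[ℂ] V k q :=
  ContinuousLinearMap.pi fun m => ContinuousLinearMap.pi fun l => co (g m) (h l)

theorem pe_ax (m m' : Fin k) (l l' : Fin q) :
    pe (Equiv.swap m m') (Equiv.swap l l') (ax m' l' 1) = ax m l 1 := by
  funext a b
  change ax m' l' 1 (Equiv.swap m m' a) (Equiv.swap l l' b) = _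
  simp [ax, Equiv.swap_apply_eq_iff]

theorem ax_zero (i : Fin k) (j : Fin q) : ax i j 0 = 0 := by
  funext m l
  simp [ax]

variable {s : Fr k q → V k q → Y} {κ : Fr k q → Y → V k q} {ρ : (Fin (k + q) → ℝ) → Y → Y}

theorem slide (hSG1 : St_SG1) (h : Dat d s κ ρ) {ε : ℝ} (hε : ε = 1 ∨ ε = -1) {o : Fr k q}
    {i m : Fin k} {j l : Fin q} {w : ℂ} (w' : ℂ) (a : Ori d (s o) (ax i j w) (ax m l 1) ε) :
    Ori d (s o) (ax i j w') (ax m l 1) ε := by
  obtain ⟨b | b, c⟩ := hSG1 k q d Y s κ ρ h o i j m l <;> rcases hε with rfl | rfl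
  · exact b w'
  · exact absurd ⟨b w, a⟩ (c w)
  · exact absurd ⟨a, b w⟩ (c w)
  · exact b w'

theorem cross (h : Dat d s κ ρ) {ε : ℝ} {o : Fr k q} {i m : Fin k} {j l : Fin q}
    (a : Ori d (s o) (ax i j 1) (ax m l 1) ε) :
    Ori d (s (sw o i j)) (ax i j 1) (ax m l 1) ε := by
  have he : s o =ᶠ[𝓝 (ax i j 1)] s (sw o i j) ∘ tr i j := by
    have hc : ContinuousAt (fun y : V k q => y i j) (ax i j 1) := (co i j).continuous.continuousAt
    have h0 : ax i j (1 : ℂ) i j ≠ 0 := by simp [ax]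
    filter_upwards [hc.eventually_ne h0] with y hy
    exact (h.tr o i j y hy).symm
  have b := (ori_comp (tr_der i j) he (h.sm _ _) _ ε).1 a
  rw [tr_ax] at b
  rcases fl_ax j m l with c | c
  · rwa [c] at b
  · rw [← c]
    exact ori_neg b

theorem all_of (hSG1 : St_SG1) (hGEN : St_GEN) (h : Dat d s κ ρ) {ε : ℝ} (hε : ε = 1 ∨ ε = -1)
    {o : Fr k q} {m : Fin k} {l : Fin q} (a : Ori d (s o) 0 (ax m l 1) ε) (o' : Fr k q)
    (m' : Fin k) (l' : Fin q) : Ori d (s o') 0 (ax m' l' 1) ε := by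
  have b : ∀ o'', Ori d (s o'') 0 (ax m l 1) ε := fun o'' =>
    hGEN k q (fun o => Ori d (s o) 0 (ax m l 1) ε) m.pos l.pos (fun o i j c => by
      rw [← ax_zero i j] at c ⊢
      exact slide hSG1 h hε 0 (cross h (slide hSG1 h hε 1 c))) o o'' a
  have he : s o' =ᶠ[𝓝 0] s (pm o' (Equiv.swap m m') (Equiv.swap l l')) ∘
      pe (Equiv.swap m m') (Equiv.swap l l') :=
    Eventually.of_forall fun y => (h.pm o' _ _ y).symm
  refine (ori_comp (pe _ _).hasFDerivAt he (h.sm _ _) _ ε).2 ?_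
  rw [map_zero, pe_ax]
  exact b _

end SG2B

theorem st_SG2 (hSG1 : St_SG1) (hGEN : St_GEN) : St_SG2 := by
  intro k q d Y _ _ _ s κ ρ h
  rcases Nat.eq_zero_or_pos k with rfl | hk
  · exact Or.inl fun o m => m.elim0
  rcases Nat.eq_zero_or_pos q with rfl | hq
  · exact Or.inl fun o m l => l.elim0
  obtain ⟨b | b, -⟩ := hSG1 k q d Y s κ ρ h finSumFinEquiv ⟨0, hk⟩ ⟨0, hq⟩ ⟨0, hk⟩ ⟨0, hq⟩
  · have c := b 0
    rw [SG2B.ax_zero] at c
    exact Or.inl (SG2B.all_of hSG1 hGEN h (Or.inl rfl) c)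
  · have c := b 0
    rw [SG2B.ax_zero] at c
    exact Or.inr (SG2B.all_of hSG1 hGEN h (Or.inr rfl) c)

end Pool.Agent.Lib.GT40
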