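import Pool.Agent.Lib.GT40.Blue

/-! Project gt40, block TRN: the transition maps are forced by the weights. -/

open scoped Manifold ContDiff Topology Matrix
open Set Filter Metric Complex Sum

set_option linter.unusedVariables false
set_option linter.unusedSectionVars false

noncomputable section

namespace Pool.Agent.Lib.GT40.TRNB

/-- A function of four entries with the weight of the last entry. -/
theorem four (F : ℂ → ℂ → ℂ → ℂ → ℂ)
    (hd : ∀ p : ℂ × ℂ × ℂ × ℂ, p.1 ≠ 0 →
      DifferentiableAt ℂ (fun p : ℂ × ℂ × ℂ × ℂ => F p.1 p.2.1 p.2.2.1 p.2.2.2) p)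
    (hs : ∀ r₁ r₂ s₁ s₂ a b c e : ℂ, r₁ ≠ 0 → r₂ ≠ 0 → s₁ ≠ 0 → s₂ ≠ 0 → a ≠ 0 →
      F (r₁ * s₁ * a) (r₁ * s₂ * b) (r₂ * s₁ * c) (r₂ * s₂ * e) = r₂ * s₂ * F a b c e)
    (a b c e : ℂ) (ha : a ≠ 0) : F a b c e = F 1 0 1 1 * e + F 1 1 1 0 * (c * b / a) := by
  have cb : ∀ a c e : ℂ, a ≠ 0 → Continuous fun b => F a b c e := fun a c e ha =>
    continuous_iff_continuousAt.2 fun b =>
      ContinuousAt.comp (f := fun b : ℂ => (a, b, c, e)) (hd _ ha).continuousAt (by fun_prop)
  have cc : ∀ a b e : ℂ, a ≠ 0 → Continuous fun c => F a b c e := fun a b e ha =>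
    continuous_iff_continuousAt.2 fun c =>
      ContinuousAt.comp (f := fun c : ℂ => (a, b, c, e)) (hd _ ha).continuousAt (by fun_prop)
  have dG : Differentiable ℂ fun u => F 1 1 1 u := fun u =>
    DifferentiableAt.comp (f := fun u : ℂ => ((1 : ℂ), (1 : ℂ), (1 : ℂ), u)) u (hd _ one_ne_zero)
      (by fun_prop)
  have dS : Differentiable ℂ (dslope (fun u => F 1 1 1 u) 0) :=
    differentiableOn_univ.1 ((differentiableOn_dslope univ_mem).2 dG.differentiableOn)
  have i0 : Tendsto (fun u : ℂ => u⁻¹) (cocompact ℂ) (𝓝 0) := by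
    rw [← cobounded_eq_cocompact]
    exact tendsto_inv₀_cobounded
  have n0 : ∀ᶠ u : ℂ in cocompact ℂ, u ≠ 0 := isCompact_singleton.compl_mem_cocompact
  have lim : Tendsto (dslope (fun u => F 1 1 1 u) 0) (cocompact ℂ) (𝓝 (F 1 0 1 1)) := by
    have h1 := (((cb 1 1 1 one_ne_zero).tendsto 0).comp i0).sub (i0.mul_const (F 1 1 1 0))
    rw [zero_mul, sub_zero] at h1
    refine h1.congr' (n0.mono fun u hu => ?_)
    have h2 := hs 1 1 1 u⁻¹ 1 1 1 u one_ne_zero one_ne_zero one_ne_zero (inv_ne_zero hu) one_ne_zero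
    simp only [one_mul, mul_one, inv_mul_cancel₀ hu] at h2
    simp only [Function.comp, h2, dslope_of_ne _ hu, slope_def_field, sub_zero]
    field_simp
  have hG : ∀ u, F 1 1 1 u = F 1 1 1 0 + u * F 1 0 1 1 := fun u => by
    have h1 := sub_smul_dslope (fun u => F 1 1 1 u) 0 u
    rw [dS.apply_eq_of_tendsto_cocompact u lim, sub_zero, smul_eq_mul] at h1
    linear_combination -h1
  have h1 : ∀ b c : ℂ, b ≠ 0 → c ≠ 0 → F a b c e = F 1 0 1 1 * e + F 1 1 1 0 * (c * b / a) := by
    intro b c hb hc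
    have h2 := hs a c 1 (b / a) 1 1 1 (e * a / (c * b)) ha hc one_ne_zero (div_ne_zero hb ha)
      one_ne_zero
    have e1 : a * (b / a) = b := by field_simp
    have e2 : c * (b / a) * (e * a / (c * b)) = e := by field_simp
    simp only [mul_one, e1, e2] at h2
    rw [h2, hG]
    field_simp
    ring
  have h2 : ∀ c : ℂ, c ≠ 0 → F a b c e = F 1 0 1 1 * e + F 1 1 1 0 * (c * b / a) := fun c hc =>
    congrFun (Continuous.ext_on (dense_compl_singleton (0 : ℂ)) (cb a c e ha)
      (g := fun b => F 1 0 1 1 * e + F 1 1 1 0 * (c * b / a)) (by fun_prop)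
      fun b hb => h1 b c hb hc) b
  exact congrFun (Continuous.ext_on (dense_compl_singleton (0 : ℂ)) (cc a b e ha)
    (g := fun c => F 1 0 1 1 * e + F 1 1 1 0 * (c * b / a)) (by fun_prop) fun c hc => h2 c hc) c

variable {k q : ℕ}

/-- Scaling of rows and columns. -/
def rc (r : Fin k → ℂ) (s : Fin q → ℂ) (x : V k q) : V k q := fun m l => r m * s l * x m l

/-- A matrix with four entries. -/
def Q4 (i : Fin k) (j : Fin q) (m : Fin k) (l : Fin q) (a b c e : ℂ) : V k q := fun m' l' =>
  if m' = i then (if l' = j then a else if l' = l then b else 0)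
  else if m' = m then (if l' = j then c else if l' = l then e else 0) else 0

theorem Q4_ij (i : Fin k) (j : Fin q) (m : Fin k) (l : Fin q) (a b c e : ℂ) :
    Q4 i j m l a b c e i j = a := by simp [Q4]

theorem Q4_diff (i : Fin k) (j : Fin q) (m : Fin k) (l : Fin q) :
    Differentiable ℂ fun p : ℂ × ℂ × ℂ × ℂ => Q4 i j m l p.1 p.2.1 p.2.2.1 p.2.2.2 := by
  refine differentiable_pi.2 fun m' => differentiable_pi.2 fun l' => ?_
  unfold Q4
  split_ifs <;> fun_prop

theorem rc_Q4 (i : Fin k) (j : Fin q) (m : Fin k) (l : Fin q) (r₁ r₂ s₁ s₂ a b c e : ℂ) :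
    rc (fun m' => if m' = i then r₁ else r₂) (fun l' => if l' = j then s₁ else s₂)
      (Q4 i j m l a b c e) = Q4 i j m l (r₁ * s₁ * a) (r₁ * s₂ * b) (r₂ * s₁ * c) (r₂ * s₂ * e) := by
  funext m' l'
  unfold rc Q4
  beta_reduce
  split_ifs <;> simp

/-- The one-parameter group that contracts onto the four entries. -/
def ct (i : Fin k) (j : Fin q) (m : Fin k) (l : Fin q) (x : V k q) (s : ℂ) : V k q :=
  rc (fun m' => if m' = i ∨ m' = m then 1 else s) (fun l' => if l' = j ∨ l' = l then 1 else s) x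

theorem ct_lim (i : Fin k) (j : Fin q) (m : Fin k) (l : Fin q) (x : V k q) :
    Tendsto (ct i j m l x) (𝓝[≠] 0) (𝓝 (Q4 i j m l (x i j) (x i l) (x m j) (x m l))) := by
  have h1 : Continuous (ct i j m l x) := by
    refine continuous_pi fun m' => continuous_pi fun l' => ?_
    unfold ct rc
    beta_reduce
    split_ifs <;> fun_prop
  have h2 : ct i j m l x 0 = Q4 i j m l (x i j) (x i l) (x m j) (x m l) := by
    funext m' l'
    unfold ct rc Q4
    beta_reduce
    split_ifs <;> simp_all
  rw [← h2]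
  exact (h1.tendsto 0).mono_left nhdsWithin_le_nhds

/-- The shape of an equivariant holomorphic map. -/
theorem shape (i : Fin k) (j : Fin q) (th : V k q → V k q)
    (hd : ∀ x, x i j ≠ 0 → DifferentiableAt ℂ th x)
    (hs : ∀ r s x, (∀ m, r m ≠ 0) → (∀ l, s l ≠ 0) → x i j ≠ 0 → ∀ m l, th (rc r s x) m l =
      (if m = i then (s j)⁻¹ else r m) * (if l = j then (r i)⁻¹ else s l) * th x m l) :
    ∃ c b : V k q, ∀ x, x i j ≠ 0 → th x = gt c b i j x := by
  have cut : ∀ m l x, x i j ≠ 0 → th x m l = th (Q4 i j m l (x i j) (x i l) (x m j) (x m l)) m l := by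
    intro m l x hx
    have h1 := (hd _ (by rwa [Q4_ij])).continuousAt.tendsto.comp (ct_lim i j m l x)
    have h2 := tendsto_pi_nhds.1 (tendsto_pi_nhds.1 h1 m) l
    refine tendsto_nhds_unique (tendsto_const_nhds.congr' ?_) h2
    filter_upwards [self_mem_nhdsWithin] with s hs0
    have s0 : s ≠ 0 := hs0
    have h3 := hs (fun m' => if m' = i ∨ m' = m then 1 else s)
      (fun l' => if l' = j ∨ l' = l then 1 else s) x (fun _ => by split_ifs <;> simp [s0])
      (fun _ => by split_ifs <;> simp [s0]) hx m l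
    simp only [true_or, or_true, if_true, inv_one, ite_self, one_mul] at h3
    exact h3.symm
  have sc4 : ∀ m l (r₁ r₂ s₁ s₂ a b c e : ℂ), r₁ ≠ 0 → r₂ ≠ 0 → s₁ ≠ 0 → s₂ ≠ 0 → a ≠ 0 →
      th (Q4 i j m l (r₁ * s₁ * a) (r₁ * s₂ * b) (r₂ * s₁ * c) (r₂ * s₂ * e)) m l =
        (if m = i then s₁⁻¹ else r₂) * (if l = j then r₁⁻¹ else s₂) *
          th (Q4 i j m l a b c e) m l := by
    intro m l r₁ r₂ s₁ s₂ a b c e h1 h2 h3 h4 ha
    rw [← rc_Q4, hs _ _ _ (fun _ => by split_ifs <;> assumption)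
      (fun _ => by split_ifs <;> assumption) (by rwa [Q4_ij])]
    by_cases hm : m = i <;> by_cases hl : l = j <;> simp [hm, hl]
  have key : ∀ m l, ∃ c b : ℂ, ∀ x, x i j ≠ 0 → th x m l =
      if m = i then (if l = j then c / x i j else c * x i l / x i j)
      else if l = j then c * x m j / x i j else c * x m l + b * (x m j * x i l / x i j) := by
    intro m l
    by_cases hm : m = i <;> by_cases hl : l = j
    · refine ⟨th (Q4 i j m l 1 0 0 0) m l, 0, fun x hx => ?_⟩
      have h1 := sc4 m l (x i j) 1 1 1 1 0 0 0 hx one_ne_zero one_ne_zero one_ne_zero one_ne_zero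
      have h2 : Q4 i j m l (x i j) (x i l) (x m j) (x m l) = Q4 i j m l (x i j) 0 0 0 := by
        funext m' l'
        unfold Q4
        split_ifs <;> simp_all
      simp only [mul_one, mul_zero, if_pos hm, if_pos hl, inv_one, one_mul] at h1
      rw [cut m l x hx, h2, h1, if_pos hm, if_pos hl]
      ring
    · refine ⟨th (Q4 i j m l 1 1 0 0) m l, 0, fun x hx => ?_⟩
      have h2 : Q4 i j m l (x i j) (x i l) (x m j) (x m l) = Q4 i j m l (x i j) (x i l) 0 0 := by
        funext m' l'
        unfold Q4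
        split_ifs <;> simp_all
      rw [cut m l x hx, h2, if_pos hm, if_neg hl]
      by_cases hb : x i l = 0
      · have h1 := sc4 m l 1 1 1 2 (x i j) 0 0 0 one_ne_zero one_ne_zero one_ne_zero two_ne_zero hx
        simp only [mul_zero, if_pos hm, if_neg hl, inv_one, one_mul] at h1
        rw [hb]
        linear_combination -h1
      · have h1 := sc4 m l 1 1 (x i j) (x i l) 1 1 0 0 one_ne_zero one_ne_zero hx hb one_ne_zero
        simp only [mul_one, mul_zero, if_pos hm, if_neg hl, one_mul] at h1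
        rw [h1]
        ring
    · refine ⟨th (Q4 i j m l 1 0 1 0) m l, 0, fun x hx => ?_⟩
      have h2 : Q4 i j m l (x i j) (x i l) (x m j) (x m l) = Q4 i j m l (x i j) 0 (x m j) 0 := by
        funext m' l'
        unfold Q4
        split_ifs <;> simp_all
      rw [cut m l x hx, h2, if_neg hm, if_pos hl]
      by_cases hb : x m j = 0
      · have h1 := sc4 m l 1 2 1 1 (x i j) 0 0 0 one_ne_zero two_ne_zero one_ne_zero one_ne_zero hx
        simp only [mul_zero, if_neg hm, if_pos hl, inv_one, one_mul, mul_one] at h1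
        rw [hb]
        linear_combination -h1
      · have h1 := sc4 m l (x i j) (x m j) 1 1 1 0 1 0 hx hb one_ne_zero one_ne_zero one_ne_zero
        simp only [mul_one, mul_zero, if_neg hm, if_pos hl] at h1
        rw [h1]
        ring
    · refine ⟨th (Q4 i j m l 1 0 1 1) m l, th (Q4 i j m l 1 1 1 0) m l, fun x hx => ?_⟩
      rw [cut m l x hx, if_neg hm, if_neg hl]
      refine four (fun a b c e => th (Q4 i j m l a b c e) m l) (fun p hp => ?_)
        (fun r₁ r₂ s₁ s₂ a b c e h1 h2 h3 h4 ha => ?_) _ _ _ _ hx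
      · exact differentiableAt_pi.1 (differentiableAt_pi.1
          ((hd _ (by rwa [Q4_ij])).comp p (Q4_diff i j m l p)) m) l
      · rw [sc4 m l _ _ _ _ _ _ _ _ h1 h2 h3 h4 ha, if_neg hm, if_neg hl]
  choose c b h using key
  exact ⟨c, b, fun x hx => funext fun m => funext fun l => h m l x hx⟩

/-- The leading coefficients of an injective transition map do not vanish. -/
theorem coef_ne (i : Fin k) (j : Fin q) (c b : V k q)
    (h : ∀ x y, x i j ≠ 0 → y i j ≠ 0 → gt c b i j x = gt c b i j y → x = y) (m : Fin k)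
    (l : Fin q) : c m l ≠ 0 := by
  intro h0
  have aux : ∀ a b' c' e : ℂ, a ≠ 0 →
      gt c b i j (Q4 i j m l a b' c' e) = gt c b i j (Q4 i j m l 1 0 0 0) →
      Q4 i j m l a b' c' e m l = Q4 i j m l 1 0 0 0 m l := fun a b' c' e ha he => by
    rw [h _ _ (by rwa [Q4_ij]) (by rw [Q4_ij]; exact one_ne_zero) he]
  clear h
  by_cases hm : m = i <;> by_cases hl : l = j
  · have := aux 2 0 0 0 two_ne_zero (by
      clear aux
      subst hm hl
      funext m' l'
      by_cases h1 : m' = m <;> by_cases h2 : l' = l <;> simp [gt, Q4, h0, h1, h2])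
    simp [Q4, hm, hl] at this
  · have := aux 1 1 0 0 one_ne_zero (by
      clear aux
      subst hm
      funext m' l'
      by_cases h1 : m' = m <;> by_cases h2 : l' = l <;> by_cases h3 : l' = j <;>
        simp [gt, Q4, h0, h1, h2, h3, hl])
    simp [Q4, hm, hl] at this
  · have := aux 1 0 1 0 one_ne_zero (by
      clear aux
      subst hl
      funext m' l'
      by_cases h1 : m' = m <;> by_cases h2 : l' = l <;> by_cases h3 : m' = i <;>
        simp [gt, Q4, h0, h1, h2, h3, hm])
    simp [Q4, hm, hl] at this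
  · have := aux 1 0 0 1 one_ne_zero (by
      clear aux
      funext m' l'
      by_cases h1 : m' = m <;> by_cases h2 : l' = l <;> by_cases h3 : m' = i <;>
        by_cases h4 : l' = j <;> simp [gt, Q4, h0, h1, h2, h3, h4, hm, hl])
    simp [Q4, hm, hl] at this

end Pool.Agent.Lib.GT40.TRNB

namespace Pool.Agent.Lib.GT40

open TRNB

theorem st_TRN : St_TRN := by
  intro k q d Y _ _ _ ψ η h o i j
  have eqv : ∀ (r : Fin k → ℂ) (s : Fin q → ℂ) x y, (∀ m, r m ≠ 0) → (∀ l, s l ≠ 0) →
      ψ o x = ψ (sw o i j) y → ψ o (rc r s x) = ψ (sw o i j)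
        (rc (fun m => if m = i then (s j)⁻¹ else r m) (fun l => if l = j then (r i)⁻¹ else s l)
          y) := by
    intro r s x y hr hs e
    have h1 := h.eq (Sum.elim (fun m => (r m)⁻¹) s ∘ o.symm) o (sw o i j) x y (fun a => by
      simp only [Function.comp]
      rcases o.symm a with m | l
      · exact inv_ne_zero (hr m)
      · exact hs l) e
    convert h1 using 2
    · funext m l
      simp [rc, sc, mul_comm]
    · funext m l
      by_cases hm : m = i <;> by_cases hl : l = j <;>
        simp [rc, sc, sw, hm, hl, Equiv.swap_apply_def, div_eq_mul_inv, mul_comm]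
  have mem : ∀ x, x i j ≠ 0 → ψ o x ∈ range (ψ (sw o i j)) := by
    intro x hx
    obtain ⟨y, hy⟩ := h.edge o i j
    have h1 : ψ o (Q4 i j i j (x i j) (x i j) (x i j) (x i j)) ∈ range (ψ (sw o i j)) := by
      refine ⟨_, (eqv (fun _ => x i j) (fun _ => 1) _ y (fun _ => hx) (fun _ => one_ne_zero)
        hy.symm).symm.trans (congrArg _ ?_)⟩
      funext m l
      unfold rc ax Q4
      split_ifs <;> simp_all
    have h2 := ((h.hol o).continuous.tendsto _).comp (ct_lim i j i j x)
    obtain ⟨s, ⟨z, hz⟩, hs0⟩ :=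
      ((h2.eventually ((h.op _).mem_nhds h1)).and self_mem_nhdsWithin).exists
    have s0 : s ≠ 0 := hs0
    refine ⟨_, (eqv (fun m' => if m' = i ∨ m' = i then 1 else s⁻¹)
      (fun l' => if l' = j ∨ l' = j then 1 else s⁻¹) _ z (fun _ => by split_ifs <;> simp [s0])
      (fun _ => by split_ifs <;> simp [s0]) hz.symm).symm.trans (congrArg _ ?_)⟩
    funext m l
    unfold ct rc
    beta_reduce
    split_ifs <;> field_simp
  have back : ∀ x, x i j ≠ 0 → ψ (sw o i j) (η (sw o i j) (ψ o x)) = ψ o x := fun x hx => by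
    obtain ⟨y, hy⟩ := mem x hx
    rw [← hy, h.inv]
  obtain ⟨c, b, hc⟩ := shape i j (fun x => η (sw o i j) (ψ o x)) (fun x hx => by
    obtain ⟨y, hy⟩ := mem x hx
    exact mdifferentiableAt_iff_differentiableAt.1
      (MDifferentiableAt.comp x (hy ▸ h.hi (sw o i j) y) (h.hol o x))) fun r s x hr hs hx m l => by
    rw [eqv r s x _ hr hs (back x hx).symm, h.inv]
    rfl
  refine ⟨c, b, coef_ne i j c b fun x y hx hy e => ?_, fun x hx => ?_⟩
  · rw [← h.inv o x, ← back x hx, hc x hx, e, ← hc y hy, back y hy, h.inv]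
  · rw [← hc x hx, back x hx]

end Pool.Agent.Lib.GT40
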