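import Pool.Agent.Lib.GT40.Top
import Pool.Agent.Lib.GT40.B_ACT
import Pool.Agent.Lib.GT40.B_CEL61
import Pool.Agent.Lib.GT40.B_DAT
import Pool.Agent.Lib.GT40.B_DJ
import Pool.Agent.Lib.GT40.B_EDG
import Pool.Agent.Lib.GT40.B_FIN
import Pool.Agent.Lib.GT40.B_GEN
import Pool.Agent.Lib.GT40.B_GLU
import Pool.Agent.Lib.GT40.B_ID
import Pool.Agent.Lib.GT40.B_KOE
import Pool.Agent.Lib.GT40.B_LOC
import Pool.Agent.Lib.GT40.B_MOD
import Pool.Agent.Lib.GT40.B_NRM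
import Pool.Agent.Lib.GT40.B_PJ
import Pool.Agent.Lib.GT40.B_SG1
import Pool.Agent.Lib.GT40.B_SG2
import Pool.Agent.Lib.GT40.B_TRN

/-! Project gt40: the theorem. -/

namespace Pool.Agent.Lib.GT40

theorem st_MAIN : St_MAIN :=
  main_of (st_ACT st_ID st_LOC) st_DJ (st_SG2 st_SG1 st_GEN) (st_CEL61 st_ID st_KOE) st_EDG st_TRN
    st_NRM (st_GLU st_GEN) st_PJ (st_MOD st_PJ) (st_DAT st_PJ (st_MOD st_PJ))
    (st_FIN st_PJ (st_MOD st_PJ))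

end Pool.Agent.Lib.GT40
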