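import Pool.Agent.Lib.GT40.Blue

/-! Project gt40: the complex action. -/

open scoped Manifold ContDiff Topology Matrix
open Set Filter Metric Complex Sum

set_option linter.unusedVariables false
set_option linter.unusedSectionVars false

noncomputable section

namespace Pool.Agent.Lib.GT40

namespace ACT61

variable {ι : Type} [Fintype ι] {d : ℕ} {Y : Type} [TopologicalSpace Y] [T2Space Y]
  [ChartedSpace (E d) Y] [IsManifold 𝓘(ℂ, E d) ω Y] {ρ : (ι → ℝ) → Y → Y}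

variable (d) in
/-- Holomorphic at a point. -/
abbrev HolAt (L : (ι → ℂ) × Y → Y) (p : (ι → ℂ) × Y) : Prop :=
  MDifferentiableAt (𝓘(ℂ, ι → ℂ).prod 𝓘(ℂ, E d)) 𝓘(ℂ, E d) L p

theorem slice {L : (ι → ℂ) × Y → Y} {a : (ι → ℂ) → ι → ℂ} {b : (ι → ℂ) → Y} {τ : ι → ℂ}
    (h : HolAt d L (a τ, b τ)) (ha : DifferentiableAt ℂ a τ)
    (hb : MDifferentiableAt 𝓘(ℂ, ι → ℂ) 𝓘(ℂ, E d) b τ) :
    MDifferentiableAt 𝓘(ℂ, ι → ℂ) 𝓘(ℂ, E d) (fun t => L (a t, b t)) τ :=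
  MDifferentiableAt.comp (g := L) (f := fun t => (a t, b t)) τ h
    ((mdifferentiableAt_iff_differentiableAt.2 ha).prodMk hb)

theorem unif [CompactSpace Y] (hLOC : St_LOC) (hρ : RAct d ρ) :
    ∃ ε > 0, ∀ y : Y, ∃ L : (ι → ℂ) × Y → Y, ∀ᶠ y' in 𝓝 y, ∀ τ ∈ ball (0 : ι → ℂ) ε,
      HolAt d L (τ, y') ∧ ∀ θ, τ = cx θ → L (τ, y') = ρ θ y' := by
  have key : ∃ ε > 0, ∀ y ∈ (univ : Set Y), ∃ L : (ι → ℂ) × Y → Y, ∀ᶠ y' in 𝓝 y,
      ∀ τ ∈ ball (0 : ι → ℂ) ε, HolAt d L (τ, y') ∧ ∀ θ, τ = cx θ → L (τ, y') = ρ θ y' := by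
    refine isCompact_univ.induction_on (p := fun S : Set Y => ∃ ε > 0, ∀ y ∈ S,
      ∃ L : (ι → ℂ) × Y → Y, ∀ᶠ y' in 𝓝 y, ∀ τ ∈ ball (0 : ι → ℂ) ε,
        HolAt d L (τ, y') ∧ ∀ θ, τ = cx θ → L (τ, y') = ρ θ y') ⟨1, one_pos, fun y h => h.elim⟩
      ?_ ?_ ?_
    · rintro S T hST ⟨ε, hε, h⟩
      exact ⟨ε, hε, fun y hy => h y (hST hy)⟩
    · rintro S T ⟨ε, hε, h⟩ ⟨ε', hε', h'⟩
      refine ⟨min ε ε', lt_min hε hε', ?_⟩
      rintro y (hy | hy)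
      · obtain ⟨L, hL⟩ := h y hy
        exact ⟨L, hL.mono fun y' a τ hτ => a τ (ball_subset_ball (min_le_left _ _) hτ)⟩
      · obtain ⟨L, hL⟩ := h' y hy
        exact ⟨L, hL.mono fun y' a τ hτ => a τ (ball_subset_ball (min_le_right _ _) hτ)⟩
    · intro y₀ _
      obtain ⟨L, hL⟩ := hLOC ι d Y ρ hρ y₀
      rw [nhds_prod_eq, eventually_prod_iff] at hL
      obtain ⟨pa, ha, pb, hb, h⟩ := hL
      obtain ⟨ε, hε, hε'⟩ := Metric.eventually_nhds_iff_ball.1 ha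
      refine ⟨{y | ∀ᶠ y' in 𝓝 y, pb y'}, mem_nhdsWithin_of_mem_nhds hb.eventually_nhds, ε, hε,
        fun y hy => ⟨L, ?_⟩⟩
      exact Eventually.mono hy fun y' hy' τ hτ => h (hε' τ hτ) hy'
  obtain ⟨ε, hε, h⟩ := key
  exact ⟨ε, hε, fun y => h y (mem_univ y)⟩

theorem one [CompactSpace Y] (hID : St_ID) (hLOC : St_LOC) (hρ : RAct d ρ) :
    ∃ ε > 0, ∃ L : (ι → ℂ) × Y → Y, (∀ τ ∈ ball (0 : ι → ℂ) ε, ∀ y, HolAt d L (τ, y)) ∧
      ∀ θ, cx θ ∈ ball (0 : ι → ℂ) ε → ∀ y, L (cx θ, y) = ρ θ y := by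
  obtain ⟨ε, hε, h⟩ := unif hLOC hρ
  choose Ls hLs using h
  refine ⟨ε, hε, fun p => Ls p.2 p, fun τ hτ y => ?_, fun θ hθ y => ?_⟩
  · have e : ∀ᶠ y' in 𝓝 y, ∀ t ∈ ball (0 : ι → ℂ) ε, Ls y' (t, y') = Ls y (t, y') := by
      filter_upwards [hLs y] with y' hy'
      have h0 := (hLs y').self_of_nhds
      refine hID ι d Y (ball 0 ε) (fun t => Ls y' (t, y')) (fun t => Ls y (t, y')) isOpen_ball
        (convex_ball _ _) (mem_ball_self hε) (fun t ht => ?_) (fun t ht => ?_) fun θ hθ => ?_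
      · exact slice (a := id) (b := fun _ => y') (h0 t ht).1 differentiableAt_id
          mdifferentiableAt_const
      · exact slice (a := id) (b := fun _ => y') (hy' t ht).1 differentiableAt_id
          mdifferentiableAt_const
      · exact ((h0 _ hθ).2 θ rfl).trans ((hy' _ hθ).2 θ rfl).symm
    refine ((hLs y).self_of_nhds τ hτ).1.congr_of_eventuallyEq ?_
    rw [EventuallyEq, nhds_prod_eq]
    filter_upwards [(isOpen_ball.eventually_mem hτ).prod_mk e] with p hp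
    exact hp.2 p.1 hp.1
  · exact ((hLs y).self_of_nhds _ hθ).2 θ rfl

theorem cx_add (θ θ' : ι → ℝ) : cx (θ + θ') = cx θ + cx θ' := by
  funext a
  simp [cx]

theorem add_mem {ε : ℝ} {t t' : ι → ℂ} (h : t ∈ ball (0 : ι → ℂ) (ε / 2))
    (h' : t' ∈ ball (0 : ι → ℂ) (ε / 2)) : t + t' ∈ ball (0 : ι → ℂ) ε := by
  rw [mem_ball_zero_iff] at h h' ⊢
  linarith [norm_add_le t t']

theorem law (hID : St_ID) (hρ : RAct d ρ) {ε : ℝ} (hε : 0 < ε) {L : (ι → ℂ) × Y → Y}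
    (h1 : ∀ τ ∈ ball (0 : ι → ℂ) ε, ∀ y, HolAt d L (τ, y))
    (h2 : ∀ θ, cx θ ∈ ball (0 : ι → ℂ) ε → ∀ y, L (cx θ, y) = ρ θ y) {t t' : ι → ℂ}
    (ht : t ∈ ball (0 : ι → ℂ) (ε / 2)) (ht' : t' ∈ ball (0 : ι → ℂ) (ε / 2)) (y : Y) :
    L (t + t', y) = L (t, L (t', y)) := by
  have hs : ball (0 : ι → ℂ) (ε / 2) ⊆ ball 0 ε := ball_subset_ball (by linarith)
  have h0 : (0 : ι → ℂ) ∈ ball (0 : ι → ℂ) (ε / 2) := mem_ball_self (by linarith)
  refine hID ι d Y (ball 0 (ε / 2)) (fun s => L (t + s, y)) (fun s => L (t, L (s, y))) isOpen_ball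
    (convex_ball _ _) h0 (fun s hs' => ?_) (fun s hs' => ?_) (fun θ' hθ' => ?_) t' ht'
  · exact slice (a := fun s => t + s) (b := fun _ => y) (h1 _ (add_mem ht hs') y) (by fun_prop)
      mdifferentiableAt_const
  · exact slice (a := fun _ => t) (b := fun s => L (s, y)) (h1 _ (hs ht) _) (by fun_prop)
      (slice (a := id) (b := fun _ => y) (h1 _ (hs hs') y) differentiableAt_id
        mdifferentiableAt_const)
  · refine hID ι d Y (ball 0 (ε / 2)) (fun s => L (s + cx θ', y)) (fun s => L (s, L (cx θ', y)))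
      isOpen_ball (convex_ball _ _) h0 (fun s hs' => ?_) (fun s hs' => ?_) (fun θ hθ => ?_) t ht
    · exact slice (a := fun s => s + cx θ') (b := fun _ => y) (h1 _ (add_mem hs' hθ') y)
        (by fun_prop) mdifferentiableAt_const
    · exact slice (a := id) (b := fun _ => L (cx θ', y)) (h1 _ (hs hs') _) differentiableAt_id
        mdifferentiableAt_const
    · have a := add_mem hθ hθ'
      rw [← cx_add] at a
      show L (cx θ + cx θ', y) = L (cx θ, L (cx θ', y))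
      rw [← cx_add, h2 _ a, h2 _ (hs hθ), h2 _ (hs hθ'), hρ.add]

theorem iter {r : ℝ} {l : (ι → ℂ) → Y → Y} (h0 : l 0 = id)
    (h : ∀ t t', ‖t‖ < r → ‖t'‖ < r → l (t + t') = l t ∘ l t') (s : ι → ℂ) (j : ℕ)
    (hj : j * ‖s‖ < r) : l ((j : ℂ) • s) = (l s)^[j] := by
  induction j with
  | zero => simpa using h0
  | succ j ih =>
    have hn := norm_nonneg s
    have hj0 : (0 : ℝ) ≤ j * ‖s‖ := by positivity
    push_cast at hj ⊢
    have a : (j : ℝ) * ‖s‖ < r := by linarith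
    rw [add_smul, one_smul, h _ _ (by rwa [norm_smul, Complex.norm_natCast]) (by linarith), ih a,
      Function.iterate_succ]

theorem refine1 {r : ℝ} {l : (ι → ℂ) → Y → Y} (h0 : l 0 = id)
    (h : ∀ t t', ‖t‖ < r → ‖t'‖ < r → l (t + t') = l t ∘ l t') (τ : ι → ℂ) {m n : ℕ}
    (hm : 0 < m) (hn : 0 < n) (hτ : ‖τ‖ < m * r) :
    (l ((m : ℂ)⁻¹ • τ))^[m] = (l (((m : ℂ) * n)⁻¹ • τ))^[n * m] := by
  have hm' : (m : ℂ) ≠ 0 := by exact_mod_cast hm.ne'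
  have hn' : (n : ℂ) ≠ 0 := by exact_mod_cast hn.ne'
  have hmr : (0 : ℝ) < m := by exact_mod_cast hm
  have hnr : (0 : ℝ) < n := by exact_mod_cast hn
  have e : (m : ℂ)⁻¹ • τ = (n : ℂ) • (((m : ℂ) * n)⁻¹ • τ) := by
    rw [smul_smul]
    have : (n : ℂ) * ((m : ℂ) * n)⁻¹ = (m : ℂ)⁻¹ := by field_simp
    rw [this]
  rw [e, iter h0 h _ n, Function.iterate_mul]
  rw [norm_smul, norm_inv, norm_mul, Complex.norm_natCast, Complex.norm_natCast]
  have : (n : ℝ) * (((m : ℝ) * n)⁻¹ * ‖τ‖) = ‖τ‖ / m := by field_simp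
  rw [this, div_lt_iff₀ hmr]
  linarith

theorem indep {r : ℝ} {l : (ι → ℂ) → Y → Y} (h0 : l 0 = id)
    (h : ∀ t t', ‖t‖ < r → ‖t'‖ < r → l (t + t') = l t ∘ l t') (τ : ι → ℂ) {m n : ℕ}
    (hm : 0 < m) (hn : 0 < n) (hτ : ‖τ‖ < m * r) (hτ' : ‖τ‖ < n * r) :
    (l ((m : ℂ)⁻¹ • τ))^[m] = (l ((n : ℂ)⁻¹ • τ))^[n] := by
  rw [refine1 h0 h τ hm hn hτ, refine1 h0 h τ hn hm hτ', mul_comm (m : ℂ), mul_comm n m]

theorem big {r : ℝ} (hr : 0 < r) (c : ℝ) : ∃ m : ℕ, 0 < m ∧ c < m * r := by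
  obtain ⟨m, hm⟩ := exists_nat_gt (c / r)
  refine ⟨m + 1, Nat.succ_pos m, ?_⟩
  rw [div_lt_iff₀ hr] at hm
  push_cast
  linarith

theorem small {r : ℝ} {τ : ι → ℂ} {m : ℕ} (hm : 0 < m) (h : ‖τ‖ < m * r) :
    ‖(m : ℂ)⁻¹ • τ‖ < r := by
  have hmr : (0 : ℝ) < m := by exact_mod_cast hm
  rw [norm_smul, norm_inv, Complex.norm_natCast, inv_mul_lt_iff₀ hmr]
  exact h

theorem riter (hρ : RAct d ρ) (θ : ι → ℝ) (j : ℕ) (y : Y) : (ρ θ)^[j] y = ρ ((j : ℝ) • θ) y := by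
  induction j generalizing y with
  | zero => simpa using (hρ.zero y).symm
  | succ j ih =>
    push_cast
    rw [Function.iterate_succ_apply, ih, add_smul, one_smul, hρ.add]

end ACT61

open ACT61 in
theorem st_ACT61 (hID : St_ID) (hLOC : St_LOC) : St_ACT := by
  intro ι _ d Y _ _ _ _ _ ρ hρ
  obtain ⟨ε, hε, L, h1, h2⟩ := one hID hLOC hρ
  have hr : 0 < ε / 2 := by linarith
  set l : (ι → ℂ) → Y → Y := fun s y => L (s, y) with hl
  have hcx0 : cx (0 : ι → ℝ) = 0 := by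
    funext a
    simp [cx]
  have h0 : l 0 = id := by
    funext y
    have a := h2 0 (by rw [hcx0]; exact mem_ball_self hε) y
    rw [hcx0, hρ.zero] at a
    exact a
  have h : ∀ t t', ‖t‖ < ε / 2 → ‖t'‖ < ε / 2 → l (t + t') = l t ∘ l t' := fun t t' ht ht' =>
    funext fun y => law hID hρ hε h1 h2 (mem_ball_zero_iff.2 ht) (mem_ball_zero_iff.2 ht') y
  choose mm hmm hmm' using big hr
  set A : (ι → ℂ) → Y → Y := fun τ => (l ((mm ‖τ‖ : ℂ)⁻¹ • τ))^[mm ‖τ‖] with hA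
  have hAm : ∀ (τ : ι → ℂ) (m : ℕ), 0 < m → ‖τ‖ < m * (ε / 2) →
      A τ = (l ((m : ℂ)⁻¹ • τ))^[m] := fun τ m hm hτ =>
    indep h0 h τ (hmm _) hm (hmm' _) hτ
  have hre : ∀ θ y, A (cx θ) y = ρ θ y := by
    intro θ y
    have hm := hmm ‖cx θ‖
    have hm' := hmm' ‖cx θ‖
    set m := mm ‖cx θ‖
    have hmr : (m : ℝ) ≠ 0 := by exact_mod_cast hm.ne'
    have e : (m : ℂ)⁻¹ • cx θ = cx ((m : ℝ)⁻¹ • θ) := by
      funext a
      simp [cx]
    have e' : l ((m : ℂ)⁻¹ • cx θ) = ρ ((m : ℝ)⁻¹ • θ) := by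
      funext z
      have a := small hm hm'
      rw [e] at a ⊢
      exact h2 _ (mem_ball_zero_iff.2 (by linarith)) z
    rw [hAm _ m hm hm', e', riter hρ, smul_smul, mul_inv_cancel₀ hmr, one_smul]
  refine ⟨A, fun y => ?_, fun τ τ' y => ?_, fun p => ?_, hre⟩
  · rw [← hcx0, hre, hρ.zero]
  · have hm := hmm (‖τ‖ + ‖τ'‖)
    have hm' := hmm' (‖τ‖ + ‖τ'‖)
    set m := mm (‖τ‖ + ‖τ'‖)
    have a1 : ‖τ‖ < m * (ε / 2) := by linarith [norm_nonneg τ']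
    have a2 : ‖τ'‖ < m * (ε / 2) := by linarith [norm_nonneg τ]
    have a3 : ‖τ + τ'‖ < m * (ε / 2) := by linarith [norm_add_le τ τ']
    have hc : Function.Commute (l ((m : ℂ)⁻¹ • τ)) (l ((m : ℂ)⁻¹ • τ')) := fun z => by
      have b1 := congrFun (h _ _ (small hm a1) (small hm a2)) z
      have b2 := congrFun (h _ _ (small hm a2) (small hm a1)) z
      rw [add_comm] at b2
      exact b1.symm.trans b2
    rw [hAm _ m hm a1, hAm _ m hm a2, hAm _ m hm a3, smul_add, h _ _ (small hm a1) (small hm a2),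
      hc.comp_iterate]
    rfl
  · have hm := hmm ‖p.1‖
    have hm' := hmm' ‖p.1‖
    set m := mm ‖p.1‖
    have hj : ∀ j : ℕ, HolAt d (fun z : (ι → ℂ) × Y => (l ((m : ℂ)⁻¹ • z.1))^[j] z.2) p := by
      intro j
      induction j with
      | zero => exact mdifferentiableAt_snd
      | succ j ih =>
        have e : (fun z : (ι → ℂ) × Y => (l ((m : ℂ)⁻¹ • z.1))^[j + 1] z.2) =
            L ∘ fun z : (ι → ℂ) × Y => ((m : ℂ)⁻¹ • z.1, (l ((m : ℂ)⁻¹ • z.1))^[j] z.2) := by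
          funext z
          rw [Function.iterate_succ_apply']
          rfl
        rw [e]
        refine MDifferentiableAt.comp p
          (h1 _ (mem_ball_zero_iff.2 (by linarith [small hm hm'])) _) ?_
        exact (mdifferentiableAt_fst.const_smul (m : ℂ)⁻¹).prodMk ih
    refine (hj m).congr_of_eventuallyEq ?_
    have ho : ∀ᶠ z : (ι → ℂ) × Y in 𝓝 p, ‖z.1‖ < m * (ε / 2) :=
      (continuous_fst.norm.continuousAt (x := p)).eventually_lt continuousAt_const hm'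
    filter_upwards [ho] with z hz
    rw [hAm _ m hm hz]

end Pool.Agent.Lib.GT40
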