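import Pool.Agent.Lib.GT40.Blue

/-! Project gt40: normalisation of the constants of the transition maps. -/

open scoped Manifold ContDiff Topology Matrix
open Set Filter Metric Complex Sum

set_option linter.unusedVariables false
set_option linter.unusedSectionVars false
set_option linter.unusedSimpArgs false

noncomputable section

namespace Pool.Agent.Lib.GT40

namespace NRMB

variable {k q d : ℕ} {Y : Type} [TopologicalSpace Y] [ChartedSpace (E d) Y]
  {ψ : Fr k q → V k q → Y} {η : Fr k q → Y → V k q}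

/-- The point lies on the cone of the axes of the neighbouring cell. -/
def As (ψ : Fr k q → V k q → Y) (o : Fr k q) (i : Fin k) (j : Fin q) (x : V k q) : Prop :=
  x i j ≠ 0 ∧ ∃ y : V k q, (∀ m l, m ≠ i → l ≠ j → y m l = 0) ∧ ψ (sw o i j) y = ψ o x

theorem inj (hc : Cell d ψ η) (o : Fr k q) {x y : V k q} (h : ψ o x = ψ o y) : x = y := by
  rw [← hc.inv o x, h, hc.inv]

theorem rng (hc : Cell d ψ η) {o₁ o₂ : Fr k q} (h : ψ o₁ 0 = ψ o₂ 0) (x : V k q) :
    ψ o₁ x ∈ range (ψ o₂) := by
  have h1 : Continuous fun r : ℂ => ψ o₁ (r • x) :=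
    (hc.hol o₁).continuous.comp (continuous_id.smul continuous_const)
  have h2 : ∀ᶠ r : ℂ in 𝓝 0, ψ o₁ (r • x) ∈ range (ψ o₂) := by
    refine h1.continuousAt.eventually ((hc.op o₂).mem_nhds ?_)
    exact ⟨0, by simp [h]⟩
  have h3 : ∀ᶠ r : ℂ in 𝓝[≠] 0, ψ o₁ (r • x) ∈ range (ψ o₂) ∧ r ≠ 0 :=
    (h2.filter_mono nhdsWithin_le_nhds).and self_mem_nhdsWithin
  obtain ⟨r, ⟨x', hx'⟩, hr⟩ := h3.exists
  have h4 := hc.eq (fun a => Sum.elim (fun _ => (1 : ℂ)) (fun _ => r⁻¹) (o₁.symm a)) o₁ o₂ _ _
    (fun a => by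
      rcases o₁.symm a with b | b
      · exact one_ne_zero
      · exact inv_ne_zero hr) hx'.symm
  refine ⟨_, h4.symm.trans (congrArg _ ?_)⟩
  funext m l
  simp [sc, hr]

theorem key (hc : Cell d ψ η) (ht : Trn ψ) {o : Fr k q} {i i' : Fin k} {j j' : Fin q}
    {x : V k q} (h : As ψ o i' j' x) (hx : x i j ≠ 0) (hne : ¬(i = i' ∧ j = j'))
    (hor : i = i' ∨ j = j') (hv : ψ (sw (sw o i' j') i j) 0 = ψ (sw o i j) 0) :
    As ψ o i j x := by
  obtain ⟨hx', y', hy0, hy'⟩ := h
  obtain ⟨c', b', hc', hT'⟩ := ht o i' j'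
  obtain ⟨c, b, hcc, hT⟩ := ht o i j
  have e1 : y' = gt c' b' i' j' x := inj hc _ (hy'.trans (hT' x hx').symm)
  refine ⟨hx, gt c b i j x, fun m l hm hl => ?_, hT x hx⟩
  set z : ℂ → V k q := fun r m l => if m = i' ∧ l = j' then r * y' m l else y' m l with hz
  have z1 : Continuous z := by
    refine continuous_pi fun m => continuous_pi fun l => ?_
    by_cases h : m = i' ∧ l = j'
    · simp only [hz, if_pos h]
      exact continuous_id.mul continuous_const
    · simp only [hz, if_neg h]
      exact continuous_const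
  have z2 : z 0 i j ≠ 0 := by
    simp only [hz, if_neg hne, e1, gt]
    rcases hor with rfl | rfl
    · have : ¬ j = j' := fun h => hne ⟨rfl, h⟩
      simp only [if_true, if_neg this]
      exact div_ne_zero (mul_ne_zero (hc' _ _) hx) hx'
    · have : ¬ i = i' := fun h => hne ⟨h, rfl⟩
      simp only [if_true, if_neg this]
      exact div_ne_zero (mul_ne_zero (hc' _ _) hx) hx'
  have z3 : ∀ r : ℂ, r ≠ 0 → z r = gt c' b' i' j' (r⁻¹ • x) := by
    intro r hr
    funext m l
    by_cases h1 : m = i'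
    · by_cases h2 : l = j'
      · simp only [hz, e1, gt, h1, h2, and_self, if_true, Pi.smul_apply, smul_eq_mul]
        field_simp
      · simp only [hz, e1, gt, h1, h2, and_false, if_true, if_false, Pi.smul_apply, smul_eq_mul]
        field_simp
    · by_cases h2 : l = j'
      · simp only [hz, e1, gt, h1, h2, false_and, if_true, if_false, Pi.smul_apply, smul_eq_mul]
        field_simp
      · have h3 := hy0 m l h1 h2
        have h4 := h3
        simp only [e1, gt, h1, h2, if_false] at h4
        simp only [hz, h3, gt, h1, h2, false_and, if_false, Pi.smul_apply, smul_eq_mul]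
        have h5 : c' m l * (r⁻¹ * x m l) + b' m l * (r⁻¹ * x m j' * (r⁻¹ * x i' l) / (r⁻¹ * x i' j'))
            = r⁻¹ * (c' m l * x m l + b' m l * (x m j' * x i' l / x i' j')) := by
          field_simp
        rw [h5, h4, mul_zero]
  obtain ⟨c₂, b₂, -, hT₂⟩ := ht (sw o i' j') i j
  obtain ⟨w, hw⟩ : ψ (sw o i' j') (z 0) ∈ range (ψ (sw o i j)) := by
    rw [← hT₂ _ z2]
    exact rng hc hv _
  have f1 : ContinuousAt (fun r => η (sw o i j) (ψ (sw o i' j') (z r)) m l) 0 := by
    have a1 : ContinuousAt (η (sw o i j)) (ψ (sw o i' j') (z 0)) := by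
      rw [← hw]
      exact (hc.hi _ w).continuousAt
    have a2 : ContinuousAt (fun r => ψ (sw o i' j') (z r)) 0 :=
      ((hc.hol _).continuous.comp z1).continuousAt
    have a3 : ContinuousAt (fun r => η (sw o i j) (ψ (sw o i' j') (z r))) 0 :=
      ContinuousAt.comp (f := fun r => ψ (sw o i' j') (z r)) a1 a2
    exact (continuous_apply l).continuousAt.comp ((continuous_apply m).continuousAt.comp a3)
  have f2 : Tendsto (fun r : ℂ => r * η (sw o i j) (ψ (sw o i' j') (z r)) m l) (𝓝[≠] 0) (𝓝 0) := by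
    have t1 : Tendsto (fun r : ℂ => r) (𝓝 0) (𝓝 0) := tendsto_id
    have t2 := t1.mul f1.tendsto
    rw [zero_mul] at t2
    exact t2.mono_left nhdsWithin_le_nhds
  have f3 : (fun r : ℂ => r * η (sw o i j) (ψ (sw o i' j') (z r)) m l) =ᶠ[𝓝[≠] 0]
      fun _ => gt c b i j x m l := by
    filter_upwards [self_mem_nhdsWithin] with r hr
    have hr : r ≠ 0 := hr
    have g1 : (r⁻¹ • x) i' j' ≠ 0 := mul_ne_zero (inv_ne_zero hr) hx'
    have g2 : (r⁻¹ • x) i j ≠ 0 := mul_ne_zero (inv_ne_zero hr) hx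
    rw [z3 r hr, hT' _ g1, ← hT _ g2, hc.inv]
    simp only [gt, hm, hl, if_false, Pi.smul_apply, smul_eq_mul]
    field_simp
  exact tendsto_nhds_unique tendsto_const_nhds (f2.congr' f3)

theorem sw_col (o : Fr k q) (i : Fin k) {j j' : Fin q} (h : j ≠ j') :
    sw (sw o i j') i j = pm (sw o i j) 1 (Equiv.swap j j') := by
  ext a
  have h' := h.symm
  rcases a with a | a
  · by_cases h1 : a = i <;> simp [sw, pm, Equiv.swap_apply_def, h1, h, h']
  · by_cases h1 : a = j
    · simp [sw, pm, Equiv.swap_apply_def, h1, h, h']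
    · by_cases h2 : a = j' <;> simp [sw, pm, Equiv.swap_apply_def, h1, h2, h, h']

theorem sw_row (o : Fr k q) {i i' : Fin k} (j : Fin q) (h : i ≠ i') :
    sw (sw o i' j) i j = pm (sw o i j) (Equiv.swap i i') 1 := by
  ext a
  have h' := h.symm
  rcases a with a | a
  · by_cases h1 : a = i
    · simp [sw, pm, Equiv.swap_apply_def, h1, h, h']
    · by_cases h2 : a = i' <;> simp [sw, pm, Equiv.swap_apply_def, h1, h2, h, h']
  · by_cases h1 : a = j <;> simp [sw, pm, Equiv.swap_apply_def, h1, h, h']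

theorem col (hc : Cell d ψ η) (ht : Trn ψ) {o : Fr k q} {i : Fin k} {j j' : Fin q}
    {x : V k q} (h : As ψ o i j' x) (hx : x i j ≠ 0) : As ψ o i j x := by
  by_cases e : j = j'
  · exact e ▸ h
  · exact key hc ht h hx (fun a => e a.2) (Or.inl rfl) (by rw [sw_col o i e, hc.vx])

theorem row (hc : Cell d ψ η) (ht : Trn ψ) {o : Fr k q} {i i' : Fin k} {j : Fin q}
    {x : V k q} (h : As ψ o i' j x) (hx : x i j ≠ 0) : As ψ o i j x := by
  by_cases e : i = i'
  · exact e ▸ h
  · exact key hc ht h hx (fun a => e a.1) (Or.inr rfl) (by rw [sw_row o j e, hc.vx])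

theorem all (hc : Cell d ψ η) (ht : Trn ψ) {o : Fr k q} {i₀ : Fin k} {j₀ : Fin q}
    {x : V k q} (h : As ψ o i₀ j₀ x) (hx : ∀ m l, x m l ≠ 0) (i : Fin k) (j : Fin q) :
    As ψ o i j x :=
  row hc ht (col hc ht h (hx _ _)) (hx _ _)

theorem rel (hc : Cell d ψ η) {o : Fr k q} {i : Fin k} {j : Fin q} {c b x : V k q}
    (hT : ∀ x, x i j ≠ 0 → ψ (sw o i j) (gt c b i j x) = ψ o x) (h : As ψ o i j x)
    {m : Fin k} {l : Fin q} (hm : m ≠ i) (hl : l ≠ j) :
    c m l * x m l + b m l * (x m j * x i l / x i j) = 0 := by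
  obtain ⟨hx, y, hy0, hy⟩ := h
  have e1 : y = gt c b i j x := inj hc _ (hy.trans (hT x hx).symm)
  have := hy0 m l hm hl
  simpa only [e1, gt, hm, hl, if_false] using this

theorem base {o : Fr k q} {i : Fin k} {j : Fin q} {c b : V k q} (hcc : ∀ m l, c m l ≠ 0)
    (hT : ∀ x, x i j ≠ 0 → ψ (sw o i j) (gt c b i j x) = ψ o x) :
    As ψ o i j fun m l => if m = i ∨ l = j then 1 else -(b m l) / c m l := by
  refine ⟨by simp, _, fun m l hm hl => ?_, hT _ (by simp)⟩
  have := hcc m l
  simp only [gt, hm, hl, if_false, or_self, or_true, true_or, if_true]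
  field_simp
  ring

end NRMB

open NRMB in
theorem st_NRM : St_NRM := by
  intro k q d Y _ _ _ ψ η hk hq hc ht
  refine ⟨fun o u => (∀ m l, u m l ≠ 0) ∧ ∀ i j, As ψ o i j u, ?_, fun o u h => h.1, ?_⟩
  · let o : Fr k q := finSumFinEquiv
    let i : Fin k := ⟨0, hk⟩
    let j : Fin q := ⟨0, hq⟩
    obtain ⟨c, b, hcc, hT⟩ := ht o i j
    have hne : ∀ m l, (if m = i ∨ l = j then (1 : ℂ) else -(b m l) / c m l) ≠ 0 := by
      intro m l
      by_cases h : m = i ∨ l = j
      · rw [if_pos h]
        exact one_ne_zero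
      · rw [if_neg h]
        rw [not_or] at h
        refine div_ne_zero (neg_ne_zero.2 fun hb => ?_) (hcc m l)
        obtain ⟨c', b', hc', hT'⟩ := ht o i l
        have h1 := rel hc hT (col hc ht (j := j) (base hc' hT') (by simp)) h.1 h.2
        simp only [hb, zero_mul, add_zero, or_true, if_true, mul_one] at h1
        exact hcc m l h1
    exact ⟨o, _, hne, all hc ht (base hcc hT) hne⟩
  · intro o u i j ⟨hu, hA⟩
    obtain ⟨c, b, hcc, hT⟩ := ht o i j
    set u' : V k q := fun m l => if m = i then (if l = j then c m l / u i j else c m l * u i l / u i j)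
      else if l = j then -(c m l * u m j / u i j) else c m l * u m l with hu'
    have hne : ∀ m l, u' m l ≠ 0 := by
      intro m l
      simp only [hu']
      split_ifs
      · exact div_ne_zero (hcc _ _) (hu _ _)
      · exact div_ne_zero (mul_ne_zero (hcc _ _) (hu _ _)) (hu _ _)
      · exact neg_ne_zero.2 (div_ne_zero (mul_ne_zero (hcc _ _) (hu _ _)) (hu _ _))
      · exact mul_ne_zero (hcc _ _) (hu _ _)
    have hs : ∀ x : V k q, x i j ≠ 0 → ψ (sw o i j) (u' * tr i j x) = ψ o (u * x) := by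
      intro x hx
      rw [← hT (u * x) (mul_ne_zero (hu _ _) hx)]
      refine congrArg _ ?_
      funext m l
      have h0 := hu i j
      by_cases h1 : m = i
      · by_cases h2 : l = j
        · simp only [hu', gt, tr, h1, h2, if_true, Pi.mul_apply]
          field_simp
        · simp only [hu', gt, tr, h1, h2, if_true, if_false, Pi.mul_apply]
          field_simp
      · by_cases h2 : l = j
        · simp only [hu', gt, tr, h1, h2, if_true, if_false, Pi.mul_apply]
          field_simp
        · have h3 := rel hc hT (hA i j) h1 h2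
          simp only [hu', gt, tr, h1, h2, if_false, Pi.mul_apply]
          have h4 : b m l * (u m j * x m j * (u i l * x i l) / (u i j * x i j)) =
              b m l * (u m j * u i l / u i j) * (x m j * x i l / x i j) := by
            field_simp
          rw [h4]
          linear_combination (-(x m j * x i l / x i j)) * h3
    refine ⟨u', ⟨hne, all hc ht (i₀ := i) (j₀ := j) ⟨hne _ _, u * tr i j 1, fun m l hm hl => ?_, ?_⟩
      hne⟩, hs⟩
    · simp [tr, hm, hl]
    · rw [sw_sw, ← hs _ (by simp [tr])]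
      refine congrArg _ ?_
      funext m l
      by_cases h1 : m = i <;> by_cases h2 : l = j <;> simp [tr, h1, h2]

end Pool.Agent.Lib.GT40
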