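import Pool.Agent.Lib.GT40.SDefs
import Pool.Agent.Lib.HS85.Frame

/-! Project gt40: objects, statements and a small kit. -/

open scoped Manifold ContDiff Topology Matrix
open Set Filter Metric Complex Sum

set_option linter.unusedVariables false
set_option linter.unusedSectionVars false

noncomputable section

namespace Pool.Agent.Lib.GT40

/-- Coordinate space of the manifold. -/
abbrev E (d : ℕ) : Type := Fin d → ℂ

/-- Coordinate space of the cells. -/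
abbrev V (k q : ℕ) : Type := Fin k → Fin q → ℂ

/-- Frames. -/
abbrev Fr (k q : ℕ) : Type := Fin k ⊕ Fin q ≃ Fin (k + q)

section comb

variable {k q : ℕ}

/-- The neighbour of a frame. -/
def sw (o : Fr k q) (i : Fin k) (j : Fin q) : Fr k q := (Equiv.swap (inl i) (inr j)).trans o

/-- Permutation of the rows and of the columns. -/
def pm (o : Fr k q) (g : Equiv.Perm (Fin k)) (h : Equiv.Perm (Fin q)) : Fr k q :=
  (Equiv.sumCongr g h).trans o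

/-- The action of the torus on coordinates. -/
def sc (t : Fin k ⊕ Fin q → ℂ) (x : V k q) : V k q := fun m l => t (inr l) / t (inl m) * x m l

/-- The exponential. -/
def ex {ι : Type} (τ : ι → ℂ) : ι → ℂ := fun a => exp (I * τ a)

/-- Real vectors as complex vectors. -/
def cx {ι : Type} (θ : ι → ℝ) : ι → ℂ := fun a => θ a

/-- The axis. -/
def ax (i : Fin k) (j : Fin q) (w : ℂ) : V k q := fun m l => if m = i ∧ l = j then w else 0

/-- A transition map with coefficients. -/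
def gt (c b : V k q) (i : Fin k) (j : Fin q) (x : V k q) : V k q := fun m l =>
  if m = i then (if l = j then c m l / x i j else c m l * x i l / x i j)
  else if l = j then c m l * x m j / x i j else c m l * x m l + b m l * (x m j * x i l / x i j)

/-- The transition map of the Grassmannian. -/
def tr (i : Fin k) (j : Fin q) (x : V k q) : V k q := fun m l =>
  if m = i then (if l = j then 1 / x i j else x i l / x i j)
  else if l = j then -(x m j / x i j) else x m l - x m j * x i l / x i j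

/-- The basis attached to a point of a cell. -/
def Mt (o : Fr k q) (x : V k q) : Fin (k + q) → Fin k → ℂ := fun a m =>
  Sum.elim (fun m' => if m' = m then 1 else 0) (fun l => x m l) (o.symm a)

/-- The coordinates of a projection. -/
def kp (o : Fr k q) (P : Fin (k + q) → Fin (k + q) → ℂ) : V k q := fun m l =>
  ((Matrix.of P).submatrix (o ∘ inr) (o ∘ inl) * ((Matrix.of P).submatrix (o ∘ inl) (o ∘ inl))⁻¹) l m

/-- The projection on the span of the columns. -/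
def pj (A : Fin (k + q) → Fin k → ℂ) : Matrix (Fin (k + q)) (Fin (k + q)) ℂ :=
  Matrix.of A * ((Matrix.of A)ᴴ * Matrix.of A)⁻¹ * (Matrix.of A)ᴴ

end comb

section mfd

variable {k q : ℕ} (d : ℕ) {Y : Type} [TopologicalSpace Y] [ChartedSpace (E d) Y]

/-- Smooth cells with an action of the torus by holomorphic maps. -/
structure Dat (s : Fr k q → V k q → Y) (κ : Fr k q → Y → V k q)
    (ρ : (Fin (k + q) → ℝ) → Y → Y) : Prop where
  sm : ∀ o, ContMDiff 𝓘(ℝ, V k q) 𝓘(ℝ, E d) ∞ (s o)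
  inv : ∀ o x, κ o (s o x) = x
  smi : ∀ o x, ContMDiffAt 𝓘(ℝ, E d) 𝓘(ℝ, V k q) ∞ (κ o) (s o x)
  op : ∀ o, IsOpen (range (s o))
  cov : ∀ y, ∃ o, y ∈ range (s o)
  eqv : ∀ θ o x, ρ θ (s o x) = s o (sc (ex (cx θ) ∘ o) x)
  hol : ∀ θ, MDifferentiable 𝓘(ℂ, E d) 𝓘(ℂ, E d) (ρ θ)
  tr : ∀ o i j x, x i j ≠ 0 → s (sw o i j) (tr i j x) = s o x
  pm : ∀ o g h x, s (pm o g h) (fun m l => x (g m) (h l)) = s o x
  ne : ∀ o i j, s (sw o i j) 0 ≠ s o 0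

/-- A smooth action of a real vector group by holomorphic maps. -/
structure RAct {ι : Type} [Fintype ι] (ρ : (ι → ℝ) → Y → Y) : Prop where
  zero : ∀ y, ρ 0 y = y
  add : ∀ θ θ' y, ρ (θ + θ') y = ρ θ (ρ θ' y)
  hol : ∀ θ, MDifferentiable 𝓘(ℂ, E d) 𝓘(ℂ, E d) (ρ θ)
  sm : ContMDiff (𝓘(ℝ, ι → ℝ).prod 𝓘(ℝ, E d)) 𝓘(ℝ, E d) ∞ fun p : (ι → ℝ) × Y => ρ p.1 p.2

/-- A holomorphic action of a complex vector group that extends `ρ`. -/
structure Act {ι : Type} [Fintype ι] (ρ : (ι → ℝ) → Y → Y) (A : (ι → ℂ) → Y → Y) : Prop where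
  zero : ∀ y, A 0 y = y
  add : ∀ τ τ' y, A (τ + τ') y = A τ (A τ' y)
  hol : MDifferentiable (𝓘(ℂ, ι → ℂ).prod 𝓘(ℂ, E d)) 𝓘(ℂ, E d) fun p : (ι → ℂ) × Y => A p.1 p.2
  re : ∀ θ y, A (cx θ) y = ρ θ y

/-- The real differential, read in the chart at the image point. -/
def Dv (s : V k q → Y) (x : V k q) : V k q →L[ℝ] E d := fderiv ℝ (chartAt (E d) (s x) ∘ s) x

/-- The image of the complex line of `v` is a complex line, with orientation `ε`. -/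
def Ori (s : V k q → Y) (x v : V k q) (ε : ℝ) : Prop :=
  ∃ a b : ℝ, 0 < ε * b ∧ I • Dv d s x v = a • Dv d s x v + b • Dv d s x (I • v)

/-- An equivariant holomorphic cell centred at `p`. -/
structure Cl {ι : Type} (A : (ι → ℂ) → Y → Y) (g : (ι → ℂ) → V k q → V k q) (p : Y)
    (ψ : V k q → Y) (η : Y → V k q) : Prop where
  hol : MDifferentiable 𝓘(ℂ, V k q) 𝓘(ℂ, E d) ψ
  zero : ψ 0 = p
  inv : ∀ x, η (ψ x) = x
  op : IsOpen (range ψ)
  hi : ∀ x, MDifferentiableAt 𝓘(ℂ, E d) 𝓘(ℂ, V k q) η (ψ x)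
  eqv : ∀ τ x, A τ (ψ x) = ψ (g τ x)

/-- A system of holomorphic cells. -/
structure Cell (ψ : Fr k q → V k q → Y) (η : Fr k q → Y → V k q) : Prop where
  hol : ∀ o, MDifferentiable 𝓘(ℂ, V k q) 𝓘(ℂ, E d) (ψ o)
  inv : ∀ o x, η o (ψ o x) = x
  op : ∀ o, IsOpen (range (ψ o))
  hi : ∀ o x, MDifferentiableAt 𝓘(ℂ, E d) 𝓘(ℂ, V k q) (η o) (ψ o x)
  eq : ∀ (t : Fin (k + q) → ℂ) o o' x x', (∀ a, t a ≠ 0) → ψ o x = ψ o' x' →
    ψ o (sc (t ∘ o) x) = ψ o' (sc (t ∘ o') x')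
  edge : ∀ o i j, ψ o (ax i j 1) ∈ range (ψ (sw o i j))
  vx : ∀ o g h, ψ (pm o g h) 0 = ψ o 0

end mfd

/-- The shape of the transition maps. -/
def Trn {k q : ℕ} {Y : Type} (ψ : Fr k q → V k q → Y) : Prop :=
  ∀ o i j, ∃ c b : V k q, (∀ m l, c m l ≠ 0) ∧
    ∀ x, x i j ≠ 0 → ψ (sw o i j) (gt c b i j x) = ψ o x

/-- A class of scalings that make the transition maps standard. -/
structure Nrm {k q : ℕ} {Y : Type} (ψ : Fr k q → V k q → Y) (G : Fr k q → V k q → Prop) :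
    Prop where
  ex : ∃ o u, G o u
  ne : ∀ o u, G o u → ∀ m l, u m l ≠ 0
  step : ∀ o u i j, G o u → ∃ u', G (sw o i j) u' ∧
    ∀ x, x i j ≠ 0 → ψ (sw o i j) (u' * tr i j x) = ψ o (u * x)

/-- The cells of the model, as a topological space. -/
structure Mod {k q : ℕ} {X : Type} [TopologicalSpace X] (σ : Fr k q → V k q → X) : Prop where
  emb : ∀ o, Topology.IsOpenEmbedding (σ o)
  cov : ∀ P, ∃ o, P ∈ range (σ o)
  tr : ∀ o i j x, x i j ≠ 0 → σ (sw o i j) (tr i j x) = σ o x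
  mem : ∀ o i j x, σ o x ∈ range (σ (sw o i j)) → x i j ≠ 0
  eq : ∀ (t : Fin (k + q) → ℂ) o o' x x', (∀ a, t a ≠ 0) → σ o x = σ o' x' →
    σ o (sc (t ∘ o) x) = σ o' (sc (t ∘ o') x')

/-- The cells of the Grassmannian. -/
structure Gm {k q : ℕ} (σ : Fr k q → V k q → Gr k q) : Prop where
  sp : ∀ o x, Spans (σ o x) (Mt o x)
  val : ∀ o x, Matrix.of (σ o x).1 = pj (Mt o x)

/-! ### Statements -/

/-- The identity theorem from the real points. -/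
def St_ID : Prop := ∀ (ι : Type) [Fintype ι] (d : ℕ) (Y : Type) [TopologicalSpace Y] [T2Space Y]
  [ChartedSpace (E d) Y] [IsManifold 𝓘(ℂ, E d) ω Y] (O : Set (ι → ℂ)) (f g : (ι → ℂ) → Y),
  IsOpen O → Convex ℝ O → 0 ∈ O → (∀ τ ∈ O, MDifferentiableAt 𝓘(ℂ, ι → ℂ) 𝓘(ℂ, E d) f τ) →
  (∀ τ ∈ O, MDifferentiableAt 𝓘(ℂ, ι → ℂ) 𝓘(ℂ, E d) g τ) →
  (∀ θ, cx θ ∈ O → f (cx θ) = g (cx θ)) → ∀ τ ∈ O, f τ = g τ

/-- Local extension of the action to complex time. -/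
def St_LOC : Prop := ∀ (ι : Type) [Fintype ι] (d : ℕ) (Y : Type) [TopologicalSpace Y]
  [ChartedSpace (E d) Y] [IsManifold 𝓘(ℂ, E d) ω Y] (ρ : (ι → ℝ) → Y → Y), RAct d ρ → ∀ y₀ : Y,
  ∃ L : (ι → ℂ) × Y → Y, ∀ᶠ p in 𝓝 (0, y₀),
    MDifferentiableAt (𝓘(ℂ, ι → ℂ).prod 𝓘(ℂ, E d)) 𝓘(ℂ, E d) L p ∧
      ∀ θ, p.1 = cx θ → L p = ρ θ p.2

/-- The complex action. -/
def St_ACT : Prop := ∀ (ι : Type) [Fintype ι] (d : ℕ) (Y : Type) [TopologicalSpace Y] [T2Space Y]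
  [CompactSpace Y] [ChartedSpace (E d) Y] [IsManifold 𝓘(ℂ, E d) ω Y] (ρ : (ι → ℝ) → Y → Y),
  RAct d ρ → ∃ A, Act d ρ A

/-- The real action, and the conjugate data. -/
def St_DJ : Prop := ∀ (k q d : ℕ) (Y : Type) [TopologicalSpace Y] [ChartedSpace (E d) Y]
  [IsManifold 𝓘(ℂ, E d) ω Y] (s : Fr k q → V k q → Y) (κ : Fr k q → Y → V k q)
  (ρ : (Fin (k + q) → ℝ) → Y → Y), Dat d s κ ρ → RAct d ρ ∧
    Dat d (fun o x => s o (star x)) (fun o y => star (κ o y)) (fun θ => ρ (-θ)) ∧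
    ∀ o m l, Ori d (s o) 0 (ax m l 1) (-1) → Ori d (fun x => s o (star x)) 0 (ax m l 1) 1

/-- The orientation is constant along an axis. -/
def St_SG1 : Prop := ∀ (k q d : ℕ) (Y : Type) [TopologicalSpace Y] [ChartedSpace (E d) Y]
  [IsManifold 𝓘(ℂ, E d) ω Y] (s : Fr k q → V k q → Y) (κ : Fr k q → Y → V k q)
  (ρ : (Fin (k + q) → ℝ) → Y → Y), Dat d s κ ρ → ∀ o i j m l,
    ((∀ w, Ori d (s o) (ax i j w) (ax m l 1) 1) ∨ ∀ w, Ori d (s o) (ax i j w) (ax m l 1) (-1)) ∧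
    ∀ w, ¬(Ori d (s o) (ax i j w) (ax m l 1) 1 ∧ Ori d (s o) (ax i j w) (ax m l 1) (-1))

/-- All orientations agree. -/
def St_SG2 : Prop := ∀ (k q d : ℕ) (Y : Type) [TopologicalSpace Y] [ChartedSpace (E d) Y]
  [IsManifold 𝓘(ℂ, E d) ω Y] (s : Fr k q → V k q → Y) (κ : Fr k q → Y → V k q)
  (ρ : (Fin (k + q) → ℝ) → Y → Y), Dat d s κ ρ →
    (∀ o m l, Ori d (s o) 0 (ax m l 1) 1) ∨ ∀ o m l, Ori d (s o) 0 (ax m l 1) (-1)

/-- Frames are connected by moves. -/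
def St_GEN : Prop := ∀ (k q : ℕ) (p : Fr k q → Prop), 0 < k → 0 < q →
  (∀ o i j, p o → p (sw o i j)) → ∀ o o', p o → p o'

/-- Linearisation at an attracting fixed point. -/
def St_KOE : Prop := ∀ (ι : Type) [Fintype ι] (k q d : ℕ) (Y : Type) [TopologicalSpace Y]
  [ChartedSpace (E d) Y] [IsManifold 𝓘(ℂ, E d) ω Y] (ρ : (ι → ℝ) → Y → Y)
  (A : (ι → ℂ) → Y → Y) (p : Y) (D : V k q ≃L[ℂ] E d) (g : (ι → ℂ) → V k q →L[ℂ] V k q)
  (τ₀ : ι → ℂ), Act d ρ A → (∀ τ, A τ p = p) →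
  (∀ τ v, fderiv ℂ (chartAt (E d) p ∘ A τ ∘ (chartAt (E d) p).symm) (chartAt (E d) p p) (D v) =
    D (g τ v)) → (∀ v, g τ₀ v = (1 / 2 : ℂ) • v) → ∃ ψ η, Cl d A (fun τ => g τ) p ψ η

/-- The cell at a vertex. -/
def St_CEL : Prop := ∀ (k q d : ℕ) (Y : Type) [TopologicalSpace Y] [T2Space Y]
  [ChartedSpace (E d) Y] [IsManifold 𝓘(ℂ, E d) ω Y] (s : Fr k q → V k q → Y)
  (κ : Fr k q → Y → V k q) (ρ : (Fin (k + q) → ℝ) → Y → Y) (A : (Fin (k + q) → ℂ) → Y → Y),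
  Dat d s κ ρ → Act d ρ A → ∀ o, (∀ m l, Ori d (s o) 0 (ax m l 1) 1) →
    ∃ ψ η, Cl d A (fun τ => sc (ex τ ∘ o)) (s o 0) ψ η

/-- The axis of a cell meets the neighbouring cell. -/
def St_EDG : Prop := ∀ (k q d : ℕ) (Y : Type) [TopologicalSpace Y] [T2Space Y]
  [ChartedSpace (E d) Y] [IsManifold 𝓘(ℂ, E d) ω Y] (s : Fr k q → V k q → Y)
  (κ : Fr k q → Y → V k q) (ρ : (Fin (k + q) → ℝ) → Y → Y) (A : (Fin (k + q) → ℂ) → Y → Y)
  (o : Fr k q) (i : Fin k) (j : Fin q) (ψ ψ' : V k q → Y) (η η' : Y → V k q),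
  Dat d s κ ρ → Act d ρ A → Cl d A (fun τ => sc (ex τ ∘ o)) (s o 0) ψ η →
  Cl d A (fun τ => sc (ex τ ∘ sw o i j)) (s (sw o i j) 0) ψ' η' → ψ (ax i j 1) ∈ range ψ'

/-- The transition maps are forced by the weights. -/
def St_TRN : Prop := ∀ (k q d : ℕ) (Y : Type) [TopologicalSpace Y] [ChartedSpace (E d) Y]
  [IsManifold 𝓘(ℂ, E d) ω Y] (ψ : Fr k q → V k q → Y) (η : Fr k q → Y → V k q),
  Cell d ψ η → Trn ψ

/-- Normalisation of the constants. -/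
def St_NRM : Prop := ∀ (k q d : ℕ) (Y : Type) [TopologicalSpace Y] [ChartedSpace (E d) Y]
  [IsManifold 𝓘(ℂ, E d) ω Y] (ψ : Fr k q → V k q → Y) (η : Fr k q → Y → V k q), 0 < k → 0 < q →
  Cell d ψ η → Trn ψ → ∃ G, Nrm ψ G

/-- Gluing. -/
def St_GLU : Prop := ∀ (k q d : ℕ) (X Y : Type) [TopologicalSpace X] [CompactSpace X]
  [TopologicalSpace Y] [T2Space Y] [ChartedSpace (E d) Y] (σ : Fr k q → V k q → X)
  (ψ : Fr k q → V k q → Y) (η : Fr k q → Y → V k q) (G : Fr k q → V k q → Prop), 0 < k → 0 < q →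
  Nonempty (X ≃ₜ Y) → Mod σ → Cell d ψ η → Nrm ψ G → (∀ o o', ψ o 0 = ψ o' 0 → σ o 0 = σ o' 0) →
  ∃ (φ : X ≃ₜ Y) (u : Fr k q → V k q), (∀ o m l, u o m l ≠ 0) ∧ ∀ o x, φ (σ o x) = ψ o (u o * x)

/-- Projections and bases. -/
def St_PJ : Prop := ∀ k q : ℕ,
  (∀ A : Fin (k + q) → Fin k → ℂ, Full A → IsUnit ((Matrix.of A)ᴴ * Matrix.of A) ∧
    (∃ P : Gr k q, Matrix.of P.1 = pj A) ∧ ∀ P : Gr k q, Spans P A ↔ Matrix.of P.1 = pj A) ∧
  (∀ (o : Fr k q) x, Full (Mt o x) ∧ kp o (pj (Mt o x)) = x) ∧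
  (∀ (o : Fr k q) (P : Gr k q), ((Matrix.of P.1).submatrix (o ∘ inl) (o ∘ inl)).det ≠ 0 ↔
    ∃ x, Spans P (Mt o x)) ∧
  (∀ P : Gr k q, ∃ o : Fr k q, ((Matrix.of P.1).submatrix (o ∘ inl) (o ∘ inl)).det ≠ 0) ∧
  CompactSpace (Gr k q)

/-- The cells of the Grassmannian. -/
def St_MOD : Prop := ∀ (k q : ℕ) (σ : Fr k q → V k q → Gr k q), Gm σ → Mod σ ∧
  (∀ o g h x, σ (pm o g h) (fun m l => x (g m) (h l)) = σ o x) ∧
  ∀ (θ : Fin (k + q) → ℝ) o x a b, (σ o (sc (ex (cx θ) ∘ o) x)).1 a b =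
    exp (I * θ a) * (σ o x).1 a b * exp (-(I * θ b))

/-- From the hypotheses of the theorem to the data. -/
def St_DAT : Prop := ∀ (k q d : ℕ) (Y : Type) [TopologicalSpace Y] [ChartedSpace (E d) Y]
  [IsManifold 𝓘(ℂ, E d) ω Y] (σ : Fr k q → V k q → Gr k q) (Φ : Gr k q ≃ₜ Y), Gm σ → Diffeo d Φ →
  TorusHol d Φ → ∃ ρ, Dat d (fun o x => Φ (σ o x)) (fun o y => kp o (Φ.symm y).1) ρ

/-- From the glued map to the conclusion of the theorem. -/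
def St_FIN : Prop := ∀ (k q d : ℕ) (Y : Type) [TopologicalSpace Y] [ChartedSpace (E d) Y]
  [IsManifold 𝓘(ℂ, E d) ω Y] (σ : Fr k q → V k q → Gr k q) (ψ : Fr k q → V k q → Y)
  (η : Fr k q → Y → V k q) (φ : Gr k q ≃ₜ Y) (u : Fr k q → V k q), Gm σ → Cell d ψ η →
  (∀ o m l, u o m l ≠ 0) → (∀ o x, φ (σ o x) = ψ o (u o * x)) → Bihol d φ

/-- The theorem. -/
def St_MAIN : Prop := ∀ (k q d : ℕ) (Y : Type) [TopologicalSpace Y] [ChartedSpace (E d) Y]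
  [IsManifold 𝓘(ℂ, E d) ω Y] (Φ : Gr k q ≃ₜ Y), 0 < k → 0 < q → Diffeo d Φ → TorusHol d Φ →
  ∃ Ψ : Gr k q ≃ₜ Y, Bihol d Ψ

/-! ### Kit -/

section kit

variable {k q d : ℕ} {Y : Type} [TopologicalSpace Y] [ChartedSpace (E d) Y]
  [IsManifold 𝓘(ℂ, E d) ω Y] {W : Type} [NormedAddCommGroup W]

variable (d Y) in
/-- The underlying smooth manifold. -/
theorem real_mfd : IsManifold 𝓘(ℝ, E d) ∞ Y := by
  refine isManifold_of_contDiffOn _ _ _ fun e e' he he' => ?_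
  have h := (contDiffGroupoid ω 𝓘(ℂ, E d)).compatible he he'
  rw [contDiffGroupoid, mem_groupoid_of_pregroupoid] at h
  exact (h.1.restrict_scalars ℝ).of_le le_top

theorem hol_ch [NormedSpace ℂ W] {f : W → Y} {w : W} {p : Y}
    (h : MDifferentiableAt 𝓘(ℂ, W) 𝓘(ℂ, E d) f w) (hp : f w ∈ (chartAt (E d) p).source) :
    DifferentiableAt ℂ (chartAt (E d) p ∘ f) w :=
  mdifferentiableAt_iff_differentiableAt.1
    ((mdifferentiableAt_atlas (chart_mem_atlas (E d) p) hp).comp w h)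

theorem hol_symm {p : Y} {z : E d} (hz : z ∈ (chartAt (E d) p).target) :
    MDifferentiableAt 𝓘(ℂ, E d) 𝓘(ℂ, E d) (chartAt (E d) p).symm z :=
  mdifferentiableAt_atlas_symm (chart_mem_atlas (E d) p) hz

theorem sm_ch [NormedSpace ℝ W] {f : W → Y} {w : W} {p : Y}
    (h : ContMDiffAt 𝓘(ℝ, W) 𝓘(ℝ, E d) ∞ f w) (hp : f w ∈ (chartAt (E d) p).source) :
    ContDiffAt ℝ ∞ (chartAt (E d) p ∘ f) w := by
  have := real_mfd d Y
  exact contMDiffAt_iff_contDiffAt.1 ((contMDiffOn_chart.contMDiffAt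
    ((chartAt (E d) p).open_source.mem_nhds hp)).comp w h)

theorem sm_symm {p : Y} {z : E d} (hz : z ∈ (chartAt (E d) p).target) :
    ContMDiffAt 𝓘(ℝ, E d) 𝓘(ℝ, E d) ∞ (chartAt (E d) p).symm z := by
  have := real_mfd d Y
  exact contMDiffOn_chart_symm.contMDiffAt ((chartAt (E d) p).open_target.mem_nhds hz)

theorem sw_sw (o : Fr k q) (i : Fin k) (j : Fin q) : sw (sw o i j) i j = o := by
  ext a
  simp [sw]

theorem ex_ne {ι : Type} (τ : ι → ℂ) (a : ι) : ex τ a ≠ 0 := exp_ne_zero _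

theorem ex_onto {ι : Type} {t : ι → ℂ} (h : ∀ a, t a ≠ 0) : ∃ τ, ex τ = t :=
  ⟨fun a => -I * log (t a), funext fun a => by
    rw [ex, ← mul_assoc, mul_neg, I_mul_I, neg_neg, one_mul, exp_log (h a)]⟩

end kit

end Pool.Agent.Lib.GT40
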