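import Mathlib

/-! The Grassmannian, smooth and holomorphic identifications, the action of the torus. -/

open scoped Manifold ContDiff Topology Matrix

namespace Pool.Agent.Lib.GT40

/-- The Grassmannian of `k`-planes in `ℂ^(k+q)`, as orthogonal projections of rank `k`. -/
abbrev Gr (k q : ℕ) : Type :=
  {P : Fin (k + q) → Fin (k + q) → ℂ // (Matrix.of P)ᴴ = Matrix.of P ∧
    Matrix.of P * Matrix.of P = Matrix.of P ∧ (Matrix.of P).trace = k}

variable {k q d : ℕ} {Y : Type} [TopologicalSpace Y] [ChartedSpace (Fin d → ℂ) Y]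

/-- The `k` columns of `A` are linearly independent. -/
def Full (A : Fin (k + q) → Fin k → ℂ) : Prop := Function.Injective (Matrix.of A).mulVec

/-- The columns of `A` lie in the plane `P`. -/
def Spans (P : Gr k q) (A : Fin (k + q) → Fin k → ℂ) : Prop :=
  Matrix.of P.1 * Matrix.of A = Matrix.of A

variable (d) in
/-- `Φ` is a diffeomorphism: it is smooth as a function of a basis of the plane, and its inverse
is smooth as a map to the space of matrices. -/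
def Diffeo (Φ : Gr k q ≃ₜ Y) : Prop :=
  (∃ F : (Fin (k + q) → Fin k → ℂ) → Y,
    ContMDiffOn 𝓘(ℝ, Fin (k + q) → Fin k → ℂ) 𝓘(ℝ, Fin d → ℂ) ∞ F {A | Full A} ∧
    ∀ A P, Full A → Spans P A → F A = Φ P) ∧
  ContMDiff 𝓘(ℝ, Fin d → ℂ) 𝓘(ℝ, Fin (k + q) → Fin (k + q) → ℂ) ∞ fun y => (Φ.symm y).1

variable (d) in
/-- `Ψ` is biholomorphic: it is holomorphic as a function of a basis of the plane, and its inverse
is locally spanned by a holomorphic basis. -/
def Bihol (Ψ : Gr k q ≃ₜ Y) : Prop :=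
  (∃ F : (Fin (k + q) → Fin k → ℂ) → Y,
    MDifferentiableOn 𝓘(ℂ, Fin (k + q) → Fin k → ℂ) 𝓘(ℂ, Fin d → ℂ) F {A | Full A} ∧
    ∀ A P, Full A → Spans P A → F A = Ψ P) ∧
  ∀ y, ∃ a : Y → Fin (k + q) → Fin k → ℂ, ∀ᶠ z in 𝓝 y,
    MDifferentiableAt 𝓘(ℂ, Fin d → ℂ) 𝓘(ℂ, Fin (k + q) → Fin k → ℂ) a z ∧ Full (a z) ∧
      Spans (Ψ.symm z) (a z)

variable (d) in
/-- Every diagonal unitary matrix acts on `Y`, through `Φ`, by a holomorphic map. -/
def TorusHol (Φ : Gr k q ≃ₜ Y) : Prop :=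
  ∀ θ : Fin (k + q) → ℝ, ∃ f : Y → Y, MDifferentiable 𝓘(ℂ, Fin d → ℂ) 𝓘(ℂ, Fin d → ℂ) f ∧
    ∀ P P' : Gr k q, (∀ a b, P'.1 a b =
      Complex.exp (Complex.I * θ a) * P.1 a b * Complex.exp (-(Complex.I * θ b))) → f (Φ P) = Φ P'

end Pool.Agent.Lib.GT40
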