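import Pool.Agent.Lib.GT40.Blue

/-! Project gt40: the theorem from the blocks. -/

open scoped Manifold ContDiff Topology Matrix
open Set Filter Metric Complex Sum

set_option linter.unusedVariables false

noncomputable section

namespace Pool.Agent.Lib.GT40

theorem cells (hACT : St_ACT) (hDJ : St_DJ) (hCEL : St_CEL) (hEDG : St_EDG) {k q d : ℕ} {Y : Type}
    [TopologicalSpace Y] [T2Space Y] [CompactSpace Y] [ChartedSpace (E d) Y]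
    [IsManifold 𝓘(ℂ, E d) ω Y] {s : Fr k q → V k q → Y} {κ : Fr k q → Y → V k q}
    {ρ : (Fin (k + q) → ℝ) → Y → Y} (h : Dat d s κ ρ)
    (ho : ∀ o m l, Ori d (s o) 0 (ax m l 1) 1) :
    ∃ ψ η, Cell d ψ η ∧ ∀ o, ψ o 0 = s o 0 := by
  obtain ⟨A, hA⟩ := hACT _ d Y ρ (hDJ k q d Y s κ ρ h).1
  choose ψ η hc using fun o => hCEL k q d Y s κ ρ A h hA o (ho o)
  refine ⟨ψ, η, ⟨fun o => (hc o).hol, fun o => (hc o).inv, fun o => (hc o).op, fun o => (hc o).hi,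
    fun t o o' x x' ht e => ?_, fun o i j => hEDG k q d Y s κ ρ A o i j _ _ _ _ h hA (hc o) (hc _),
    fun o g g' => ?_⟩, fun o => (hc o).zero⟩
  · obtain ⟨τ, rfl⟩ := ex_onto ht
    rw [← (hc o).eqv, ← (hc o').eqv, e]
  · rw [(hc _).zero, (hc _).zero]
    exact h.pm o g g' 0

theorem main_of (hACT : St_ACT) (hDJ : St_DJ) (hSG2 : St_SG2) (hCEL : St_CEL) (hEDG : St_EDG)
    (hTRN : St_TRN) (hNRM : St_NRM) (hGLU : St_GLU) (hPJ : St_PJ) (hMOD : St_MOD) (hDAT : St_DAT)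
    (hFIN : St_FIN) : St_MAIN := by
  intro k q d Y _ _ _ Φ hk hq h1 h2
  obtain ⟨p1, p2, -, -, p5⟩ := hPJ k q
  have : T2Space Y := Φ.t2Space
  have : CompactSpace Y := Φ.compactSpace
  choose σ hσ using fun (o : Fr k q) x => (p1 _ (p2 o x).1).2.1
  have hG : Gm σ := ⟨fun o x => ((p1 _ (p2 o x).1).2.2 _).2 (hσ o x), hσ⟩
  obtain ⟨ρ, hD⟩ := hDAT k q d Y σ Φ hG h1 h2
  obtain ⟨ψ, η, hc, h0⟩ : ∃ ψ η, Cell d ψ η ∧ ∀ o, ψ o 0 = Φ (σ o 0) := by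
    rcases hSG2 k q d Y _ _ ρ hD with ho | ho
    · exact cells hACT hDJ hCEL hEDG hD ho
    · obtain ⟨-, a, b⟩ := hDJ k q d Y _ _ ρ hD
      obtain ⟨ψ, η, hc, h0⟩ := cells hACT hDJ hCEL hEDG a fun o m l => b o m l (ho o m l)
      exact ⟨ψ, η, hc, fun o => by rw [h0, star_zero]⟩
  obtain ⟨G, hN⟩ := hNRM k q d Y ψ η hk hq hc (hTRN k q d Y ψ η hc)
  obtain ⟨φ, u, hu, hφ⟩ := hGLU k q d _ Y σ ψ η G hk hq ⟨Φ⟩ (hMOD k q σ hG).1 hc hN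
    fun o o' e => Φ.injective (by rw [← h0, ← h0, e])
  exact ⟨φ, hFIN k q d Y σ ψ η φ u hG hc hu hφ⟩

end Pool.Agent.Lib.GT40
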